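import Pool.Agent.H709Reg.Setup

open Pool.Agent.Helper449.ZM Pool.Agent.H709Reg

open scoped KaehlerDifferential

namespace Pool.Agent.H709Reg.J27300



variable {K : Type} [Field K] [Algebra ℂ K]

noncomputable def canonicalModule (n : ℕ) (R : Subalgebra ℂ K) : Submodule R (⋀[K]^n Ω[K⁄ℂ]) :=
  Submodule.span R {η | ∃ r : Fin n → K, (∀ i, r i ∈ R) ∧
    η = exteriorPower.ιMulti K n fun i => KaehlerDifferential.D ℂ K (r i)}

/-- the rational 3-form `dx ∧ dA ∧ dB / (x w A B)` -/
noncomputable def omega (d : EllData K) : ⋀[K]^3 Ω[K⁄ℂ] :=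
  (d.x * d.w * d.A * d.B)⁻¹ • exteriorPower.ιMulti K 3
    ![KaehlerDifferential.D ℂ K d.x, KaehlerDifferential.D ℂ K d.A, KaehlerDifferential.D ℂ K d.B]

section aux

theorem aux_x_ne (d : EllData K) : d.x ≠ 0 := by
  intro h
  have := d.rel
  rw [h] at this
  norm_num at this

theorem aux_tr (d : EllData K) : Transcendental ℂ d.w := by
  have := d.indep.transcendental 0
  simpa using this

theorem aux_ne_of_tr {z : K} (h : Transcendental ℂ z) : z ≠ 0 := by
  intro h0
  apply h
  rw [h0]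
  exact isAlgebraic_zero

theorem aux_w_ne (d : EllData K) : d.w ≠ 0 := aux_ne_of_tr (aux_tr d)

theorem aux_A_ne (d : EllData K) : d.A ≠ 0 := by
  have : Transcendental ℂ d.A := by
    have := d.indep.transcendental 1
    simpa using this
  exact aux_ne_of_tr this

theorem aux_B_ne (d : EllData K) : d.B ≠ 0 := by
  have : Transcendental ℂ d.B := by
    have := d.indep.transcendental 2
    simpa using this
  exact aux_ne_of_tr this

theorem aux_D_rel (d : EllData K) :
    (d.x + (d.x - d.w ^ 2)) • KaehlerDifferential.D ℂ K d.x =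
      (2 * (d.x * d.w)) • KaehlerDifferential.D ℂ K d.w := by
  have h : KaehlerDifferential.D ℂ K (d.x * d.x - (d.w * d.w) * d.x - 1) = 0 := by
    have : d.x * d.x - (d.w * d.w) * d.x - 1 = 0 := by
      have := d.rel
      linear_combination this
    rw [this, map_zero]
  rw [map_sub, map_sub, Derivation.leibniz, Derivation.leibniz, Derivation.leibniz,
    Derivation.map_one_eq_zero, sub_zero] at h
  have h2 : (d.x + (d.x - d.w ^ 2)) • KaehlerDifferential.D ℂ K d.x -
      (2 * (d.x * d.w)) • KaehlerDifferential.D ℂ K d.w = 0 := by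
    rw [← h]
    module
  exact sub_eq_zero.1 h2

/-- the invariant differential of the elliptic curve -/
noncomputable def aux_o (d : EllData K) : Ω[K⁄ℂ] :=
  (d.x * d.w)⁻¹ • KaehlerDifferential.D ℂ K d.x

theorem aux_Dx (d : EllData K) : KaehlerDifferential.D ℂ K d.x = (d.x * d.w) • aux_o d := by
  unfold aux_o
  rw [smul_smul, mul_inv_cancel₀ (mul_ne_zero (aux_x_ne d) (aux_w_ne d)), one_smul]

theorem aux_cz (K : Type) [Field K] [Algebra ℂ K] : CharZero K :=
  charZero_of_injective_algebraMap (algebraMap ℂ K).injective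

theorem aux_Dw (d : EllData K) : KaehlerDifferential.D ℂ K d.w =
    ((d.x + (d.x - d.w ^ 2)) / 2) • aux_o d := by
  have := aux_cz K
  have h := aux_D_rel d
  have h0 : (2 * (d.x * d.w)) ≠ 0 :=
    mul_ne_zero two_ne_zero (mul_ne_zero (aux_x_ne d) (aux_w_ne d))
  have h1 : KaehlerDifferential.D ℂ K d.w = (2 * (d.x * d.w))⁻¹ •
      ((d.x + (d.x - d.w ^ 2)) • KaehlerDifferential.D ℂ K d.x) := by
    rw [h, smul_smul, inv_mul_cancel₀ h0, one_smul]
  rw [h1]
  unfold aux_o
  rw [smul_smul, smul_smul]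
  congr 1
  have h2 := aux_x_ne d
  have h3 := aux_w_ne d
  field_simp

theorem aux_oeq (d : EllData K) : aux_o d =
    ((d.x + (d.x - d.w ^ 2)) / 2) • KaehlerDifferential.D ℂ K d.w -
      (d.w ^ 3 * (d.x - d.w ^ 2) / 4) • KaehlerDifferential.D ℂ K d.x := by
  have := aux_cz K
  rw [aux_Dw, aux_Dx, smul_smul, smul_smul, ← sub_smul]
  have h : (d.x + (d.x - d.w ^ 2)) / 2 * ((d.x + (d.x - d.w ^ 2)) / 2) -
      d.w ^ 3 * (d.x - d.w ^ 2) / 4 * (d.x * d.w) = 1 := by
    have hr := d.rel
    linear_combination (1 - d.w ^ 4 / 4) * hr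
  rw [h, one_smul]


theorem aux_smul_mem {M : Type} [AddCommGroup M] [Module K M] (R : Subalgebra ℂ K)
    (V : Submodule R M) {r : K} (hr : r ∈ R) {m : M} (hm : m ∈ V) : r • m ∈ V :=
  V.smul_mem ⟨r, hr⟩ hm

/-- alternating maps on vectors in the span of three vectors -/
theorem aux_det {M N : Type} [AddCommGroup M] [Module K M] [AddCommGroup N] [Module K N]
    (R : Subalgebra ℂ K) (g : M [⋀^Fin 3]→ₗ[K] N) (v m : Fin 3 → M)
    (h : ∀ i, m i ∈ Submodule.span R (Set.range v)) : g m ∈ Submodule.span R {g v} := by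
  choose c hc using fun i => (Submodule.mem_span_range_iff_exists_fun R).1 (h i)
  have hm : m = fun i => ∑ k, ((c i k : R) : K) • v k := by
    funext i
    exact (hc i).symm
  have h1 : g m = ∑ f : Fin 3 → Fin 3, g (fun i => ((c i (f i) : R) : K) • v (f i)) := by
    rw [hm]
    exact MultilinearMap.map_sum g.toMultilinearMap
      (fun i k => ((c i k : R) : K) • v k)
  rw [h1]
  refine Submodule.sum_mem _ fun f _ => ?_
  have h2 : g (fun i => ((c i (f i) : R) : K) • v (f i)) =
      (∏ i, ((c i (f i) : R) : K)) • g (v ∘ f) :=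
    g.map_smul_univ _ _
  rw [h2]
  refine aux_smul_mem R _ (R.prod_mem fun i _ => (c i (f i)).2) ?_
  by_cases hf : Function.Injective f
  · let σ : Equiv.Perm (Fin 3) := Equiv.ofBijective f (Finite.injective_iff_bijective.1 hf)
    have h3 : g (v ∘ f) = (Equiv.Perm.sign σ : ℤˣ) • g v := g.map_perm v σ
    rw [h3]
    rcases Int.units_eq_one_or (Equiv.Perm.sign σ) with h4 | h4
    · rw [h4, one_smul]
      exact Submodule.subset_span rfl
    · rw [h4, Units.neg_smul, one_smul]
      exact Submodule.neg_mem _ (Submodule.subset_span rfl)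
  · have h3 : g (v ∘ f) = 0 := by
      refine g.map_eq_zero_of_not_injective _ ?_
      intro h4
      exact hf h4.of_comp
    rw [h3]
    exact Submodule.zero_mem _

theorem aux_smul3 {M N : Type} [AddCommGroup M] [Module K M] [AddCommGroup N] [Module K N]
    (g : M [⋀^Fin 3]→ₗ[K] N) (a b c : K) (u v w : M) :
    g ![a • u, b • v, c • w] = (a * b * c) • g ![u, v, w] := by
  have h : (![a • u, b • v, c • w] : Fin 3 → M) = fun i => ![a, b, c] i • ![u, v, w] i := by
    funext i
    fin_cases i <;> rfl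
  rw [h]
  have h2 := g.map_smul_univ ![a, b, c] ![u, v, w]
  rw [h2, Fin.prod_univ_three]
  rfl

theorem aux_sign (α A : K) (hA : A ≠ 0) (h : α = A ∨ α = A⁻¹) : ∃ ε : K, (ε = 1 ∨ ε = -1) ∧
    KaehlerDifferential.D ℂ K A = (ε * A * α⁻¹) • KaehlerDifferential.D ℂ K α := by
  rcases h with h | h
  · refine ⟨1, Or.inl rfl, ?_⟩
    rw [h, one_mul, mul_inv_cancel₀ hA, one_smul]
  · refine ⟨-1, Or.inr rfl, ?_⟩
    rw [h, Derivation.leibniz_inv, smul_smul, inv_inv]
    have : -1 * A * A * -A⁻¹ ^ 2 = 1 := by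
      field_simp
    rw [this, one_smul]

theorem aux_om (d : EllData K)
    (α β : K) (hα : α = d.A ∨ α = d.A⁻¹) (hβ : β = d.B ∨ β = d.B⁻¹) :
    ∃ ε : K, (ε = 1 ∨ ε = -1) ∧ (α * β) • omega d = ε • exteriorPower.ιMulti K 3
      ![aux_o d, KaehlerDifferential.D ℂ K α, KaehlerDifferential.D ℂ K β] := by
  have hA := aux_A_ne d
  have hB := aux_B_ne d
  have hx := aux_x_ne d
  have hw := aux_w_ne d
  have hα0 : α ≠ 0 := by
    rcases hα with h | h
    · rw [h]; exact hA
    · rw [h]; exact inv_ne_zero hA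
  have hβ0 : β ≠ 0 := by
    rcases hβ with h | h
    · rw [h]; exact hB
    · rw [h]; exact inv_ne_zero hB
  obtain ⟨ε, hε, hεA⟩ := aux_sign α d.A hA hα
  obtain ⟨δ, hδ, hδB⟩ := aux_sign β d.B hB hβ
  refine ⟨ε * δ, ?_, ?_⟩
  · rcases hε with h | h <;> rcases hδ with h' | h' <;> rw [h, h'] <;> simp
  · unfold omega
    rw [aux_Dx, hεA, hδB, aux_smul3, smul_smul, smul_smul]
    congr 1
    field_simp

/-- the span containing all differentials -/
theorem aux_mem_V (d : EllData K) (α β : K) (R : Subalgebra ℂ K)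
    (hR : Algebra.adjoin ℂ {d.x, d.w, α, β} ≤ R) (z : K)
    (hz : z ∈ Algebra.adjoin ℂ {d.x, d.w, α, β}) :
    KaehlerDifferential.D ℂ K z ∈ Submodule.span R (Set.range
      ![aux_o d, KaehlerDifferential.D ℂ K α, KaehlerDifferential.D ℂ K β]) := by
  have hxR : d.x ∈ R := hR (Algebra.subset_adjoin (by simp))
  have hwR : d.w ∈ R := hR (Algebra.subset_adjoin (by simp))
  have g0 : aux_o d ∈ Submodule.span R (Set.range
      ![aux_o d, KaehlerDifferential.D ℂ K α, KaehlerDifferential.D ℂ K β]) :=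
    Submodule.subset_span ⟨0, rfl⟩
  have g1 : KaehlerDifferential.D ℂ K α ∈ Submodule.span R (Set.range
      ![aux_o d, KaehlerDifferential.D ℂ K α, KaehlerDifferential.D ℂ K β]) :=
    Submodule.subset_span ⟨1, rfl⟩
  have g2 : KaehlerDifferential.D ℂ K β ∈ Submodule.span R (Set.range
      ![aux_o d, KaehlerDifferential.D ℂ K α, KaehlerDifferential.D ℂ K β]) :=
    Submodule.subset_span ⟨2, rfl⟩
  induction hz using Algebra.adjoin_induction with
  | mem z hz =>
    rcases hz with h | h | h | h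
    · rw [h, aux_Dx]
      exact aux_smul_mem R _ (R.mul_mem hxR hwR) g0
    · rw [h, aux_Dw]
      refine aux_smul_mem R _ ?_ g0
      have : (d.x + (d.x - d.w ^ 2)) / 2 = ((1 / 2 : ℂ)) • (d.x + (d.x - d.w ^ 2)) := by
        rw [Algebra.smul_def, map_div₀, map_one, map_ofNat]
        ring
      rw [this]
      exact R.smul_mem (R.add_mem hxR (R.sub_mem hxR (R.pow_mem hwR 2))) _
    · rw [h]; exact g1
    · have h' : z = β := h
      rw [h']; exact g2
  | algebraMap r =>
    rw [Derivation.map_algebraMap]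
    exact Submodule.zero_mem _
  | add a b _ _ ha hb =>
    rw [map_add]
    exact Submodule.add_mem _ ha hb
  | mul a b ha' hb' ha hb =>
    rw [Derivation.leibniz]
    exact Submodule.add_mem _ (aux_smul_mem R _ (hR ha') hb) (aux_smul_mem R _ (hR hb') ha)

theorem aux_mem_R (d : EllData K) (α β : K) (R : Subalgebra ℂ K)
    (hR : IsLocOf (Algebra.adjoin ℂ {d.x, d.w, α, β}) R) (z : K) (hz : z ∈ R) :
    KaehlerDifferential.D ℂ K z ∈ Submodule.span R (Set.range
      ![aux_o d, KaehlerDifferential.D ℂ K α, KaehlerDifferential.D ℂ K β]) := by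
  obtain ⟨hle, h⟩ := hR
  obtain ⟨a, ha, s, hs, hs0, hsR, rfl⟩ := h z hz
  rw [div_eq_mul_inv, Derivation.leibniz, Derivation.leibniz_inv]
  refine Submodule.add_mem _ (aux_smul_mem R _ (hle ha) (aux_smul_mem R _
    (R.neg_mem (R.pow_mem hsR 2)) (aux_mem_V d α β R hle s hs)))
    (aux_smul_mem R _ hsR (aux_mem_V d α β R hle a ha))

theorem aux_can (d : EllData K) (α β : K) (R : Subalgebra ℂ K)
    (hR : Algebra.adjoin ℂ {d.x, d.w, α, β} ≤ R) :
    exteriorPower.ιMulti K 3
      ![aux_o d, KaehlerDifferential.D ℂ K α, KaehlerDifferential.D ℂ K β] ∈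
      canonicalModule 3 R := by
  have hxR : d.x ∈ R := hR (Algebra.subset_adjoin (by simp))
  have hwR : d.w ∈ R := hR (Algebra.subset_adjoin (by simp))
  have hαR : α ∈ R := hR (Algebra.subset_adjoin (by simp))
  have hβR : β ∈ R := hR (Algebra.subset_adjoin (by simp))
  have hgen : ∀ z ∈ R, exteriorPower.ιMulti K 3
      ![KaehlerDifferential.D ℂ K z, KaehlerDifferential.D ℂ K α, KaehlerDifferential.D ℂ K β] ∈
      canonicalModule 3 R := by
    intro z hz
    refine Submodule.subset_span ⟨![z, α, β], ?_, ?_⟩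
    · intro i
      fin_cases i
      · exact hz
      · exact hαR
      · exact hβR
    · congr 1
      funext i
      fin_cases i <;> rfl
  have h1 : exteriorPower.ιMulti K 3
      ![aux_o d, KaehlerDifferential.D ℂ K α, KaehlerDifferential.D ℂ K β] =
      ((d.x + (d.x - d.w ^ 2)) / 2) • exteriorPower.ιMulti K 3
        ![KaehlerDifferential.D ℂ K d.w, KaehlerDifferential.D ℂ K α,
          KaehlerDifferential.D ℂ K β] +
      (-(d.w ^ 3 * (d.x - d.w ^ 2) / 4)) • exteriorPower.ιMulti K 3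
        ![KaehlerDifferential.D ℂ K d.x, KaehlerDifferential.D ℂ K α,
          KaehlerDifferential.D ℂ K β] := by
    rw [← AlternatingMap.map_vecCons_smul, ← AlternatingMap.map_vecCons_smul,
      ← AlternatingMap.map_vecCons_add]
    congr 2
    rw [aux_oeq, neg_smul, sub_eq_add_neg]
  rw [h1]
  refine Submodule.add_mem _ (aux_smul_mem R _ ?_ (hgen _ hwR))
    (aux_smul_mem R _ ?_ (hgen _ hxR))
  · have : (d.x + (d.x - d.w ^ 2)) / 2 = ((1 / 2 : ℂ)) • (d.x + (d.x - d.w ^ 2)) := by
      rw [Algebra.smul_def, map_div₀, map_one, map_ofNat]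
      ring
    rw [this]
    exact R.smul_mem (R.add_mem hxR (R.sub_mem hxR (R.pow_mem hwR 2))) _
  · have : -(d.w ^ 3 * (d.x - d.w ^ 2) / 4) = (-(1 / 4 : ℂ)) • (d.w ^ 3 * (d.x - d.w ^ 2)) := by
      rw [Algebra.smul_def, map_neg, map_div₀, map_one, map_ofNat]
      ring
    rw [this]
    exact R.smul_mem (R.mul_mem (R.pow_mem hwR 3) (R.sub_mem hxR (R.pow_mem hwR 2))) _

end aux

theorem generates_omega (d : EllData K)
    (α β : K) (hα : α = d.A ∨ α = d.A⁻¹) (hβ : β = d.B ∨ β = d.B⁻¹) (R : Subalgebra ℂ K)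
    (hR : IsLocOf (Algebra.adjoin ℂ {d.x, d.w, α, β}) R) :
    Submodule.span R {(α * β) • omega d} = canonicalModule 3 R := by
  obtain ⟨ε, hε, hom⟩ := aux_om d α β hα hβ
  have hεR : ε ∈ R := by
    rcases hε with h | h
    · rw [h]; exact R.one_mem
    · rw [h]; exact R.neg_mem R.one_mem
  have hεε : ε * ε = 1 := by
    rcases hε with h | h <;> rw [h] <;> ring
  apply le_antisymm
  · rw [Submodule.span_le, Set.singleton_subset_iff]
    rw [hom]
    exact aux_smul_mem R _ hεR (aux_can d α β R hR.1)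
  · unfold canonicalModule
    rw [Submodule.span_le]
    rintro η ⟨r, hr, rfl⟩
    have h1 := aux_det R (exteriorPower.ιMulti K 3)
      ![aux_o d, KaehlerDifferential.D ℂ K α, KaehlerDifferential.D ℂ K β]
      (fun i => KaehlerDifferential.D ℂ K (r i)) (fun i => aux_mem_R d α β R hR _ (hr i))
    have h2 : Submodule.span R {exteriorPower.ιMulti K 3
        ![aux_o d, KaehlerDifferential.D ℂ K α, KaehlerDifferential.D ℂ K β]} ≤
        Submodule.span R {(α * β) • omega d} := by
      rw [Submodule.span_le, Set.singleton_subset_iff]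
      have h3 : exteriorPower.ιMulti K 3
          ![aux_o d, KaehlerDifferential.D ℂ K α, KaehlerDifferential.D ℂ K β] =
          ε • ((α * β) • omega d) := by
        rw [hom, smul_smul, hεε, one_smul]
      rw [h3]
      exact aux_smul_mem R _ hεR (Submodule.subset_span rfl)
    exact h2 h1

section aux2

open scoped IntermediateField.algebraAdjoinAdjoin in
theorem auy_phi (v : Fin 3 → K) (hb : AlgebraicIndependent ℂ v)
    (hal : Algebra.IsAlgebraic (IntermediateField.adjoin ℂ (Set.range v)) K) :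
    ∃ φ : Fin 3 → (Ω[K⁄ℂ] →ₗ[K] K),
      ∀ i j, φ i (KaehlerDifferential.D ℂ K (v j)) = if i = j then 1 else 0 := by
  have hcz := aux_cz K
  have h1 : Algebra.FormallyEtale (Algebra.adjoin ℂ (Set.range v))
      (IntermediateField.adjoin ℂ (Set.range v)) :=
    Algebra.FormallyEtale.of_isLocalization (nonZeroDivisors _)
  have h2 : Algebra.FormallyEtale (IntermediateField.adjoin ℂ (Set.range v)) K :=
    Algebra.FormallyEtale.of_isSeparable _ K
  have h3 : Algebra.FormallyEtale (Algebra.adjoin ℂ (Set.range v)) K :=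
    .comp _ (IntermediateField.adjoin ℂ (Set.range v)) _
  let ψ := hb.aevalEquiv
  let δ : Fin 3 → Derivation ℂ (Algebra.adjoin ℂ (Set.range v)) (Algebra.adjoin ℂ (Set.range v)) :=
    fun i => Derivation.mk' (ψ.toLinearMap ∘ₗ (MvPolynomial.pderiv i).toLinearMap ∘ₗ
      ψ.symm.toLinearMap) (by
        intro a b
        simp [Derivation.leibniz])
  let e := KaehlerDifferential.tensorKaehlerEquivOfFormallyEtale ℂ
    (Algebra.adjoin ℂ (Set.range v)) K
  refine ⟨fun i => (((Algebra.linearMap (Algebra.adjoin ℂ (Set.range v)) K) ∘ₗ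
    (δ i).liftKaehlerDifferential).liftBaseChange K) ∘ₗ e.symm.toLinearMap, ?_⟩
  intro i j
  have hv : v j = algebraMap (Algebra.adjoin ℂ (Set.range v)) K (ψ (MvPolynomial.X j)) := by
    rw [AlgebraicIndependent.algebraMap_aevalEquiv]
    simp
  rw [hv]
  simp only [LinearMap.comp_apply, LinearEquiv.coe_coe]
  have h4 : e.symm (KaehlerDifferential.D ℂ K (algebraMap (Algebra.adjoin ℂ (Set.range v)) K
      (ψ (MvPolynomial.X j)))) = 1 ⊗ₜ KaehlerDifferential.D ℂ _ (ψ (MvPolynomial.X j)) :=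
    KaehlerDifferential.tensorKaehlerEquivOfFormallyEtale_symm_D_algebraMap _ _ _ _
  rw [h4, LinearMap.liftBaseChange_tmul, one_smul, LinearMap.comp_apply,
    Derivation.liftKaehlerDifferential_comp_D]
  have h5 : δ i (ψ (MvPolynomial.X j)) = ψ (MvPolynomial.pderiv i (MvPolynomial.X j)) := by
    show ψ (MvPolynomial.pderiv i (ψ.symm (ψ (MvPolynomial.X j)))) = _
    rw [AlgEquiv.symm_apply_apply]
  rw [h5, MvPolynomial.pderiv_X]
  by_cases hij : i = j
  · subst hij
    rw [Pi.single_eq_same, map_one, if_pos rfl, Algebra.linearMap_apply, map_one]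
  · rw [Pi.single_eq_of_ne (fun h => hij h.symm), map_zero, map_zero, if_neg hij]

theorem auy_alg (d : EllData K) :
    Algebra.IsAlgebraic (IntermediateField.adjoin ℂ (Set.range ![d.w, d.A, d.B])) K := by
  let L := IntermediateField.adjoin ℂ (Set.range ![d.w, d.A, d.B])
  have hmem : ∀ j, ![d.w, d.A, d.B] j ∈ L := fun j =>
    IntermediateField.subset_adjoin _ _ ⟨j, rfl⟩
  have hLalg : ∀ z ∈ L, IsAlgebraic L z := by
    intro z hz
    exact isAlgebraic_algebraMap (⟨z, hz⟩ : L)
  have hx : IsAlgebraic L d.x := by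
    refine ⟨Polynomial.X ^ 2 - Polynomial.C (⟨d.w, hmem 0⟩ ^ 2 : L) * Polynomial.X - 1, ?_, ?_⟩
    · have hm : (Polynomial.X ^ 2 - Polynomial.C ((⟨d.w, hmem 0⟩ : L) ^ 2) * Polynomial.X - 1).Monic := by
        monicity!
      exact hm.ne_zero
    · have := d.rel
      simp only [map_sub, map_pow, map_mul, Polynomial.aeval_X, Polynomial.aeval_C, map_one]
      exact this
  have htop : (⊤ : IntermediateField ℂ K) ≤ (algebraicClosure L K).restrictScalars ℂ := by
    rw [← d.gen, IntermediateField.adjoin_le_iff]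
    rintro z (h | h | h | h)
    · rw [h]; exact mem_algebraicClosure_iff.2 (hLalg _ (hmem 0))
    · rw [h]; exact mem_algebraicClosure_iff.2 hx
    · rw [h]; exact mem_algebraicClosure_iff.2 (hLalg _ (hmem 1))
    · have h' : z = d.B := h
      rw [h']; exact mem_algebraicClosure_iff.2 (hLalg _ (hmem 2))
  refine ⟨fun z => ?_⟩
  exact mem_algebraicClosure_iff.1 (htop (IntermediateField.mem_top (x := z)))

end aux2

theorem omega_ne_zero (d : EllData K) : omega d ≠ 0 := by
  obtain ⟨φ, hφ⟩ := auy_phi ![d.w, d.A, d.B] d.indep (auy_alg d)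
  have hA := aux_A_ne d
  have hB := aux_B_ne d
  have hx := aux_x_ne d
  have hw := aux_w_ne d
  have hcz := aux_cz K
  unfold omega
  refine smul_ne_zero (inv_ne_zero (mul_ne_zero (mul_ne_zero (mul_ne_zero hx hw) hA) hB)) ?_
  intro h0
  let g : Ω[K⁄ℂ] [⋀^Fin 3]→ₗ[K] K :=
    (Matrix.detRowAlternating : (Fin 3 → K) [⋀^Fin 3]→ₗ[K] K).compLinearMap (LinearMap.pi φ)
  have h1 := exteriorPower.alternatingMapLinearEquiv_apply_ιMulti g
    ![KaehlerDifferential.D ℂ K d.x, KaehlerDifferential.D ℂ K d.A, KaehlerDifferential.D ℂ K d.B]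
  rw [h0, map_zero] at h1
  have h2 : g ![KaehlerDifferential.D ℂ K d.x, KaehlerDifferential.D ℂ K d.A,
      KaehlerDifferential.D ℂ K d.B] = Matrix.det (Matrix.of fun i j => φ j
        (![KaehlerDifferential.D ℂ K d.x, KaehlerDifferential.D ℂ K d.A,
          KaehlerDifferential.D ℂ K d.B] i)) := rfl
  have p0 : φ 0 (KaehlerDifferential.D ℂ K d.w) = 1 := hφ 0 0
  have a0 : φ 0 (KaehlerDifferential.D ℂ K d.A) = 0 := hφ 0 1
  have a1 : φ 1 (KaehlerDifferential.D ℂ K d.A) = 1 := hφ 1 1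
  have a2 : φ 2 (KaehlerDifferential.D ℂ K d.A) = 0 := hφ 2 1
  have b0 : φ 0 (KaehlerDifferential.D ℂ K d.B) = 0 := hφ 0 2
  have b1 : φ 1 (KaehlerDifferential.D ℂ K d.B) = 0 := hφ 1 2
  have b2 : φ 2 (KaehlerDifferential.D ℂ K d.B) = 1 := hφ 2 2
  rw [h2, Matrix.det_fin_three] at h1
  simp only [Matrix.of_apply, Matrix.cons_val_zero, Matrix.cons_val_one, Matrix.cons_val, a0, a1, a2, b0, b1,
    b2] at h1
  have h3 : φ 0 (KaehlerDifferential.D ℂ K d.x) = 0 := by
    linear_combination -h1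
  have h4 := congrArg (φ 0) (aux_D_rel d)
  rw [map_smul, map_smul, h3, p0, smul_zero, smul_eq_mul, mul_one] at h4
  exact mul_ne_zero two_ne_zero (mul_ne_zero hx hw) h4.symm
end Pool.Agent.H709Reg.J27300
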