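import Pool.Agent.H709Reg.XVar
import Pool.Agent.H709Reg.J27300

open MvPolynomial Pool.Agent.Helper449.ZM
open scoped KaehlerDifferential

namespace Pool.Agent.H709Reg

variable {K : Type} [Field K] [Algebra ℂ K]

theorem D_inv (D : Derivation ℂ K K) {a : K} (ha : a ≠ 0) : D a⁻¹ = -(D a) * a⁻¹ ^ 2 := by
  rw [Derivation.leibniz_inv]; simp [mul_comm]

theorem D_mul (D : Derivation ℂ K K) (a b : K) : D (a * b) = a * D b + b * D a := by
  rw [Derivation.leibniz]; rfl

theorem D_div (D : Derivation ℂ K K) {a b : K} (hb : b ≠ 0) :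
    D (a / b) = D a / b - a * D b / b ^ 2 := by
  rw [div_eq_mul_inv, D_mul, D_inv D hb]
  field_simp
  ring

theorem D_one' (D : Derivation ℂ K K) : D 1 = 0 := D.map_one_eq_zero

theorem D_two' (D : Derivation ℂ K K) : D 2 = 0 := by
  have : (2 : K) = algebraMap ℂ K 2 := (map_ofNat _ 2).symm
  rw [this, D.map_algebraMap]

/-- the invariant differential `dx/(xw)` -/
noncomputable def del (d : EllData K) (D : Derivation ℂ K K) : K := D d.x / (d.x * d.w)

theorem D_x (d : EllData K) (D : Derivation ℂ K K) : D d.x = (d.x * d.w) * del d D := by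
  have h1 := d.x_ne
  have h2 := d.w_ne
  rw [del]; field_simp

theorem D_w (d : EllData K) (D : Derivation ℂ K K) :
    D d.w = ((d.x + (d.x - d.w ^ 2)) / 2) * del d D := by
  have h1 := d.x_ne
  have h2 := d.w_ne
  have h3 := d.two_ne
  have h : D (d.x * d.x - (d.w * d.w) * d.x - 1) = 0 := by
    have : d.x * d.x - (d.w * d.w) * d.x - 1 = 0 := by
      have := d.rel
      linear_combination this
    rw [this, map_zero]
  rw [map_sub, map_sub, D_mul, D_mul, D_mul, D_one', sub_zero] at h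
  rw [del]
  field_simp
  linear_combination (-1 : K) * h

theorem del_eq (d : EllData K) (D : Derivation ℂ K K) : del d D =
    ((d.x + (d.x - d.w ^ 2)) / 2) * D d.w - (d.w ^ 3 * (d.x - d.w ^ 2) / 4) * D d.x := by
  rw [D_w, D_x]
  have h : (d.x + (d.x - d.w ^ 2)) / 2 * ((d.x + (d.x - d.w ^ 2)) / 2) -
      d.w ^ 3 * (d.x - d.w ^ 2) / 4 * (d.x * d.w) = 1 := by
    have hr := d.rel
    have := J27300.aux_cz K
    linear_combination (1 - d.w ^ 4 / 4) * hr
  linear_combination (-(del d D)) * h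

theorem del_swap (d : EllData K) (D : Derivation ℂ K K) : del d.swap D = del d D := by
  have h1 := d.x_ne
  have h2 := d.w_ne
  have h3 := d.two_ne
  have h4 := d.x_sub_ne
  have h5 := d.x_add_ne
  have hr := d.rel
  have e : D d.swap.x = -2 * D d.x / (d.x - 1) ^ 2 := by
    rw [swap_x, D_div D h4, map_add, map_sub, D_one']
    field_simp
    ring
  rw [del, del, e, swap_x, swap_w]
  field_simp
  linear_combination (-(D d.x)) * hr

/-- the local generator -/
noncomputable def gen3 (d : EllData K) (α β : K) (D : Fin 3 → Derivation ℂ K K) : K :=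
  (Matrix.of ![fun j => del d (D j), fun j => D j α, fun j => D j β]).det

theorem comb_adjoin (d : EllData K) (α β : K) (R : Subalgebra ℂ K)
    (hR : Algebra.adjoin ℂ {d.x, d.w, α, β} ≤ R) (z : K)
    (hz : z ∈ Algebra.adjoin ℂ {d.x, d.w, α, β}) :
    ∃ a ∈ R, ∃ b ∈ R, ∃ c ∈ R, ∀ D : Derivation ℂ K K, D z = a * del d D + b * D α + c * D β := by
  have hxR : d.x ∈ R := hR (Algebra.subset_adjoin (by simp))
  have hwR : d.w ∈ R := hR (Algebra.subset_adjoin (by simp))
  induction hz using Algebra.adjoin_induction with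
  | mem z hz =>
    rcases hz with rfl | rfl | rfl | rfl
    · exact ⟨_, R.mul_mem hxR hwR, 0, R.zero_mem, 0, R.zero_mem, fun D => by
        rw [D_x]; ring⟩
    · refine ⟨(d.x + (d.x - d.w ^ 2)) / 2, ?_, 0, R.zero_mem, 0, R.zero_mem, fun D => by
        rw [D_w]; ring⟩
      rw [div_eq_mul_inv]
      exact R.mul_mem (R.add_mem hxR (R.sub_mem hxR (R.pow_mem hwR 2))) (halfR R)
    · exact ⟨0, R.zero_mem, 1, R.one_mem, 0, R.zero_mem, fun D => by ring⟩
    · exact ⟨0, R.zero_mem, 0, R.zero_mem, 1, R.one_mem, fun D => by ring⟩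
  | algebraMap r =>
    exact ⟨0, R.zero_mem, 0, R.zero_mem, 0, R.zero_mem, fun D => by
      rw [D.map_algebraMap]; ring⟩
  | add u v _ _ hu hv =>
    obtain ⟨a, ha, b, hb, c, hc, e⟩ := hu
    obtain ⟨a', ha', b', hb', c', hc', e'⟩ := hv
    exact ⟨a + a', R.add_mem ha ha', b + b', R.add_mem hb hb', c + c', R.add_mem hc hc',
      fun D => by rw [map_add, e, e']; ring⟩
  | mul u v hu' hv' hu hv =>
    obtain ⟨a, ha, b, hb, c, hc, e⟩ := hu
    obtain ⟨a', ha', b', hb', c', hc', e'⟩ := hv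
    have mu := hR hu'
    have mv := hR hv'
    exact ⟨u * a' + v * a, R.add_mem (R.mul_mem mu ha') (R.mul_mem mv ha),
      u * b' + v * b, R.add_mem (R.mul_mem mu hb') (R.mul_mem mv hb),
      u * c' + v * c, R.add_mem (R.mul_mem mu hc') (R.mul_mem mv hc),
      fun D => by rw [D_mul, e, e']; ring⟩

theorem comb_R (d : EllData K) (α β : K) (R : Subalgebra ℂ K)
    (hR : IsLocOf (Algebra.adjoin ℂ {d.x, d.w, α, β}) R) (z : K) (hz : z ∈ R) :
    ∃ a ∈ R, ∃ b ∈ R, ∃ c ∈ R, ∀ D : Derivation ℂ K K, D z = a * del d D + b * D α + c * D β := by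
  obtain ⟨hle, h⟩ := hR
  obtain ⟨u, hu, s, hs, hs0, hsR, rfl⟩ := h z hz
  obtain ⟨a, ha, b, hb, c, hc, e⟩ := comb_adjoin d α β R hle u hu
  obtain ⟨a', ha', b', hb', c', hc', e'⟩ := comb_adjoin d α β R hle s hs
  have m := R.mul_mem (hle hu) (R.pow_mem hsR 2)
  refine ⟨s⁻¹ * a - u * s⁻¹ ^ 2 * a', R.sub_mem (R.mul_mem hsR ha) (R.mul_mem m ha'),
    s⁻¹ * b - u * s⁻¹ ^ 2 * b', R.sub_mem (R.mul_mem hsR hb) (R.mul_mem m hb'),
    s⁻¹ * c - u * s⁻¹ ^ 2 * c', R.sub_mem (R.mul_mem hsR hc) (R.mul_mem m hc'), fun D => ?_⟩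
  rw [D_div D hs0, e, e']
  field_simp
  ring

/-- the form `dz₀ ∧ dz₁ ∧ dz₂` as a function of three derivations -/
noncomputable def wedge3 (r : Fin 3 → K) (D : Fin 3 → Derivation ℂ K K) : K :=
  (Matrix.of fun i j => D j (r i)).det

theorem wedge3_eq (d : EllData K) (α β : K) (R : Subalgebra ℂ K)
    (hR : IsLocOf (Algebra.adjoin ℂ {d.x, d.w, α, β}) R) (r : Fin 3 → K) (hr : ∀ i, r i ∈ R) :
    ∃ t ∈ R, ∀ D, wedge3 r D = t * gen3 d α β D := by
  choose a ha b hb c hc e using fun i => comb_R d α β R hR (r i) (hr i)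
  refine ⟨(Matrix.of ![![a 0, b 0, c 0], ![a 1, b 1, c 1], ![a 2, b 2, c 2]]).det, ?_, ?_⟩
  · rw [Matrix.det_fin_three]
    simp only [Matrix.of_apply, Matrix.cons_val_zero, Matrix.cons_val_one, Matrix.cons_val]
    repeat' first
      | apply R.add_mem
      | apply R.sub_mem
      | apply R.mul_mem
      | exact ha _
      | exact hb _
      | exact hc _
  · intro D
    rw [wedge3, gen3, Matrix.det_fin_three, Matrix.det_fin_three, Matrix.det_fin_three]
    simp only [Matrix.of_apply, Matrix.cons_val_zero, Matrix.cons_val_one, Matrix.cons_val, e]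
    ring

theorem gen3_eq_wedge3 (d : EllData K) (α β : K) (D : Fin 3 → Derivation ℂ K K) :
    gen3 d α β D = ((d.x + (d.x - d.w ^ 2)) / 2) * wedge3 ![d.w, α, β] D -
      (d.w ^ 3 * (d.x - d.w ^ 2) / 4) * wedge3 ![d.x, α, β] D := by
  rw [wedge3, wedge3, gen3, Matrix.det_fin_three, Matrix.det_fin_three, Matrix.det_fin_three]
  simp only [Matrix.of_apply, Matrix.cons_val_zero, Matrix.cons_val_one, Matrix.cons_val, del_eq]
  ring

/-- the form `dx ∧ d(p/(xw)) ∧ dq` -/
theorem wedge3_pq (d : EllData K) (D : Fin 3 → Derivation ℂ K K) :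
    wedge3 ![d.x, d.p / (d.x * d.w), d.q] D = gen3 d d.p d.q D := by
  have h1 := d.x_ne
  have h2 := d.w_ne
  have h12 := mul_ne_zero h1 h2
  have h3 := d.two_ne
  have hw : ∀ D : Derivation ℂ K K, D d.w = ((d.x + (d.x - d.w ^ 2)) / (2 * (d.x * d.w))) * D d.x := by
    intro D
    rw [D_w, del]; field_simp
  have e : ∀ D : Derivation ℂ K K, D (d.p / (d.x * d.w)) = D d.p / (d.x * d.w) +
      (- d.p * (d.w + d.x * ((d.x + (d.x - d.w ^ 2)) / (2 * (d.x * d.w)))) / (d.x * d.w) ^ 2)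
        * D d.x := by
    intro D
    rw [D_div D h12, D_mul, hw]
    ring
  rw [wedge3, gen3, Matrix.det_fin_three, Matrix.det_fin_three]
  simp only [Matrix.of_apply, Matrix.cons_val_zero, Matrix.cons_val_one, Matrix.cons_val, e, del]
  ring

theorem D_sign {α A : K} (hA : A ≠ 0) (h : α = A ∨ α = A⁻¹) :
    ∃ ε : K, (ε = 1 ∨ ε = -1) ∧ ∀ D : Derivation ℂ K K, D A / A = ε * (D α / α) := by
  rcases h with rfl | rfl
  · exact ⟨1, Or.inl rfl, fun D => by ring⟩
  · refine ⟨-1, Or.inr rfl, fun D => ?_⟩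
    rw [D_inv D hA]; field_simp

/-- the generator in terms of `p` and `q` -/
theorem gen3_pq (d : EllData K) {α β : K} (hα : α = d.A ∨ α = d.A⁻¹) (hβ : β = d.B ∨ β = d.B⁻¹) :
    ∃ ε : K, (ε = 1 ∨ ε = -1) ∧ ∀ D, gen3 d d.p d.q D =
      (-2 * ε * (d.p * d.q / (α * β))) * gen3 d α β D := by
  have h1 := d.x_ne
  have h2 := d.w_ne
  have hA := d.A_ne
  have hB := d.B_ne
  have hα0 : α ≠ 0 := by rcases hα with rfl | rfl <;> simp [hA]
  have hβ0 : β ≠ 0 := by rcases hβ with rfl | rfl <;> simp [hB]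
  obtain ⟨ε, hε, eA⟩ := D_sign hA hα
  obtain ⟨δ, hδ, eB⟩ := D_sign hB hβ
  refine ⟨ε * δ, ?_, fun D => ?_⟩
  · rcases hε with rfl | rfl <;> rcases hδ with rfl | rfl <;> simp
  · have ep : ∀ D : Derivation ℂ K K, D d.p = d.p * (D d.A / d.A + D d.B / d.B -
        d.w * del d D) := by
      intro D
      rw [EllData.p, D_div D h1, D_mul, D_x]
      field_simp
      ring
    have eq : ∀ D : Derivation ℂ K K, D d.q = d.q * (D d.A / d.A - D d.B / d.B) := by
      intro D
      rw [EllData.q, D_div D hB]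
      field_simp
    rw [gen3, gen3, Matrix.det_fin_three, Matrix.det_fin_three]
    simp only [Matrix.of_apply, Matrix.cons_val_zero, Matrix.cons_val_one, Matrix.cons_val, ep, eq,
      eA, eB]
    field_simp
    ring

theorem gen3_swap (d : EllData K) (a b : K) (D : Fin 3 → Derivation ℂ K K) :
    gen3 d.swap a b D = gen3 d a b D := by
  rw [gen3, gen3, Matrix.det_fin_three, Matrix.det_fin_three]
  simp only [Matrix.of_apply, Matrix.cons_val_zero, Matrix.cons_val_one, Matrix.cons_val, del_swap]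

/-- there are derivations with nonzero determinant -/
theorem gen3_ne (d : EllData K) : ∃ D, gen3 d d.A d.B D ≠ 0 := by
  obtain ⟨φ, hφ⟩ := J27300.auy_phi ![d.w, d.A, d.B] d.indep (J27300.auy_alg d)
  have h3 := d.two_ne
  refine ⟨fun i => (φ i).compDer (KaehlerDifferential.D ℂ K), ?_⟩
  have e0 : ∀ i, ((φ i).compDer (KaehlerDifferential.D ℂ K)) d.w = if i = 0 then 1 else 0 :=
    fun i => hφ i 0
  have e1 : ∀ i, ((φ i).compDer (KaehlerDifferential.D ℂ K)) d.A = if i = 1 then 1 else 0 :=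
    fun i => hφ i 1
  have e2 : ∀ i, ((φ i).compDer (KaehlerDifferential.D ℂ K)) d.B = if i = 2 then 1 else 0 :=
    fun i => hφ i 2
  intro h
  rw [gen3, Matrix.det_fin_three] at h
  simp only [Matrix.of_apply, Matrix.cons_val_zero, Matrix.cons_val_one, Matrix.cons_val, e1, e2] at h
  simp at h
  have h4 := D_w d ((φ 0).compDer (KaehlerDifferential.D ℂ K))
  rw [e0, h] at h4
  simp at h4

end Pool.Agent.H709Reg
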