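import Pool.Agent.H709Reg.Setup

open Pool.Agent.Helper449.ZM Pool.Agent.H709Reg

open scoped KaehlerDifferential

namespace Pool.Agent.H709Reg.J27298



variable {K : Type} [Field K] [Algebra ℂ K]

open Polynomial in
theorem fse_sq (a b : Polynomial ℂ) (h : b ^ 2 + X ^ 2 * a * b - a ^ 2 = 0) : a = 0 := by
  by_contra ha
  have h1 : (2 * b + X ^ 2 * a) ^ 2 = a ^ 2 * (X ^ 4 + 4) := by linear_combination 4 * h
  have h2 : a ∣ 2 * b + X ^ 2 * a := by
    apply (IsIntegrallyClosed.pow_dvd_pow_iff (two_ne_zero)).mp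
    rw [h1]
    exact dvd_mul_right _ _
  obtain ⟨e, he⟩ := h2
  rw [he, mul_pow] at h1
  have h3 : e ^ 2 = X ^ 4 + 4 := mul_left_cancel₀ (pow_ne_zero 2 ha) h1
  have h4 : (e - X ^ 2) * (e + X ^ 2) = C 4 := by
    have : (C 4 : Polynomial ℂ) = 4 := map_ofNat C 4
    rw [this]
    linear_combination h3
  have hu : IsUnit ((e - X ^ 2) * (e + X ^ 2)) := by
    rw [h4, isUnit_C]
    exact isUnit_iff_ne_zero.mpr (by norm_num)
  have hd1 := natDegree_eq_zero_of_isUnit (isUnit_of_mul_isUnit_left hu)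
  have hd2 := natDegree_eq_zero_of_isUnit (isUnit_of_mul_isUnit_right hu)
  have h5 : (C 2 * X ^ 2 : Polynomial ℂ) = (e + X ^ 2) - (e - X ^ 2) := by
    have : (C 2 : Polynomial ℂ) = 2 := map_ofNat C 2
    rw [this]
    ring
  have h6 : (C 2 * X ^ 2 : Polynomial ℂ).natDegree = 2 := natDegree_C_mul_X_pow 2 2 (by norm_num)
  have h7 := natDegree_sub_le (e + X ^ 2) (e - X ^ 2)
  rw [← h5, h6, hd1, hd2] at h7
  simp at h7

open MvPolynomial in
theorem fse_red (p : MvPolynomial (Fin 2) ℂ) : ∃ a b : Polynomial ℂ,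
    (X 0 ^ 2 - X 1 ^ 2 * X 0 - 1 : MvPolynomial (Fin 2) ℂ) ∣
      p - (Polynomial.aeval (X 1 : MvPolynomial (Fin 2) ℂ) a * X 0 +
        Polynomial.aeval (X 1 : MvPolynomial (Fin 2) ℂ) b) := by
  induction p using MvPolynomial.induction_on with
  | C c =>
    refine ⟨0, Polynomial.C c, ?_⟩
    rw [map_zero, Polynomial.aeval_C, zero_mul, zero_add]
    have : algebraMap ℂ (MvPolynomial (Fin 2) ℂ) c = C c := rfl
    rw [this, sub_self]
    exact dvd_zero _
  | add p q hp hq =>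
    obtain ⟨a, b, hp⟩ := hp
    obtain ⟨a', b', hq⟩ := hq
    refine ⟨a + a', b + b', ?_⟩
    have := dvd_add hp hq
    rw [map_add, map_add]
    convert this using 1
    ring
  | mul_X p i hp =>
    obtain ⟨a, b, hp⟩ := hp
    fin_cases i
    · refine ⟨a * Polynomial.X ^ 2 + b, a, ?_⟩
      have := dvd_add (dvd_mul_of_dvd_left hp (X 0))
        (dvd_mul_left (X 0 ^ 2 - X 1 ^ 2 * X 0 - 1 : MvPolynomial (Fin 2) ℂ)
          (Polynomial.aeval (X 1 : MvPolynomial (Fin 2) ℂ) a))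
      rw [map_add, map_mul, map_pow, Polynomial.aeval_X]
      convert this using 1
      simp only [Fin.zero_eta]
      ring
    · refine ⟨a * Polynomial.X, b * Polynomial.X, ?_⟩
      have := dvd_mul_of_dvd_left hp (X 1)
      rw [map_mul, map_mul, Polynomial.aeval_X]
      convert this using 1
      simp only [Fin.mk_one]
      ring

theorem fse_lift {B : Type} [CommRing B] (X W e j : B) (he : 8 * e = 1)
    (hj : X ^ 2 - W ^ 2 * X - 1 = j) (hj2 : j * j = 0) :
    (X - 2 * e * (2 * X - W ^ 2) * j) ^ 2 -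
      (W - e * W ^ 3 * (X - W ^ 2) * j) ^ 2 * (X - 2 * e * (2 * X - W ^ 2) * j) - 1 = 0 := by
  have hu : (2 * e * (2 * X - W ^ 2)) * (2 * X - W ^ 2) - 2 * W * X * (e * W ^ 3 * (X - W ^ 2))
      = 1 + j * (1 - 2 * e * W ^ 4) := by
    linear_combination (X ^ 2 - W ^ 2 * X) * he + (1 - 2 * e * W ^ 4) * hj
  linear_combination hj - j * hu + ((2 * e * (2 * X - W ^ 2)) ^ 2 -
    2 * W * (e * W ^ 3 * (X - W ^ 2)) * (2 * e * (2 * X - W ^ 2)) -
    (e * W ^ 3 * (X - W ^ 2)) ^ 2 * X + (e * W ^ 3 * (X - W ^ 2)) ^ 2 *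
    (2 * e * (2 * X - W ^ 2)) * j - (1 - 2 * e * W ^ 4)) * hj2

theorem formallySmooth_ell (d : EllData K) :
    Algebra.FormallySmooth ℂ (Algebra.adjoin ℂ {d.x, d.w} : Subalgebra ℂ K) := by
  classical
  have htr : Transcendental ℂ d.w := d.indep.transcendental 0
  have htr' : ∀ p : Polynomial ℂ, Polynomial.aeval d.w p = 0 → p = 0 := by
    intro p hp
    by_contra hne
    exact htr ⟨p, hne, hp⟩
  have hinj : ∀ a b : Polynomial ℂ,
      Polynomial.aeval d.w a * d.x + Polynomial.aeval d.w b = 0 → a = 0 ∧ b = 0 := by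
    intro a b hab
    have ha : a = 0 := by
      apply fse_sq a b
      apply htr'
      simp only [map_sub, map_add, map_mul, map_pow, Polynomial.aeval_X]
      linear_combination (Polynomial.aeval d.w b - Polynomial.aeval d.w a * d.x +
        d.w ^ 2 * Polynomial.aeval d.w a) * hab + (Polynomial.aeval d.w a) ^ 2 * d.rel
    refine ⟨ha, ?_⟩
    rw [ha, map_zero, zero_mul, zero_add] at hab
    exact htr' b hab
  have hker : ∀ p : MvPolynomial (Fin 2) ℂ, MvPolynomial.aeval ![d.x, d.w] p = 0 →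
      (MvPolynomial.X 0 ^ 2 - MvPolynomial.X 1 ^ 2 * MvPolynomial.X 0 - 1 :
        MvPolynomial (Fin 2) ℂ) ∣ p := by
    intro p hp
    obtain ⟨a, b, c, hc⟩ := fse_red p
    have h1 := congrArg (MvPolynomial.aeval ![d.x, d.w]) hc
    have hax : ∀ q : Polynomial ℂ, MvPolynomial.aeval ![d.x, d.w]
        (Polynomial.aeval (MvPolynomial.X 1 : MvPolynomial (Fin 2) ℂ) q) =
        Polynomial.aeval d.w q := by
      intro q
      rw [← Polynomial.aeval_algHom_apply]
      congr 1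
      simp
    have hFz : MvPolynomial.aeval ![d.x, d.w] (MvPolynomial.X 0 ^ 2 -
        MvPolynomial.X 1 ^ 2 * MvPolynomial.X 0 - 1 : MvPolynomial (Fin 2) ℂ) = 0 := by
      simp only [map_sub, map_mul, map_pow, map_one, MvPolynomial.aeval_X, Matrix.cons_val_zero,
        Matrix.cons_val_one, Matrix.cons_val_fin_one]
      exact d.rel
    rw [map_mul, hFz, zero_mul, map_sub, hp, map_add, map_mul, hax, hax, MvPolynomial.aeval_X,
      zero_sub, neg_eq_zero] at h1
    obtain ⟨ha, hb⟩ := hinj a b h1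
    rw [ha, hb, map_zero, zero_mul, zero_add, sub_zero] at hc
    exact ⟨c, hc⟩
  have hx : d.x ∈ Algebra.adjoin ℂ {d.x, d.w} := Algebra.subset_adjoin (by simp)
  have hw : d.w ∈ Algebra.adjoin ℂ {d.x, d.w} := Algebra.subset_adjoin (by simp)
  set E0 : Subalgebra ℂ K := Algebra.adjoin ℂ {d.x, d.w} with hE0
  let xE : E0 := ⟨d.x, hx⟩
  let wE : E0 := ⟨d.w, hw⟩
  let φ : MvPolynomial (Fin 2) ℂ →ₐ[ℂ] E0 := MvPolynomial.aeval ![xE, wE]
  have hφ0 : ∀ p, (φ p : K) = MvPolynomial.aeval ![d.x, d.w] p := by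
    intro p
    have h1 : E0.val.comp φ = MvPolynomial.aeval ![d.x, d.w] := by
      apply MvPolynomial.algHom_ext
      intro i
      fin_cases i
      · simp [φ, xE]
      · simp [φ, wE]
    exact congrArg (fun f => f p) h1
  have hsurj : Function.Surjective φ := by
    rintro ⟨z, hz⟩
    have h1 : Algebra.adjoin ℂ {d.x, d.w} = (MvPolynomial.aeval ![d.x, d.w] :
        MvPolynomial (Fin 2) ℂ →ₐ[ℂ] K).range := by
      rw [← Algebra.adjoin_range_eq_range_aeval]
      congr 1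
      simp only [Matrix.range_cons, Matrix.range_empty, Set.union_empty]
      rfl
    rw [hE0, h1] at hz
    obtain ⟨p, hp⟩ := hz
    exact ⟨p, Subtype.ext ((hφ0 p).trans hp)⟩
  have hrelE : xE ^ 2 - wE ^ 2 * xE - 1 = 0 := Subtype.ext d.rel
  apply Algebra.FormallySmooth.of_comp_surjective
  intro B _ _ I hI g
  obtain ⟨xt, hxt⟩ := Ideal.Quotient.mk_surjective (g xE)
  obtain ⟨wt, hwt⟩ := Ideal.Quotient.mk_surjective (g wE)
  set j : B := xt ^ 2 - wt ^ 2 * xt - 1 with hj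
  have hjI : j ∈ I := by
    rw [← Ideal.Quotient.eq_zero_iff_mem, hj, map_sub, map_sub, map_mul, map_pow, map_pow, map_one,
      hxt, hwt, ← map_pow, ← map_pow, ← map_mul, ← map_sub, ← map_one g, ← map_sub, hrelE, map_zero]
  have hj2 : j * j = 0 := by
    have : j * j ∈ I ^ 2 := by
      rw [pow_two]
      exact Ideal.mul_mem_mul hjI hjI
    rw [hI] at this
    exact this
  set e : B := algebraMap ℂ B (1 / 8) with he
  have he8 : 8 * e = 1 := by
    have h8 : (8 : B) = algebraMap ℂ B 8 := (map_ofNat (algebraMap ℂ B) 8).symm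
    rw [h8, he, ← map_mul, mul_one_div_cancel (by norm_num), map_one]
  have hF := fse_lift xt wt e j he8 hj.symm hj2
  set x' : B := xt - 2 * e * (2 * xt - wt ^ 2) * j with hx'
  set w' : B := wt - e * wt ^ 3 * (xt - wt ^ 2) * j with hw'
  let ψ : MvPolynomial (Fin 2) ℂ →ₐ[ℂ] B := MvPolynomial.aeval ![x', w']
  have hψ : ∀ p : MvPolynomial (Fin 2) ℂ, p ∈ RingHom.ker φ → ψ p = 0 := by
    intro p hp
    rw [RingHom.mem_ker] at hp
    have h1 : MvPolynomial.aeval ![d.x, d.w] p = 0 := by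
      rw [← hφ0 p, hp]
      rfl
    obtain ⟨c, hc⟩ := hker p h1
    rw [hc, map_mul]
    have : ψ (MvPolynomial.X 0 ^ 2 - MvPolynomial.X 1 ^ 2 * MvPolynomial.X 0 - 1) = 0 := by
      simp only [ψ, map_sub, map_mul, map_pow, map_one, MvPolynomial.aeval_X, Matrix.cons_val_zero,
        Matrix.cons_val_one, Matrix.cons_val_fin_one]
      exact hF
    rw [this, zero_mul]
  let eq := Ideal.quotientKerAlgEquivOfSurjective hsurj
  refine ⟨(Ideal.Quotient.liftₐ (RingHom.ker φ) ψ hψ).comp eq.symm.toAlgHom, ?_⟩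
  have hcomp : (Ideal.Quotient.mkₐ ℂ I).comp ψ = g.comp φ := by
    apply MvPolynomial.algHom_ext
    intro i
    have hIj : (Ideal.Quotient.mk I) j = 0 := Ideal.Quotient.eq_zero_iff_mem.mpr hjI
    fin_cases i
    · simp only [Fin.zero_eta, AlgHom.comp_apply, ψ, φ, MvPolynomial.aeval_X, Matrix.cons_val_zero]
      rw [Ideal.Quotient.mkₐ_eq_mk, hx', map_sub, map_mul, hIj, mul_zero, sub_zero, hxt]
    · simp only [Fin.mk_one, AlgHom.comp_apply, ψ, φ, MvPolynomial.aeval_X, Matrix.cons_val_one,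
        Matrix.cons_val_fin_one]
      rw [Ideal.Quotient.mkₐ_eq_mk, hw', map_sub, map_mul, hIj, mul_zero, sub_zero, hwt]
  apply AlgHom.ext
  intro z
  obtain ⟨p, rfl⟩ := hsurj z
  have h1 : eq.symm (φ p) = Ideal.Quotient.mk _ p := by
    rw [AlgEquiv.symm_apply_eq]
    rfl
  show Ideal.Quotient.mkₐ ℂ I ((Ideal.Quotient.liftₐ (RingHom.ker φ) ψ hψ) (eq.symm (φ p))) = g (φ p)
  rw [h1]
  exact congrArg (fun f => f p) hcomp

end Pool.Agent.H709Reg.J27298
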