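import Pool.Agent.H709Reg.Setup

open Pool.Agent.Helper449.ZM Pool.Agent.H709Reg

open scoped KaehlerDifferential

namespace Pool.Agent.H709Reg.J27299



variable {K : Type} [Field K] [Algebra ℂ K]

theorem fs_update {ι : Type} [DecidableEq ι] (x : ι → K) (hx : AlgebraicIndependent ℂ x) (i : ι)
    (c : K) (hc : c = x i ∨ c = (x i)⁻¹) : AlgebraicIndependent ℂ (Function.update x i c) := by
  rw [AlgebraicIndependent.iff_transcendental_adjoin_image i] at hx ⊢
  have h1 : (fun j : {j // j ≠ i} => Function.update x i c j) = fun j : {j // j ≠ i} => x j := by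
    funext j
    rw [Function.update_of_ne j.2]
  have h2 : Function.update x i c '' {i}ᶜ = x '' {i}ᶜ := by
    refine Set.image_congr fun j hj => ?_
    rw [Function.update_of_ne hj]
  rw [h1, h2, Function.update_self]
  refine ⟨hx.1, ?_⟩
  rcases hc with rfl | rfl
  · exact hx.2
  · intro h
    exact hx.2 (IsAlgebraic.inv_iff.1 h)

theorem fs_indep (d : EllData K) (α β : K) (hα : α = d.A ∨ α = d.A⁻¹) (hβ : β = d.B ∨ β = d.B⁻¹) :
    AlgebraicIndependent (Algebra.adjoin ℂ (Set.range ![d.w])) ![α, β] := by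
  have h1 := fs_update _ d.indep 1 α hα
  have h2 := fs_update _ h1 2 β (by
    rw [Function.update_of_ne (by decide)]
    exact hβ)
  have h3 : Function.update (Function.update ![d.w, d.A, d.B] 1 α) 2 β = ![d.w, α, β] := by
    funext i
    fin_cases i <;> simp [Function.update]
  rw [h3] at h2
  set f : Fin 2 ⊕ Fin 1 → Fin 3 := Sum.elim ![1, 2] ![0] with hf
  have hinj : Function.Injective f := by
    intro a b hab
    rcases a with a | a <;> rcases b with b | b <;> fin_cases a <;> fin_cases b <;>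
      simp_all
  have h4 := h2.comp f hinj
  have h5 : ![d.w, α, β] ∘ f = Sum.elim ![α, β] ![d.w] := by
    funext a
    rcases a with a | a <;> fin_cases a <;> simp [hf]
  rw [h5] at h4
  exact (AlgebraicIndependent.sumElim_iff.1 h4).2

theorem fs_integral (R0 : Subalgebra ℂ K) (w x : K) (hw : w ∈ R0)
    (hrel : x ^ 2 - w ^ 2 * x - 1 = 0) : IsIntegral R0 x := by
  obtain ⟨w', rfl⟩ : ∃ w' : R0, (w' : K) = w := ⟨⟨w, hw⟩, rfl⟩
  have hm : (Polynomial.X ^ 2 + (Polynomial.C (-(w' ^ 2)) * Polynomial.X +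
      Polynomial.C (-1)) : Polynomial R0).Monic := by
    refine Polynomial.monic_X_pow_add ?_
    refine lt_of_le_of_lt Polynomial.degree_linear_le ?_
    norm_num
  refine ⟨_, hm, ?_⟩
  rw [Polynomial.eval₂_add, Polynomial.eval₂_add, Polynomial.eval₂_mul, Polynomial.eval₂_pow,
    Polynomial.eval₂_X, Polynomial.eval₂_C, Polynomial.eval₂_C, map_neg, map_neg, map_pow, map_one]
  have h1 : algebraMap R0 K w' = (w' : K) := rfl
  rw [h1]
  linear_combination hrel

theorem fs_le_integral (R0 : Subalgebra ℂ K) (w x : K) (hw : w ∈ R0)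
    (hrel : x ^ 2 - w ^ 2 * x - 1 = 0) (z : K) (hz : z ∈ Algebra.adjoin ℂ {x, w}) :
    IsIntegral R0 z := by
  have hle : Algebra.adjoin ℂ {x, w} ≤ (integralClosure R0 K).restrictScalars ℂ := by
    refine Algebra.adjoin_le ?_
    rintro z (rfl | rfl)
    · exact fs_integral R0 w z hw hrel
    · exact isIntegral_algebraMap (R := R0) (x := (⟨z, hw⟩ : R0))
  exact hle hz

theorem fs_indep2 (d : EllData K) (α β : K) (hα : α = d.A ∨ α = d.A⁻¹)
    (hβ : β = d.B ∨ β = d.B⁻¹) :
    AlgebraicIndependent (Algebra.adjoin ℂ {d.x, d.w} : Subalgebra ℂ K) ![α, β] := by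
  have h1 := fs_indep d α β hα hβ
  have hwR : d.w ∈ Algebra.adjoin ℂ (Set.range ![d.w]) := Algebra.subset_adjoin ⟨0, rfl⟩
  have hint := fs_le_integral _ d.w d.x hwR d.rel
  have hle : Algebra.adjoin ℂ (Set.range ![d.w]) ≤
      (Algebra.adjoin ℂ {d.x, d.w} : Subalgebra ℂ K) := by
    refine Algebra.adjoin_le ?_
    rintro _ ⟨j, rfl⟩
    have hj : ![d.w] j = d.w := by fin_cases j; rfl
    rw [hj]
    exact Algebra.subset_adjoin (Set.mem_insert_of_mem _ rfl)
  generalize Algebra.adjoin ℂ (Set.range ![d.w]) = R0 at h1 hwR hint hle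
  generalize (Algebra.adjoin ℂ {d.x, d.w} : Subalgebra ℂ K) = E0 at hint hle ⊢
  let _ : Algebra R0 E0 := (Subalgebra.inclusion hle).toAlgebra
  have : IsScalarTower R0 E0 K := .of_algebraMap_eq fun x => rfl
  have : Algebra.IsIntegral R0 E0 := by
    refine ⟨fun z => ?_⟩
    rw [← isIntegral_algHom_iff (IsScalarTower.toAlgHom R0 E0 K) Subtype.val_injective]
    exact hint z z.2
  exact h1.extendScalars_of_isIntegral _

theorem fs_poly (d : EllData K)
    (hE : Algebra.FormallySmooth ℂ (Algebra.adjoin ℂ {d.x, d.w} : Subalgebra ℂ K))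
    (α β : K) (hα : α = d.A ∨ α = d.A⁻¹) (hβ : β = d.B ∨ β = d.B⁻¹) :
    Algebra.FormallySmooth ℂ (Algebra.adjoin ℂ {d.x, d.w, α, β} : Subalgebra ℂ K) := by
  have h1 := fs_indep2 d α β hα hβ
  set E0 := (Algebra.adjoin ℂ {d.x, d.w} : Subalgebra ℂ K) with hE0
  have : Algebra.FormallySmooth E0 (Algebra.adjoin E0 (Set.range ![α, β])) :=
    Algebra.FormallySmooth.of_equiv h1.aevalEquiv
  have h2 : Algebra.FormallySmooth ℂ (Algebra.adjoin E0 (Set.range ![α, β])) :=
    Algebra.FormallySmooth.comp ℂ E0 _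
  have h3 : (Algebra.adjoin E0 (Set.range ![α, β])).restrictScalars ℂ =
      (Algebra.adjoin ℂ {d.x, d.w, α, β} : Subalgebra ℂ K) := by
    rw [hE0, ← Algebra.adjoin_union_eq_adjoin_adjoin]
    congr 1
    ext z
    simp only [Set.mem_union, Set.mem_insert_iff, Set.mem_singleton_iff, Set.mem_range]
    constructor
    · rintro ((h | h) | ⟨j, hj⟩)
      · exact Or.inl h
      · exact Or.inr (Or.inl h)
      · fin_cases j
        · exact Or.inr (Or.inr (Or.inl hj.symm))
        · exact Or.inr (Or.inr (Or.inr hj.symm))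
    · rintro (h | h | h | h)
      · exact Or.inl (Or.inl h)
      · exact Or.inl (Or.inr h)
      · exact Or.inr ⟨0, h.symm⟩
      · exact Or.inr ⟨1, h.symm⟩
  have h4 : Algebra.FormallySmooth ℂ
      ((Algebra.adjoin E0 (Set.range ![α, β])).restrictScalars ℂ) := h2
  exact Algebra.FormallySmooth.of_equiv (Subalgebra.equivOfEq _ _ h3)

theorem formallySmooth_nice (d : EllData K)
    (hE : Algebra.FormallySmooth ℂ (Algebra.adjoin ℂ {d.x, d.w} : Subalgebra ℂ K))
    (α β : K) (hα : α = d.A ∨ α = d.A⁻¹) (hβ : β = d.B ∨ β = d.B⁻¹) (R : Subalgebra ℂ K)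
    (hR : IsLocOf (Algebra.adjoin ℂ {d.x, d.w, α, β}) R) : Algebra.FormallySmooth ℂ R := by
  have hS := fs_poly d hE α β hα hβ
  set S := (Algebra.adjoin ℂ {d.x, d.w, α, β} : Subalgebra ℂ K) with hSdef
  obtain ⟨hle, hloc⟩ := hR
  let : Algebra S R := (Subalgebra.inclusion hle).toAlgebra
  have : IsScalarTower ℂ S R := .of_algebraMap_eq fun x => rfl
  let M : Submonoid S :=
    { carrier := {s | (s : K) ≠ 0 ∧ (s : K)⁻¹ ∈ R}
      one_mem' := by
        refine ⟨?_, ?_⟩
        · simp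
        · simp [R.one_mem]
      mul_mem' := by
        rintro a b ⟨ha, ha'⟩ ⟨hb, hb'⟩
        refine ⟨?_, ?_⟩
        · push_cast
          exact mul_ne_zero ha hb
        · push_cast
          rw [mul_inv]
          exact R.mul_mem ha' hb' }
  have : IsLocalization M R := by
    refine ⟨?_, ?_, ?_⟩
    · rintro ⟨s, hs0, hs⟩
      refine IsUnit.of_mul_eq_one ⟨(s : K)⁻¹, hs⟩ ?_
      apply Subtype.ext
      show (s : K) * (s : K)⁻¹ = 1
      exact mul_inv_cancel₀ hs0
    · intro f
      obtain ⟨a, ha, s, hs, hs0, hsi, hf⟩ := hloc f.1 f.2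
      refine ⟨(⟨a, ha⟩, ⟨⟨s, hs⟩, hs0, hsi⟩), ?_⟩
      apply Subtype.ext
      show (f : K) * s = a
      rw [hf]
      field_simp
    · intro a b hab
      refine ⟨1, ?_⟩
      have h1 : (a : K) = b := congrArg (fun r : R => (r : K)) hab
      rw [Subtype.ext h1]
  have : Algebra.FormallySmooth S R := Algebra.FormallySmooth.of_isLocalization M
  exact Algebra.FormallySmooth.comp ℂ S R

end Pool.Agent.H709Reg.J27299
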