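import Pool.Agent.Helper449.ZM.Fan
import Pool.Agent.Helper449.ZM.Core2
import Pool.Agent.Helper449.ZM.J5

open MvPolynomial Pool.Agent.Helper449.ZM
open scoped KaehlerDifferential

namespace Pool.Agent.H709Reg

section

variable {L : Type} [Field L] [Algebra ℂ L]

/-- the four characters -/
def chiY (p q : L) : Fin 4 → L := ![p, q, p * q, p / q]

theorem chiY_ne {p q : L} (hp : p ≠ 0) (hq : q ≠ 0) (k : Fin 4) : chiY p q k ≠ 0 := by
  fin_cases k <;> simp [chiY, hp, hq]

theorem chiY_gen {p q : L} (h : IntermediateField.adjoin ℂ {p, q} = ⊤) :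
    IntermediateField.adjoin ℂ (Set.range (chiY p q)) = ⊤ := by
  refine gen_of_subset ?_ h
  rintro _ (rfl | rfl)
  · exact ⟨0, rfl⟩
  · exact ⟨1, rfl⟩

/-- The smooth projective toric surface with eight rays, `ℙ¹ × ℙ¹` blown up in four points: the
closure of the graph of `(p, q, pq, p/q)`. It is the minimal resolution of `(ℙ¹ × ℙ¹)/±`. -/
noncomputable def YVar (p q : L) (hp : p ≠ 0) (hq : q ≠ 0)
    (h : IntermediateField.adjoin ℂ {p, q} = ⊤) : ProjVar L :=
  prodVar (chiY p q) (chiY_ne hp hq) (chiY_gen h)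

variable {p q : L} {hp : p ≠ 0} {hq : q ≠ 0} {h : IntermediateField.adjoin ℂ {p, q} = ⊤}

/-- every local ring of `Y` is a localisation of `ℂ[u, v]` for one of eight pairs of monomials -/
theorem Y_nice {R : Subalgebra ℂ L} (hR : (YVar p q hp hq h).IsLocal R) :
    ∃ p' q', (p' = p ∨ p' = p⁻¹) ∧ (q' = q ∨ q' = q⁻¹) ∧
      (IsLocOf (Algebra.adjoin ℂ {p' / q', q'}) R ∨ IsLocOf (Algebra.adjoin ℂ {q' / p', p'}) R) := by
  have h0 := prodVar_mem_or hR 0
  have h1 := prodVar_mem_or hR 1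
  have h2 := prodVar_mem_or hR 2
  have h3 := prodVar_mem_or hR 3
  simp only [chiY, Matrix.cons_val] at h0 h1 h2 h3
  obtain ⟨p', hp', hpR⟩ : ∃ p', (p' = p ∨ p' = p⁻¹) ∧ p' ∈ R := by
    rcases h0 with h | h
    · exact ⟨_, Or.inl rfl, h⟩
    · exact ⟨_, Or.inr rfl, h⟩
  obtain ⟨q', hq', hqR⟩ : ∃ q', (q' = q ∨ q' = q⁻¹) ∧ q' ∈ R := by
    rcases h1 with h | h
    · exact ⟨_, Or.inl rfl, h⟩
    · exact ⟨_, Or.inr rfl, h⟩
  have hp0 : p' ≠ 0 := by rcases hp' with rfl | rfl <;> simp [hp]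
  have hq0 : q' ≠ 0 := by rcases hq' with rfl | rfl <;> simp [hq]
  have hr : p' / q' ∈ R ∨ q' / p' ∈ R := by
    rcases hp' with rfl | rfl <;> rcases hq' with rfl | rfl
    · rwa [inv_div] at h3
    · have e1 : p' / q⁻¹ = p' * q := by rw [div_inv_eq_mul]
      have e2 : q⁻¹ / p' = (p' * q)⁻¹ := by rw [mul_inv]; field_simp
      rw [e1, e2]; exact h2
    · have e1 : p⁻¹ / q' = (p * q')⁻¹ := by rw [mul_inv]; field_simp
      have e2 : q' / p⁻¹ = p * q' := by rw [div_inv_eq_mul, mul_comm]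
      rw [e1, e2]; exact h2.symm
    · have e1 : p⁻¹ / q⁻¹ = (p / q)⁻¹ := by rw [inv_div]; field_simp
      have e2 : q⁻¹ / p⁻¹ = p / q := by field_simp
      rw [e1, e2]; exact h3.symm
  refine ⟨p', q', hp', hq', ?_⟩
  -- the four characters are, up to inversion, monomials in the two coordinates
  have key : ∀ B : Subalgebra ℂ L, p' ∈ B → q' ∈ B → (p' / q' ∈ B ∨ q' / p' ∈ B) →
      ∀ k, chiY p q k ∈ B ∨ (chiY p q k)⁻¹ ∈ B := by
    intro B m1 m2 m3 k
    have m4 := B.mul_mem m1 m2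
    fin_cases k
    · change p ∈ B ∨ p⁻¹ ∈ B
      rcases hp' with rfl | rfl
      · exact Or.inl m1
      · exact Or.inr m1
    · change q ∈ B ∨ q⁻¹ ∈ B
      rcases hq' with rfl | rfl
      · exact Or.inl m2
      · exact Or.inr m2
    · change p * q ∈ B ∨ (p * q)⁻¹ ∈ B
      rcases hp' with rfl | rfl <;> rcases hq' with rfl | rfl
      · exact Or.inl m4
      · have e1 : p' / q⁻¹ = p' * q := by rw [div_inv_eq_mul]
        have e2 : q⁻¹ / p' = (p' * q)⁻¹ := by rw [mul_inv]; field_simp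
        rw [e1, e2] at m3; exact m3
      · have e1 : p⁻¹ / q' = (p * q')⁻¹ := by rw [mul_inv]; field_simp
        have e2 : q' / p⁻¹ = p * q' := by rw [div_inv_eq_mul, mul_comm]
        rw [e1, e2] at m3; exact m3.symm
      · right; rw [mul_inv]; exact m4
    · change p / q ∈ B ∨ (p / q)⁻¹ ∈ B
      rcases hp' with rfl | rfl <;> rcases hq' with rfl | rfl
      · rwa [inv_div]
      · left; rw [div_eq_mul_inv]; exact m4
      · right; rw [inv_div, div_eq_mul_inv, mul_comm]; exact m4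
      · have e1 : p⁻¹ / q⁻¹ = (p / q)⁻¹ := by rw [inv_div]; field_simp
        have e2 : q⁻¹ / p⁻¹ = p / q := by field_simp
        rw [e1, e2] at m3; exact m3.symm
  rcases hr with hr | hr
  · left
    refine prodVar_isLocOf hR (adj2_le hr hqR) (key _ ?_ ?_ ?_)
    · have := mul_mem (show p' / q' ∈ Algebra.adjoin ℂ {p' / q', q'} from
        Algebra.subset_adjoin (by simp)) (show q' ∈ Algebra.adjoin ℂ {p' / q', q'} from
        Algebra.subset_adjoin (by simp))
      rwa [div_mul_cancel₀ _ hq0] at this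
    · exact Algebra.subset_adjoin (by simp)
    · exact Or.inl (Algebra.subset_adjoin (by simp))
  · right
    refine prodVar_isLocOf hR (adj2_le hr hpR) (key _ ?_ ?_ ?_)
    · exact Algebra.subset_adjoin (by simp)
    · have := mul_mem (show q' / p' ∈ Algebra.adjoin ℂ {q' / p', p'} from
        Algebra.subset_adjoin (by simp)) (show p' ∈ Algebra.adjoin ℂ {q' / p', p'} from
        Algebra.subset_adjoin (by simp))
      rwa [div_mul_cancel₀ _ hp0] at this
    · exact Or.inr (Algebra.subset_adjoin (by simp))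

end

section smooth

variable {L : Type} [Field L] [Algebra ℂ L] [Algebra (MvPolynomial (Fin 2) ℂ) L]
  [IsScalarTower ℂ (MvPolynomial (Fin 2) ℂ) L] [IsFractionRing (MvPolynomial (Fin 2) ℂ) L]
variable {p q : L} {hp : p ≠ 0} {hq : q ≠ 0} {h : IntermediateField.adjoin ℂ {p, q} = ⊤}

theorem Y_smooth : (YVar p q hp hq h).Smooth := by
  intro R hR
  obtain ⟨p', q', hp', hq', hloc⟩ := Y_nice hR
  have hp0 : p' ≠ 0 := by rcases hp' with rfl | rfl <;> simp [hp]
  have hq0 : q' ≠ 0 := by rcases hq' with rfl | rfl <;> simp [hq]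
  have key : ∀ u v : L, p' ∈ IntermediateField.adjoin ℂ {u, v} →
      q' ∈ IntermediateField.adjoin ℂ {u, v} → IsLocOf (Algebra.adjoin ℂ {u, v}) R →
      Algebra.FormallySmooth ℂ R := by
    intro u v m1 m2 huv
    refine J5.formallySmooth_of_isLocOf u v
      (J5.algebraicIndependent_of_adjoin_eq_top u v ?_) R huv
    rw [eq_top_iff, ← h]
    refine IntermediateField.adjoin_le_iff.2 ?_
    rintro _ (rfl | rfl)
    · rcases hp' with rfl | rfl
      · exact m1
      · have := inv_mem m1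
        rwa [inv_inv] at this
    · rcases hq' with rfl | rfl
      · exact m2
      · have := inv_mem m2
        rwa [inv_inv] at this
  rcases hloc with hloc | hloc
  · have m1 : p' / q' ∈ IntermediateField.adjoin ℂ {p' / q', q'} :=
      IntermediateField.subset_adjoin _ _ (by simp)
    have m2 : q' ∈ IntermediateField.adjoin ℂ {p' / q', q'} :=
      IntermediateField.subset_adjoin _ _ (by simp)
    refine key _ _ ?_ m2 hloc
    have := mul_mem m1 m2
    rwa [div_mul_cancel₀ _ hq0] at this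
  · have m1 : q' / p' ∈ IntermediateField.adjoin ℂ {q' / p', p'} :=
      IntermediateField.subset_adjoin _ _ (by simp)
    have m2 : p' ∈ IntermediateField.adjoin ℂ {q' / p', p'} :=
      IntermediateField.subset_adjoin _ _ (by simp)
    refine key _ _ m2 ?_ hloc
    have := mul_mem m1 m2
    rwa [div_mul_cancel₀ _ hp0] at this

end smooth

section canonical

variable {L : Type} [Field L] [Algebra ℂ L] {p q : L}

/-- the rational 2-form `dlog p ∧ dlog q` -/
noncomputable def eta (p q : L) : Form 2 L := W (p⁻¹ • dd p) (q⁻¹ • dd q)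

theorem logD_sign {ξ υ : Ω[L⁄ℂ]} {u u' : L} {a b : ℤ} (hu : u ≠ 0) (h : LogD ξ υ u a b)
    (h' : u' = u ∨ u' = u⁻¹) : ∃ s : ℤ, (s = 1 ∨ s = -1) ∧ LogD ξ υ u' (s * a) (s * b) := by
  rcases h' with rfl | rfl
  · exact ⟨1, Or.inl rfl, by simpa using h⟩
  · exact ⟨-1, Or.inr rfl, by simpa using h.inv hu⟩

theorem generates_eta (hp : p ≠ 0) (hq : q ≠ 0) {p' q' : L} (hp' : p' = p ∨ p' = p⁻¹)
    (hq' : q' = q ∨ q' = q⁻¹) {R : Subalgebra ℂ L} :
    (IsLocOf (Algebra.adjoin ℂ {p' / q', q'}) R → Generates R (p' • eta p q)) ∧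
    (IsLocOf (Algebra.adjoin ℂ {q' / p', p'}) R → Generates R (q' • eta p q)) := by
  have hp0 : p' ≠ 0 := by rcases hp' with rfl | rfl <;> simp [hp]
  have hq0 : q' ≠ 0 := by rcases hq' with rfl | rfl <;> simp [hq]
  have lp : LogD (p⁻¹ • dd p) (q⁻¹ • dd q) p 1 0 := by
    rw [LogD]; simp [smul_smul, hp]
  have lq : LogD (p⁻¹ • dd p) (q⁻¹ • dd q) q 0 1 := by
    rw [LogD]; simp [smul_smul, hq]
  obtain ⟨s, hs, l1⟩ := logD_sign hp lp hp'
  obtain ⟨t, ht, l2⟩ := logD_sign hq lq hq'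
  have aux : ∀ {c : ℤ}, (c = 1 ∨ c = -1) → ((c : L) ∈ R ∧ ((c : L))⁻¹ ∈ R ∧ (c : L) ≠ 0) := by
    rintro c (rfl | rfl)
    · simp [R.one_mem]
    · refine ⟨?_, ?_, ?_⟩
      · simpa using R.neg_mem R.one_mem
      · simpa using R.neg_mem R.one_mem
      · simp
  have fin : ∀ (f : L) (c : ℤ), (c = 1 ∨ c = -1) →
      Generates R ((f * (c : L)) • eta p q) → Generates R (f • eta p q) := by
    intro f c hc hg
    obtain ⟨a1, a2, a3⟩ := aux hc
    have := hg.smul a2 (by rwa [inv_inv]) (inv_ne_zero a3)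
    rw [smul_smul] at this
    have e : ((c : L))⁻¹ * (f * c) = f := by field_simp
    rwa [e] at this
  refine ⟨fun h => ?_, fun h => ?_⟩
  · have g := generates_of_isLocOf h
    have lr := l1.mul (l2.inv hq0)
    rw [← div_eq_mul_inv] at lr
    rw [lr.W l2] at g
    have e : p' / q' * q' = p' := div_mul_cancel₀ _ hq0
    rw [e] at g
    refine fin p' _ ?_ g
    rcases hs with rfl | rfl <;> rcases ht with rfl | rfl <;> simp
  · have g := generates_of_isLocOf h
    have lr := l2.mul (l1.inv hp0)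
    rw [← div_eq_mul_inv] at lr
    rw [lr.W l1] at g
    have e : q' / p' * p' = q' := div_mul_cancel₀ _ hp0
    rw [e] at g
    refine fin q' _ ?_ g
    rcases hs with rfl | rfl <;> rcases ht with rfl | rfl <;> simp

theorem wedge_pq (hp : p ≠ 0) (hq : q ≠ 0) : wedge ![p, q] = (p * q) • eta p q := by
  rw [wedge_eq_W, eta, W_smul_left, W_smul_right, smul_smul, smul_smul]
  have : p * q * (p⁻¹ * q⁻¹) = 1 := by field_simp
  rw [← mul_assoc] at this
  rw [mul_assoc (p * q), ← mul_assoc, this, one_smul]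
  rfl

end canonical

end Pool.Agent.H709Reg
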