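import Pool.Agent.H709Reg.XVar
import Pool.Agent.H709Reg.J27298
import Pool.Agent.H709Reg.J27299
import Pool.Agent.H709Reg.Forms3
import Pool.Agent.H709Reg.YVar

open MvPolynomial Pool.Agent.Helper449.ZM
open scoped KaehlerDifferential

namespace Pool.Agent.H709Reg

variable {K : Type} [Field K] [Algebra ℂ K]

theorem X_smooth (d : EllData K) : (XVar d).Smooth := by
  intro R hR
  obtain ⟨d', -, α, β, hα, hβ, hloc⟩ := X_nice d hR
  exact J27299.formallySmooth_nice d' (J27298.formallySmooth_ell d') α β hα hβ R hloc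

/-- the local generator as a form -/
noncomputable def genForm (d : EllData K) (α β : K) : Form 3 K := gen3 d α β

theorem genForm_swap (d : EllData K) (a b : K) : genForm d.swap a b = genForm d a b :=
  funext fun D => gen3_swap d a b D

theorem canonical_le (d : EllData K) {α β : K} {R : Subalgebra ℂ K}
    (hR : IsLocOf (Algebra.adjoin ℂ {d.x, d.w, α, β}) R) :
    canonicalModule 3 R ≤ Submodule.span R {genForm d α β} := by
  refine Submodule.span_le.2 ?_
  rintro _ ⟨r, hr, rfl⟩
  obtain ⟨t, ht, e⟩ := wedge3_eq d α β R hR r hr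
  have : (wedge r : Form 3 K) = (⟨t, ht⟩ : R) • genForm d α β := funext fun D => e D
  rw [this]
  exact Submodule.smul_mem _ _ (Submodule.subset_span rfl)

theorem genForm_mem (d : EllData K) {α β : K} {R : Subalgebra ℂ K} (hx : d.x ∈ R) (hw : d.w ∈ R)
    (hα : α ∈ R) (hβ : β ∈ R) : genForm d α β ∈ canonicalModule 3 R := by
  have m1 : (d.x + (d.x - d.w ^ 2)) / 2 ∈ R := by
    rw [div_eq_mul_inv]
    exact R.mul_mem (R.add_mem hx (R.sub_mem hx (R.pow_mem hw 2))) (halfR R)
  have m2 : d.w ^ 3 * (d.x - d.w ^ 2) / 4 ∈ R := by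
    rw [div_eq_mul_inv]
    exact R.mul_mem (R.mul_mem (R.pow_mem hw 3) (R.sub_mem hx (R.pow_mem hw 2))) (quarterR R)
  have e : genForm d α β = (⟨_, m1⟩ : R) • (wedge ![d.w, α, β] : Form 3 K) -
      (⟨_, m2⟩ : R) • (wedge ![d.x, α, β] : Form 3 K) :=
    funext fun D => gen3_eq_wedge3 d α β D
  have hg : ∀ z ∈ R, (wedge ![z, α, β] : Form 3 K) ∈ canonicalModule 3 R := by
    intro z hz
    refine Submodule.subset_span ⟨![z, α, β], fun i => ?_, rfl⟩
    fin_cases i
    · exact hz
    · exact hα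
    · exact hβ
  rw [e]
  exact Submodule.sub_mem _ (Submodule.smul_mem _ _ (hg _ hw)) (Submodule.smul_mem _ _ (hg _ hx))

theorem generates_gen (d : EllData K) {α β : K} {R : Subalgebra ℂ K}
    (hR : IsLocOf (Algebra.adjoin ℂ {d.x, d.w, α, β}) R) : Generates R (genForm d α β) := by
  apply le_antisymm
  · rw [Submodule.span_le, Set.singleton_subset_iff]
    exact genForm_mem d (hR.1 (Algebra.subset_adjoin (by simp)))
      (hR.1 (Algebra.subset_adjoin (by simp))) (hR.1 (Algebra.subset_adjoin (by simp)))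
      (hR.1 (Algebra.subset_adjoin (by simp)))
  · exact canonical_le d hR

theorem genForm_ne (d : EllData K) {α β : K} (hα : α = d.A ∨ α = d.A⁻¹)
    (hβ : β = d.B ∨ β = d.B⁻¹) : genForm d α β ≠ 0 := by
  obtain ⟨D, hD⟩ := gen3_ne d
  obtain ⟨ε, hε, e⟩ := gen3_pq d hα hβ
  obtain ⟨δ, hδ, e'⟩ := gen3_pq d (Or.inl rfl : d.A = d.A ∨ d.A = d.A⁻¹)
    (Or.inl rfl : d.B = d.B ∨ d.B = d.B⁻¹)
  intro h
  have h1 : gen3 d α β D = 0 := congrFun h D
  have h2 := e D
  rw [h1, mul_zero, e' D] at h2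
  have hδ0 : δ ≠ 0 := by rcases hδ with rfl | rfl <;> simp
  have h3 := d.two_ne
  have hA := d.A_ne
  have hB := d.B_ne
  have hx := d.x_ne
  have hp : d.p ≠ 0 := by rw [EllData.p]; exact div_ne_zero (mul_ne_zero hA hB) hx
  have hq : d.q ≠ 0 := by rw [EllData.q]; exact div_ne_zero hA hB
  rcases mul_eq_zero.1 h2 with h4 | h4
  · have : -2 * δ * (d.p * d.q / (d.A * d.B)) ≠ 0 :=
      mul_ne_zero (mul_ne_zero (neg_ne_zero.2 h3) hδ0)
        (div_ne_zero (mul_ne_zero hp hq) (mul_ne_zero hA hB))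
    exact this h4
  · exact hD h4

theorem p_ne (d : EllData K) : d.p ≠ 0 := by
  rw [EllData.p]; exact div_ne_zero (mul_ne_zero d.A_ne d.B_ne) d.x_ne

theorem q_ne (d : EllData K) : d.q ≠ 0 := by
  rw [EllData.q]; exact div_ne_zero d.A_ne d.B_ne

/-- `α` and `β` do not divide each other, unless one of them is invertible -/
theorem not_dvd (d : EllData K) {α β : K} (hα : α = d.A ∨ α = d.A⁻¹)
    (hβ : β = d.B ∨ β = d.B⁻¹) {R : Subalgebra ℂ K}
    (hR : IsLocOf (Algebra.adjoin ℂ {d.x, d.w, α, β}) R) {z : K} (hz : z ∈ R)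
    (hαβ : α = β * z ∨ β = α * z) : α⁻¹ ∈ R ∨ β⁻¹ ∈ R := by
  have mx : d.x ∈ R := hR.1 (Algebra.subset_adjoin (by simp))
  have mw : d.w ∈ R := hR.1 (Algebra.subset_adjoin (by simp))
  have mα : α ∈ R := hR.1 (Algebra.subset_adjoin (by simp))
  have mβ : β ∈ R := hR.1 (Algebra.subset_adjoin (by simp))
  have hgen := generates_gen d hR
  have hne := genForm_ne d hα hβ
  have fin : ∀ (g : Form 3 K) (c : K), g ∈ canonicalModule 3 R → genForm d α β = c • g →
      c⁻¹ ∈ R := by
    intro g c hg e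
    rw [← hgen] at hg
    obtain ⟨r, hr⟩ := Submodule.mem_span_singleton.1 hg
    rw [← hr] at e
    have e3 : genForm d α β = (c * (r : K)) • genForm d α β := by
      conv_lhs => rw [e]
      rw [mul_smul]
      rfl
    have e4 : c * (r : K) = 1 := eq_one_of_smul hne e3
    rw [← eq_inv_of_mul_eq_one_right e4]
    exact r.2
  rcases hαβ with h | h
  · right
    refine fin (genForm d z β) β (genForm_mem d mx mw hz mβ) (funext fun D => ?_)
    change gen3 d α β D = β * gen3 d z β D
    rw [gen3, gen3, Matrix.det_fin_three, Matrix.det_fin_three]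
    simp only [Matrix.of_apply, Matrix.cons_val_zero, Matrix.cons_val_one, Matrix.cons_val, h, D_mul]
    ring
  · left
    refine fin (genForm d α z) α (genForm_mem d mx mw mα hz) (funext fun D => ?_)
    change gen3 d α β D = α * gen3 d α z D
    rw [gen3, gen3, Matrix.det_fin_three, Matrix.det_fin_three]
    simp only [Matrix.of_apply, Matrix.cons_val_zero, Matrix.cons_val_one, Matrix.cons_val, h, D_mul]
    ring

end Pool.Agent.H709Reg
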