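import Pool.Agent.H709Reg.Almost
import Pool.Agent.H709Reg.XProps
import Pool.Agent.Helper449.ZM.NonEx

open MvPolynomial Pool.Agent.Helper449.ZM

namespace Pool.Agent.H709Reg

section units

variable {K : Type} [Field K] [Algebra ℂ K]

/-- `z` is a unit of `R` -/
def IsU (R : Subalgebra ℂ K) (z : K) : Prop := z ≠ 0 ∧ z ∈ R ∧ z⁻¹ ∈ R

theorem IsU.mul {R : Subalgebra ℂ K} {a b : K} (ha : IsU R a) (hb : IsU R b) : IsU R (a * b) :=
  ⟨mul_ne_zero ha.1 hb.1, R.mul_mem ha.2.1 hb.2.1, by rw [mul_inv]; exact R.mul_mem ha.2.2 hb.2.2⟩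

theorem IsU.inv {R : Subalgebra ℂ K} {a : K} (ha : IsU R a) : IsU R a⁻¹ :=
  ⟨inv_ne_zero ha.1, ha.2.2, by rw [inv_inv]; exact ha.2.1⟩

theorem IsU.div {R : Subalgebra ℂ K} {a b : K} (ha : IsU R a) (hb : IsU R b) : IsU R (a / b) := by
  rw [div_eq_mul_inv]; exact ha.mul hb.inv

theorem isU_x (d : EllData K) {R : Subalgebra ℂ K} (hx : d.x ∈ R) (hw : d.w ∈ R) : IsU R d.x :=
  ⟨d.x_ne, hx, by rw [d.x_inv]; exact R.sub_mem hx (R.pow_mem hw 2)⟩

theorem isU_sign {R : Subalgebra ℂ K} {a b : K} (h : b = a ∨ b = a⁻¹) : IsU R b ↔ IsU R a := by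
  rcases h with rfl | rfl
  · exact Iff.rfl
  · exact ⟨fun h => by simpa using h.inv, fun h => h.inv⟩

/-- if `u ∈ R` is `β` or `β⁻¹` up to a unit then `u / β` is a unit -/
theorem isU_div {R : Subalgebra ℂ K} {u β c : K} (hu : u ∈ R) (hβ : β ∈ R) (hβ0 : β ≠ 0)
    (hc : IsU R c) (h : u = β * c ∨ u = β⁻¹ * c) : IsU R (u / β) := by
  rcases h with rfl | rfl
  · rwa [mul_div_cancel_left₀ _ hβ0]
  · have m : β⁻¹ ∈ R := by
      have := R.mul_mem hu hc.2.2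
      rwa [mul_assoc, mul_inv_cancel₀ hc.1, mul_one] at this
    have hβU : IsU R β := ⟨hβ0, hβ, m⟩
    exact (hβU.inv.mul hc).div hβU

theorem A_sq (d : EllData K) : d.A ^ 2 = d.p * d.q * d.x := by
  have h1 := d.x_ne
  have h2 := d.B_ne
  rw [EllData.p, EllData.q]; field_simp

theorem B_sq (d : EllData K) : d.B ^ 2 = d.p * d.q⁻¹ * d.x := by
  have h1 := d.x_ne
  have h2 := d.B_ne
  have h3 := d.A_ne
  rw [EllData.p, EllData.q]; field_simp

/-- the signs -/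
theorem sign_cases {B' β u c : K} (hβ : β = B' ∨ β = B'⁻¹) {R : Subalgebra ℂ K} (hc : IsU R c)
    (hu : u = B' * c ∨ u = (B' * c)⁻¹) :
    ∃ c', IsU R c' ∧ (u = β * c' ∨ u = β⁻¹ * c') := by
  rcases hβ with rfl | rfl <;> rcases hu with rfl | rfl
  · exact ⟨c, hc, Or.inl rfl⟩
  · exact ⟨c⁻¹, hc.inv, Or.inr (by rw [mul_inv])⟩
  · exact ⟨c, hc, Or.inr (by rw [inv_inv])⟩
  · exact ⟨c⁻¹, hc.inv, Or.inl (by rw [mul_inv])⟩

end units

variable {K M : Type} [Field K] [Algebra ℂ K] [Field M] [Algebra ℂ M]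
  [Algebra (MvPolynomial (Fin 2) ℂ) M]
  [IsScalarTower ℂ (MvPolynomial (Fin 2) ℂ) M] [IsFractionRing (MvPolynomial (Fin 2) ℂ) M]

theorem almostHolomorphic (d : EllData K)
    (hP : am M (X 0) ≠ 0) (hQ : am M (X 1) ≠ 0)
    (h : IntermediateField.adjoin ℂ {am M (X 0), am M (X 1)} = ⊤)
    (φ : M →ₐ[ℂ] K) (hφ0 : φ (am M (X 0)) = d.p) (hφ1 : φ (am M (X 1)) = d.q) :
    AlmostHolomorphic (XVar d) (YVar (am M (X 0)) (am M (X 1)) hP hQ h) φ := by
  classical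
  set P := am M (X 0) with hPdef
  set Q := am M (X 1) with hQdef
  have hp0 := p_ne d
  have hq0 := q_ne d
  let U : Set (Subalgebra ℂ K) := {R | (XVar d).IsLocal R ∧ ∀ g ∈ ({d.p, d.p⁻¹, d.q, d.q⁻¹} : Finset K), g ∈ R}
  let V : Set (Subalgebra ℂ M) := {S | (YVar P Q hP hQ h).IsLocal S ∧
    ∀ g ∈ ({P, P⁻¹, Q, Q⁻¹} : Finset M), g ∈ S}
  have hmor : ∀ R ∈ U, ∃ S ∈ V, Dominates φ R S := by
    rintro R ⟨hR, hG⟩
    have m1 : d.p ∈ R := hG _ (by simp)
    have m2 : d.p⁻¹ ∈ R := hG _ (by simp)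
    have m3 : d.q ∈ R := hG _ (by simp)
    have m4 : d.q⁻¹ ∈ R := hG _ (by simp)
    have n1 : P ∈ R.comap φ := by change φ P ∈ R; rw [hφ0]; exact m1
    have n2 : P⁻¹ ∈ R.comap φ := by change φ P⁻¹ ∈ R; rw [map_inv₀, hφ0]; exact m2
    have n3 : Q ∈ R.comap φ := by change φ Q ∈ R; rw [hφ1]; exact m3
    have n4 : Q⁻¹ ∈ R.comap φ := by change φ Q⁻¹ ∈ R; rw [map_inv₀, hφ1]; exact m4
    obtain ⟨s, hs⟩ := exists_prodVar_chart_le (χ := chiY P Q) (h0 := chiY_ne hP hQ)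
      (hgen := chiY_gen h) (R := R.comap φ) (fun k => by
        fin_cases k
        · exact Or.inl n1
        · exact Or.inl n3
        · exact Or.inl ((R.comap φ).mul_mem n1 n3)
        · left
          change P / Q ∈ R.comap φ
          rw [div_eq_mul_inv]; exact (R.comap φ).mul_mem n1 n4)
    have hloc := localSub_comap φ (exists_of_isLocal _ hR).1
    have hS := isLocal_locAt (YVar P Q hP hQ h) (prodVar_x_ne s) hs hloc
    refine ⟨_, ⟨hS, ?_⟩, dominates_locAt φ hs⟩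
    have key : ∀ g : M, g ∈ R.comap φ → g⁻¹ ∈ R.comap φ →
        (g ∈ locAt ((YVar P Q hP hQ h).chart s) (R.comap φ) ∨
          g⁻¹ ∈ locAt ((YVar P Q hP hQ h).chart s) (R.comap φ)) →
        g ∈ locAt ((YVar P Q hP hQ h).chart s) (R.comap φ) ∧
          g⁻¹ ∈ locAt ((YVar P Q hP hQ h).chart s) (R.comap φ) := by
      intro g h1 h2 h3
      rcases h3 with h3 | h3
      · exact ⟨h3, inv_mem_locAt h3 h2⟩
      · have := inv_mem_locAt h3 (by rw [inv_inv]; exact h1)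
        rw [inv_inv] at this
        exact ⟨this, h3⟩
    have k1 := key P n1 n2 (prodVar_mem_or hS 0)
    have k2 := key Q n3 n4 (prodVar_mem_or hS 1)
    intro g hg
    simp only [Finset.mem_insert, Finset.mem_singleton] at hg
    rcases hg with rfl | rfl | rfl | rfl
    · exact k1.1
    · exact k1.2
    · exact k2.1
    · exact k2.2
  have hproper : ∀ W : ValuationSubring K, (∀ c : ℂ, algebraMap ℂ K c ∈ W) →
      (∃ S ∈ V, ValDominates φ W S) → ∃ R ∈ U, ValDominates (AlgHom.id ℂ K) W R := by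
    rintro W hW ⟨S, ⟨hS, hG⟩, hdom⟩
    have w1 : d.p ∈ W := by rw [← hφ0]; exact hdom.1 _ (hG _ (by simp))
    have w2 : d.p⁻¹ ∈ W := by rw [← hφ0, ← map_inv₀]; exact hdom.1 _ (hG _ (by simp))
    have w3 : d.q ∈ W := by rw [← hφ1]; exact hdom.1 _ (hG _ (by simp))
    have w4 : d.q⁻¹ ∈ W := by rw [← hφ1, ← map_inv₀]; exact hdom.1 _ (hG _ (by simp))
    obtain ⟨R, hR, hVR⟩ := exists_center (XVar d) W hW
    refine ⟨R, ⟨hR, ?_⟩, hVR⟩
    obtain ⟨d', hd, α, β, hα, hβ, hloc⟩ := X_nice d hR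
    have ep : d'.p = d.p := by rcases hd with rfl | rfl; exacts [rfl, swap_p d]
    have eq : d'.q = d.q := by rcases hd with rfl | rfl; exacts [rfl, swap_q d]
    have mx : d'.x ∈ R := hloc.1 (Algebra.subset_adjoin (by simp))
    have mw : d'.w ∈ R := hloc.1 (Algebra.subset_adjoin (by simp))
    have mα : α ∈ R := hloc.1 (Algebra.subset_adjoin (by simp))
    have mβ : β ∈ R := hloc.1 (Algebra.subset_adjoin (by simp))
    have ux := isU_x d' mx mw
    have hα0 : α ≠ 0 := by rcases hα with rfl | rfl <;> simp [d'.A_ne]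
    have hβ0 : β ≠ 0 := by rcases hβ with rfl | rfl <;> simp [d'.B_ne]
    have wx : d'.x ∈ W := hVR.1 _ mx
    have wx' : d'.x⁻¹ ∈ W := hVR.1 _ ux.2.2
    have key : ∀ γ C t : K, γ ∈ R → γ ≠ 0 → (γ = C ∨ γ = C⁻¹) → C ^ 2 = t * d'.x → t ∈ W →
        t⁻¹ ∈ W → IsU R γ := by
      intro γ C t hγ hγ0 hs hC ht ht'
      have hsq : (γ⁻¹) ^ 2 ∈ W := by
        rcases hs with rfl | rfl
        · rw [inv_pow, hC, mul_inv]; exact W.mul_mem _ _ ht' wx'
        · rw [inv_inv, hC]; exact W.mul_mem _ _ ht wx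
      have h1 : γ⁻¹ ∈ W := by
        have e : γ⁻¹ = γ * (γ⁻¹) ^ 2 := by field_simp
        rw [e]
        exact W.mul_mem _ _ (hVR.1 _ hγ) hsq
      exact ⟨hγ0, hγ, hVR.2 _ hγ h1⟩
    have uα := key α d'.A (d'.p * d'.q) mα hα0 hα (A_sq d')
      (by rw [ep, eq]; exact W.mul_mem _ _ w1 w3)
      (by rw [ep, eq, mul_inv]; exact W.mul_mem _ _ w2 w4)
    have uβ := key β d'.B (d'.p * d'.q⁻¹) mβ hβ0 hβ (B_sq d')
      (by rw [ep, eq]; exact W.mul_mem _ _ w1 w4)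
      (by rw [ep, eq, mul_inv, inv_inv]; exact W.mul_mem _ _ w2 w3)
    have uA : IsU R d'.A := (isU_sign hα).1 uα
    have uB : IsU R d'.B := (isU_sign hβ).1 uβ
    have up : IsU R d.p := by rw [← ep]; exact (uA.mul uB).div ux
    have uq : IsU R d.q := by rw [← eq]; exact uA.div uB
    intro g hg
    simp only [Finset.mem_insert, Finset.mem_singleton] at hg
    rcases hg with rfl | rfl | rfl | rfl
    · exact up.2.1
    · exact up.2.2
    · exact uq.2.1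
    · exact uq.2.2
  refine ⟨U, V, isNonemptyOpen_regular _ _, isNonemptyOpen_regular _ _, hmor, ?_, hproper⟩
  intro S hS
  obtain ⟨W, hW, hdom⟩ := exists_val φ (exists_of_isLocal _ hS.1).1
  obtain ⟨R, hR, hVR⟩ := hproper W hW ⟨S, hS, hdom⟩
  obtain ⟨S', hS', hdom'⟩ := hmor R hR
  have hval : ValDominates φ W S' :=
    ⟨fun f hf => hVR.1 _ (hdom'.1 f hf), fun f hf hf' =>
      hdom'.2 f hf (hVR.2 _ (hdom'.1 f hf) hf')⟩
  have e := eq_of_valDominates _ φ W hS.1 hS'.1 hdom hval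
  exact ⟨R, hR, by rw [e]; exact hdom'⟩

end Pool.Agent.H709Reg
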