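import Pool.Agent.H709Reg.XVar
import Pool.Agent.H709Reg.YVar

open MvPolynomial Pool.Agent.Helper449.ZM

namespace Pool.Agent.H709Reg

section general

variable {K L : Type} [Field K] [Algebra ℂ K] [Field L] [Algebra ℂ L]

/-- the local ring of the generic point -/
theorem isLocal_top (X : ProjVar K) : X.IsLocal ⊤ := by
  obtain ⟨i, hi⟩ := X.exists_ne
  have htop : LocalSub (⊤ : Subalgebra ℂ K) := localSub_of_val fun f => Or.inl trivial
  have h := isLocal_locAt X hi (R := ⊤) le_top htop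
  have e : locAt (X.chart i) ⊤ = ⊤ := by
    rw [eq_top_iff]
    intro f _
    obtain ⟨a, ha, s, hs, hs0, rfl⟩ := exists_div X h f
    rw [div_eq_mul_inv]
    exact (locAt _ _).mul_mem ha (inv_mem_locAt hs trivial)
  rwa [e] at h

/-- the set where finitely many rational functions are regular is open -/
theorem isNonemptyOpen_regular (X : ProjVar K) (G : Finset K) :
    X.IsNonemptyOpen {R | X.IsLocal R ∧ ∀ g ∈ G, g ∈ R} := by
  classical
  refine ⟨⟨⊤, isLocal_top X, fun g _ => trivial⟩, fun R hR => hR.1, ?_⟩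
  rintro R ⟨hR, hG⟩
  obtain ⟨-, i, hi, hloc⟩ := exists_of_isLocal X hR
  have h1 : ∀ g : K, ∃ s : K, g ∈ R → (s ∈ X.chart i ∧ s ≠ 0 ∧ s⁻¹ ∈ R ∧ g * s ∈ X.chart i) := by
    intro g
    by_cases hg : g ∈ R
    · obtain ⟨a, ha, s, hs, hs0, hsR, e⟩ := hloc.2 g hg
      refine ⟨s, fun _ => ⟨hs, hs0, hsR, ?_⟩⟩
      rw [e, div_mul_cancel₀ _ hs0]; exact ha
    · exact ⟨0, fun h => absurd h hg⟩
  choose s hs using h1
  refine ⟨i, ∏ g ∈ G, s g, hi, ?_, ?_, ⟨hR, hloc.1, ?_⟩, ?_⟩
  · exact (X.chart i).prod_mem fun g hg => (hs g (hG g hg)).1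
  · exact Finset.prod_ne_zero_iff.2 fun g hg => (hs g (hG g hg)).2.1
  · rw [← Finset.prod_inv_distrib]
    exact R.prod_mem fun g hg => (hs g (hG g hg)).2.2.1
  · rintro R' ⟨hR', hle, hinv⟩
    refine ⟨hR', fun g hg => ?_⟩
    have hgG := hs g (hG g hg)
    have e : g = (g * s g) * (∏ g ∈ G.erase g, s g) * (∏ g ∈ G, s g)⁻¹ := by
      have h0 : (∏ g ∈ G, s g) ≠ 0 :=
        Finset.prod_ne_zero_iff.2 fun g hg => (hs g (hG g hg)).2.1
      have h2 := Finset.mul_prod_erase G s hg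
      rw [mul_assoc g, h2, mul_assoc, mul_inv_cancel₀ h0, mul_one]
    rw [e]
    refine R'.mul_mem (R'.mul_mem (hle hgG.2.2.2) (R'.prod_mem fun a ha => ?_)) hinv
    exact hle (hs a (hG a (Finset.mem_of_mem_erase ha))).1

/-- two points of `Y` dominated by the same valuation ring are equal -/
theorem eq_of_valDominates (Y : ProjVar L) (φ : L →ₐ[ℂ] K) (W : ValuationSubring K)
    {S S' : Subalgebra ℂ L} (hS : Y.IsLocal S) (hS' : Y.IsLocal S') (h : ValDominates φ W S)
    (h' : ValDominates φ W S') : S = S' := by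
  have key : ∀ S S' : Subalgebra ℂ L, Y.IsLocal S → Y.IsLocal S' → ValDominates φ W S →
      ValDominates φ W S' → S' ≤ S := by
    intro S S' hS hS' h h'
    obtain ⟨-, i, hi, hloc⟩ := exists_of_isLocal Y hS
    obtain ⟨-, i', hi', hloc'⟩ := exists_of_isLocal Y hS'
    have m1 : Y.x i' / Y.x i ∈ S := hloc.1 (Algebra.subset_adjoin ⟨i', rfl⟩)
    have m2 : Y.x i / Y.x i' ∈ S' := hloc'.1 (Algebra.subset_adjoin ⟨i, rfl⟩)
    have m3 : Y.x i / Y.x i' ∈ S := by
      have := h.2 _ m1 (by rw [← map_inv₀, inv_div]; exact h'.1 _ m2)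
      rwa [inv_div] at this
    have hch : Y.chart i' ≤ S := by
      refine Algebra.adjoin_le ?_
      rintro _ ⟨j, rfl⟩
      have e : Y.x j / Y.x i' = (Y.x j / Y.x i) * (Y.x i / Y.x i') := by field_simp
      change Y.x j / Y.x i' ∈ S
      rw [e]
      exact S.mul_mem (hloc.1 (Algebra.subset_adjoin ⟨j, rfl⟩)) m3
    intro f hf
    obtain ⟨a, ha, s, hs, hs0, hsS', rfl⟩ := hloc'.2 f hf
    rw [div_eq_mul_inv]
    refine S.mul_mem (hch ha) (h.2 s (hch hs) ?_)
    rw [← map_inv₀]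
    exact h'.1 _ hsS'
  exact le_antisymm (key S' S hS' hS h' h) (key S S' hS hS' h h')

/-- some ratio of finitely many nonzero elements is the smallest -/
theorem exists_min_ratio (W : ValuationSubring K) (v : Fin 4 → K) (hv : ∀ i, v i ≠ 0) :
    ∃ k, ∀ i, v i / v k ∈ W := by
  obtain ⟨k, hk⟩ := Finite.exists_max (fun i => W.valuation (v i))
  refine ⟨k, fun i => ?_⟩
  rw [← W.valuation_le_one_iff, map_div₀]
  have h0 : W.valuation (v k) ≠ 0 := (Valuation.ne_zero_iff _).2 (hv k)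
  exact div_le_one_of_le₀ (hk i) zero_le'

/-- existence of a valuation ring dominating a local ring -/
theorem exists_val (φ : L →ₐ[ℂ] K) {S : Subalgebra ℂ L} (hS : LocalSub S) :
    ∃ W : ValuationSubring K, (∀ c : ℂ, algebraMap ℂ K c ∈ W) ∧ ValDominates φ W S := by
  haveI := isLocalRing_of_localSub hS
  obtain ⟨W, hW, hloc⟩ := IsLocalRing.exists_factor_valuationRing
    (R := S) (K := K) (φ.toRingHom.comp S.val.toRingHom)
  refine ⟨W, fun c => ?_, fun f hf => hW ⟨f, hf⟩, fun f hf hf' => ?_⟩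
  · have := hW (algebraMap ℂ S c)
    have e : (φ.toRingHom.comp S.val.toRingHom) (algebraMap ℂ S c) = algebraMap ℂ K c :=
      φ.commutes c
    rwa [e] at this
  · by_cases hf0 : f = 0
    · subst hf0; simp [S.zero_mem]
    have hu : IsUnit ((φ.toRingHom.comp S.val.toRingHom).codRestrict W.toSubring hW ⟨f, hf⟩) := by
      refine IsUnit.of_mul_eq_one ⟨(φ f)⁻¹, hf'⟩ (Subtype.ext ?_)
      change φ f * (φ f)⁻¹ = 1
      exact mul_inv_cancel₀ ((map_ne_zero φ).2 hf0)
    have h2 := hloc.map_nonunit _ hu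
    exact ((isUnit_iff _).1 h2).2

end general

end Pool.Agent.H709Reg
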