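import Pool.Agent.H709Reg.Setup

open Pool.Agent.Helper449.ZM Pool.Agent.H709Reg

open scoped KaehlerDifferential

namespace Pool.Agent.H709Reg.J27297



theorem exists_ellData : ∃ (K : Type) (_ : Field K) (_ : Algebra ℂ K), Nonempty (EllData K) := by
  let P := MvPolynomial (Fin 3) ℂ
  let Ω := AlgebraicClosure (FractionRing P)
  have hinj : Function.Injective (IsScalarTower.toAlgHom ℂ P Ω) := by
    have h1 : Function.Injective (algebraMap P (FractionRing P)) :=
      IsFractionRing.injective P (FractionRing P)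
    have h2 : Function.Injective (algebraMap (FractionRing P) Ω) :=
      (algebraMap (FractionRing P) Ω).injective
    intro a b hab
    apply h1
    apply h2
    rw [← IsScalarTower.algebraMap_apply P (FractionRing P) Ω,
      ← IsScalarTower.algebraMap_apply P (FractionRing P) Ω]
    exact hab
  let ι : P →ₐ[ℂ] Ω := IsScalarTower.toAlgHom ℂ P Ω
  have hind : AlgebraicIndependent ℂ (ι ∘ (MvPolynomial.X : Fin 3 → P)) :=
    (MvPolynomial.algebraicIndependent_X (Fin 3) ℂ).map' hinj
  let w : Ω := ι (MvPolynomial.X 0)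
  let A : Ω := ι (MvPolynomial.X 1)
  let B : Ω := ι (MvPolynomial.X 2)
  obtain ⟨s, hs⟩ := IsAlgClosed.exists_pow_nat_eq (w ^ 4 + 4) (n := 2) (by norm_num)
  let x : Ω := (w ^ 2 + s) / 2
  have hx : x ^ 2 - w ^ 2 * x - 1 = 0 := by
    have h2 : (2 : Ω) ≠ 0 := two_ne_zero
    have h4 : (4 : Ω) ≠ 0 := by
      have h5 : (4 : Ω) = 2 * 2 := by norm_num
      rw [h5]
      exact mul_ne_zero h2 h2
    have hx2 : x * 2 = w ^ 2 + s := div_mul_cancel₀ _ h2
    refine (mul_eq_zero.1 (?_ : 4 * (x ^ 2 - w ^ 2 * x - 1) = 0)).resolve_left h4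
    linear_combination hs + (2 * x + w ^ 2 + s - 2 * w ^ 2) * hx2
  let K : IntermediateField ℂ Ω := IntermediateField.adjoin ℂ {w, x, A, B}
  have hw : w ∈ K := IntermediateField.subset_adjoin _ _ (by simp)
  have hxK : x ∈ K := IntermediateField.subset_adjoin _ _ (by simp)
  have hA : A ∈ K := IntermediateField.subset_adjoin _ _ (by simp)
  have hB : B ∈ K := IntermediateField.subset_adjoin _ _ (by simp)
  refine ⟨K, inferInstance, inferInstance, ⟨⟨⟨w, hw⟩, ⟨x, hxK⟩, ⟨A, hA⟩, ⟨B, hB⟩, ?_, ?_, ?_⟩⟩⟩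
  · apply Subtype.ext
    exact hx
  · rw [← AlgHom.algebraicIndependent_iff K.val K.val.injective]
    convert hind using 1
    funext i
    fin_cases i <;> rfl
  · apply IntermediateField.lift_injective K
    rw [IntermediateField.lift_top, IntermediateField.lift_adjoin]
    simp only [Set.image_insert_eq, Set.image_singleton]
    rfl

end Pool.Agent.H709Reg.J27297
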