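import Pool.Agent.H709Reg.Setup

open Pool.Agent.Helper449.ZM Pool.Agent.H709Reg

open scoped KaehlerDifferential

namespace Pool.Agent.H709Reg.J27398



variable {K : Type} [Field K] [Algebra ℂ K]

theorem trdeg_eq_alg (d : EllData K) (F : IntermediateField ℂ K) (hw : IsAlgebraic F d.w)
    (hA : IsAlgebraic F d.A) (hB : IsAlgebraic F d.B) : Algebra.IsAlgebraic F K := by
  have hwL : d.w ∈ algebraicClosure F K := mem_algebraicClosure_iff.2 hw
  have hx : IsAlgebraic F d.x := by
    have h1 : IsIntegral (algebraicClosure F K) d.x := by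
      refine ⟨Polynomial.X ^ 2 - Polynomial.C ((⟨d.w, hwL⟩ : algebraicClosure F K) ^ 2) * Polynomial.X - Polynomial.C 1, ?_, ?_⟩
      · monicity!
      · have h2 := d.rel
        simp only [Polynomial.eval₂_sub, Polynomial.eval₂_mul, Polynomial.eval₂_pow,
          Polynomial.eval₂_X, Polynomial.eval₂_C, map_pow, map_one, Polynomial.eval₂_one]
        exact h2
    exact (isIntegral_trans (R := F) (A := algebraicClosure F K) d.x h1).isAlgebraic
  have htop : (algebraicClosure F K).restrictScalars ℂ = ⊤ := by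
    rw [eq_top_iff, ← d.gen, IntermediateField.adjoin_le_iff]
    intro y hy
    simp only [Set.mem_insert_iff, Set.mem_singleton_iff] at hy
    show y ∈ (algebraicClosure F K)
    rcases hy with rfl | rfl | rfl | rfl
    · exact mem_algebraicClosure_iff.2 hw
    · exact mem_algebraicClosure_iff.2 hx
    · exact mem_algebraicClosure_iff.2 hA
    · exact mem_algebraicClosure_iff.2 hB
  constructor
  intro y
  have h3 : y ∈ (algebraicClosure F K).restrictScalars ℂ := by
    rw [htop]; exact IntermediateField.mem_top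
  have h4 : y ∈ algebraicClosure F K := h3
  exact mem_algebraicClosure_iff.1 h4

theorem trdeg_eq_mem {F : IntermediateField ℂ K} {y : K} (hy : y ∈ F) : IsAlgebraic F y := by
  have := isAlgebraic_algebraMap (R := F) (A := K) (⟨y, hy⟩ : F)
  exact this

theorem trdeg_eq_basis (d : EllData K) : IsTranscendenceBasis ℂ ![d.w, d.A, d.B] := by
  rw [d.indep.isTranscendenceBasis_iff_isAlgebraic]
  rw [← IntermediateField.isAlgebraic_adjoin_iff_top]
  have hsub := IntermediateField.subset_adjoin ℂ (Set.range ![d.w, d.A, d.B])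
  refine trdeg_eq_alg d _ (trdeg_eq_mem (hsub ⟨0, rfl⟩)) (trdeg_eq_mem (hsub ⟨1, rfl⟩))
    (trdeg_eq_mem (hsub ⟨2, rfl⟩))

theorem trdeg_eq (d : EllData K) : Algebra.trdeg ℂ K = 3 := by
  have h := (trdeg_eq_basis d).lift_cardinalMk_eq_trdeg
  simp at h
  exact h.symm

theorem indep_pq_ne (d : EllData K) : d.A ≠ 0 ∧ d.B ≠ 0 ∧ d.x ≠ 0 := by
  refine ⟨?_, ?_, ?_⟩
  · exact d.indep.ne_zero 1
  · exact d.indep.ne_zero 2
  · intro h
    have := d.rel
    rw [h] at this
    norm_num at this

theorem indep_pq3 (d : EllData K) :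
    IsTranscendenceBasis ℂ ![d.w, d.A * d.B / d.x, d.A / d.B] := by
  obtain ⟨hA, hB, hx⟩ := indep_pq_ne d
  have halg : Algebra.IsAlgebraic (IntermediateField.adjoin ℂ
      (Set.range ![d.w, d.A * d.B / d.x, d.A / d.B])) K := by
    have hsub := IntermediateField.subset_adjoin ℂ
      (Set.range ![d.w, d.A * d.B / d.x, d.A / d.B])
    set F := IntermediateField.adjoin ℂ (Set.range ![d.w, d.A * d.B / d.x, d.A / d.B]) with hF
    have hwF : d.w ∈ F := hsub ⟨0, rfl⟩
    have hpF : d.A * d.B / d.x ∈ F := hsub ⟨1, rfl⟩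
    have hqF : d.A / d.B ∈ F := hsub ⟨2, rfl⟩
    have hwi : IsAlgebraic F d.w := trdeg_eq_mem hwF
    have hxi : IsIntegral F d.x := by
      refine ⟨Polynomial.X ^ 2 - Polynomial.C ((⟨d.w, hwF⟩ : F) ^ 2) * Polynomial.X - Polynomial.C 1, ?_, ?_⟩
      · monicity!
      · have h2 := d.rel
        simp only [Polynomial.eval₂_sub, Polynomial.eval₂_mul, Polynomial.eval₂_pow,
          Polynomial.eval₂_X, Polynomial.eval₂_C, map_pow, map_one, Polynomial.eval₂_one]
        exact h2
    have hA2 : d.A ^ 2 = (d.A * d.B / d.x) * (d.A / d.B) * d.x := by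
      field_simp
    have hA2i : IsIntegral F (d.A ^ 2) := by
      rw [hA2]
      exact ((trdeg_eq_mem hpF).isIntegral.mul (trdeg_eq_mem hqF).isIntegral).mul hxi
    have hAi : IsIntegral F d.A := IsIntegral.of_pow (n := 2) (by norm_num) hA2i
    have hBe : d.B = d.A * (d.A / d.B)⁻¹ := by
      field_simp
    have hBi : IsAlgebraic F d.B := by
      rw [hBe]
      exact hAi.isAlgebraic.mul (trdeg_eq_mem (F.inv_mem hqF))
    exact trdeg_eq_alg d F hwi hAi.isAlgebraic hBi
  haveI h2 := IntermediateField.isAlgebraic_adjoin_iff_top.1 halg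
  refine Algebra.IsAlgebraic.isTranscendenceBasis_of_lift_le_trdeg_of_finite ℂ _ ?_
  rw [trdeg_eq d]
  simp

theorem indep_pq (d : EllData K) :
    AlgebraicIndependent ℂ ![d.A * d.B / d.x, d.A / d.B] := by
  have h := (indep_pq3 d).1
  have h2 := h.comp ![1, 2] (by decide)
  convert h2 using 1
  ext i
  fin_cases i <;> rfl

end Pool.Agent.H709Reg.J27398
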