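import Pool.Agent.H709Reg.Setup

open Pool.Agent.Helper449.ZM Pool.Agent.H709Reg

open scoped KaehlerDifferential

namespace Pool.Agent.H709Reg.J27399



variable {K : Type} [Field K] [Algebra ℂ K]

open Polynomial in
theorem algClosed_pq_h1 {L K : Type} [Field L] [Field K] [Algebra L K] {A z : K}
    (hA : Transcendental L A) (hz : z ∈ IntermediateField.adjoin L {A}) (halg : IsAlgebraic L z) :
    ∃ c : L, algebraMap L K c = z := by
  obtain ⟨g, h, hgh⟩ := (IntermediateField.mem_adjoin_simple_iff L z).1 hz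
  by_cases hh0 : aeval A h = 0
  · refine ⟨0, ?_⟩
    rw [hgh, hh0, div_zero, map_zero]
  have hh : h ≠ 0 := by
    rintro rfl
    exact hh0 (map_zero _)
  let N := algebraicClosure L K
  have hzN : z ∈ N := mem_algebraicClosure_iff.2 halg
  let P : N[X] := g.map (algebraMap L N) - C ⟨z, hzN⟩ * h.map (algebraMap L N)
  have hPA : aeval A P = 0 := by
    have e1 : aeval A (g.map (algebraMap L N)) = aeval A g := by
      rw [aeval_map_algebraMap]
    have e2 : aeval A (h.map (algebraMap L N)) = aeval A h := by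
      rw [aeval_map_algebraMap]
    have e3 : algebraMap N K ⟨z, hzN⟩ = z := rfl
    simp only [P, map_sub, map_mul, e1, e2, aeval_C, e3]
    rw [hgh, div_mul_cancel₀ _ hh0, sub_self]
  have hP0 : P = 0 := by
    by_contra hP
    have h1 : IsAlgebraic N A := ⟨P, hP, hPA⟩
    haveI : Algebra.IsAlgebraic L N := algebraicClosure.isAlgebraic L K
    exact hA (h1.restrictScalars L)
  obtain ⟨i, hi⟩ : ∃ i, h.coeff i ≠ 0 := by
    by_contra hcon
    push Not at hcon
    exact hh (Polynomial.ext fun i => by simp [hcon i])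
  have hcoef : algebraMap L K (g.coeff i) - z * algebraMap L K (h.coeff i) = 0 := by
    have h1 : P.coeff i = 0 := by rw [hP0]; simp
    have h2 := congrArg (algebraMap N K) h1
    simp only [P, coeff_sub, coeff_C_mul, coeff_map, map_sub, map_mul, map_zero] at h2
    exact h2
  refine ⟨g.coeff i / h.coeff i, ?_⟩
  have hi' : algebraMap L K (h.coeff i) ≠ 0 := by
    simpa using hi
  rw [map_div₀, div_eq_iff hi']
  linear_combination hcoef

open Polynomial in
theorem algClosed_pq_h2 {L : Type} [Field L] [CharZero L] (c e : L) (hc : c ≠ 0) (he : e ≠ 0)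
    (u g : L[X]) (hu : u ≠ 0) : C e * u ^ 2 ≠ g ^ 2 * (X ^ 4 - C (c ^ 2)) := by
  classical
  intro heq
  set D : L[X] := X ^ 4 - C (c ^ 2) with hD
  have hdeg : D.natDegree = 4 := by
    rw [hD]; exact natDegree_X_pow_sub_C
  have hD0 : D ≠ 0 := by
    intro h0
    rw [h0, natDegree_zero] at hdeg
    omega
  have hsep : D.Separable := by
    rw [hD]
    exact separable_X_pow_sub_C (c ^ 2) (by norm_num) (pow_ne_zero 2 hc)
  have hsq : Squarefree D := hsep.squarefree
  obtain ⟨u', g', hu', hg', hun⟩ := extract_gcd u g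
  set d := gcd u g with hd
  have hd0 : d ≠ 0 := by
    intro h0
    rw [h0, zero_mul] at hu'
    exact hu hu'
  have heq2 : C e * u' ^ 2 = g' ^ 2 * D := by
    have h1 : d ^ 2 * (C e * u' ^ 2) = d ^ 2 * (g' ^ 2 * D) := by
      rw [hu', hg'] at heq
      linear_combination heq
    exact mul_left_cancel₀ (pow_ne_zero 2 hd0) h1
  have hCe : IsUnit (C e : L[X]) := isUnit_C.2 (isUnit_iff_ne_zero.2 he)
  have h1 : D ∣ u' := by
    have h2 : D ∣ C e * u' ^ 2 := ⟨g' ^ 2, by rw [heq2]; ring⟩
    have h3 : D ∣ u' ^ 2 := (hCe.dvd_mul_left).1 h2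
    exact (hsq.dvd_pow_iff_dvd two_ne_zero).1 h3
  obtain ⟨k, hk⟩ := h1
  have heq3 : g' ^ 2 = D * (C e * k ^ 2) := by
    have h2 : D * (g' ^ 2) = D * (D * (C e * k ^ 2)) := by
      rw [hk] at heq2
      linear_combination -heq2
    exact mul_left_cancel₀ hD0 h2
  have h4 : D ∣ g' := (hsq.dvd_pow_iff_dvd two_ne_zero).1 ⟨_, heq3⟩
  have h5 : D ∣ gcd u' g' := dvd_gcd ⟨k, hk⟩ h4
  have h6 : IsUnit D := isUnit_of_dvd_unit h5 hun
  have h7 := natDegree_eq_zero_of_isUnit h6
  omega

open Polynomial in
theorem algClosed_pq_h3 {M : Type} [Field M] (m : M) (P : M[X]) :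
    ∃ (Q : M[X]) (a b : M), P = (X ^ 2 - C m) * Q + (C a + C b * X) := by
  have hmon : (X ^ 2 - C m : M[X]).Monic := monic_X_pow_sub_C m two_ne_zero
  have hdiv := EuclideanDomain.div_add_mod P (X ^ 2 - C m)
  have hdeg : (P % (X ^ 2 - C m)).degree < 2 := by
    have h1 : (P % (X ^ 2 - C m)).degree < (X ^ 2 - C m : M[X]).degree :=
      EuclideanDomain.mod_lt P hmon.ne_zero
    rwa [degree_X_pow_sub_C (by norm_num) m] at h1
  have h2 : (P % (X ^ 2 - C m)).degree ≤ 1 := by
    exact Order.lt_succ_iff.1 hdeg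
  have h3 := eq_X_add_C_of_degree_le_one h2
  refine ⟨P / (X ^ 2 - C m), (P % (X ^ 2 - C m)).coeff 0, (P % (X ^ 2 - C m)).coeff 1, ?_⟩
  rw [add_comm (C _) _, ← h3]
  exact hdiv.symm

open Polynomial in
theorem algClosed_pq_h4 {M K : Type} [Field M] [Field K] [Algebra M K] (w : K) (m : M)
    (hm : w ^ 2 = algebraMap M K m) (z : K) (hz : z ∈ IntermediateField.adjoin M {w}) :
    ∃ a b : M, z = algebraMap M K a + algebraMap M K b * w := by
  have hmon : (X ^ 2 - C m : M[X]).Monic := monic_X_pow_sub_C m two_ne_zero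
  have hw : IsAlgebraic M w := ⟨X ^ 2 - C m, hmon.ne_zero, by simp [hm]⟩
  have h1 : z ∈ (IntermediateField.adjoin M {w}).toSubalgebra := hz
  rw [IntermediateField.adjoin_simple_toSubalgebra_of_isAlgebraic hw,
    Algebra.adjoin_singleton_eq_range_aeval] at h1
  obtain ⟨P, hP⟩ := h1
  obtain ⟨Q, a, b, hQ⟩ := algClosed_pq_h3 m P
  refine ⟨a, b, ?_⟩
  rw [← hP]
  have h2 : aeval w P = algebraMap M K a + algebraMap M K b * w := by
    rw [hQ]
    simp only [map_add, map_mul, map_sub, map_pow, aeval_X, aeval_C, hm, sub_self, zero_mul,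
      zero_add]
  exact h2

open Polynomial in
theorem algClosed_pq_h5 {L M K : Type} [Field L] [Field M] [Field K] [CharZero K] [Algebra L M]
    [Algebra M K] [Algebra L K] [IsScalarTower L M K] (w : K) (m : M)
    (hm : w ^ 2 = algebraMap M K m) (hw : ∀ a : M, algebraMap M K a ≠ w) (a b : M)
    (h : IsAlgebraic L (algebraMap M K a + algebraMap M K b * w)) :
    IsAlgebraic L (algebraMap M K a) := by
  obtain ⟨f, hf0, hf⟩ := h
  have key : ∀ w' : K, aeval w' ((f.map (algebraMap L M)).comp (C a + C b * X)) =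
      aeval (algebraMap M K a + algebraMap M K b * w') f := by
    intro w'
    rw [aeval_comp, aeval_map_algebraMap]
    simp only [map_add, map_mul, aeval_C, aeval_X]
  obtain ⟨Q, a', b', hQ⟩ := algClosed_pq_h3 m ((f.map (algebraMap L M)).comp (C a + C b * X))
  have h1 := key w
  rw [hf, hQ] at h1
  simp only [map_add, map_mul, map_sub, map_pow, aeval_X, aeval_C, hm, sub_self, zero_mul,
      zero_add] at h1
  have hb' : b' = 0 := by
    by_contra hb
    apply hw (-a' / b')
    have hb2 : algebraMap M K b' ≠ 0 := by simpa using hb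
    rw [map_div₀, map_neg, div_eq_iff hb2]
    linear_combination -h1
  have ha' : a' = 0 := by
    rw [hb', map_zero, zero_mul, add_zero] at h1
    simpa using h1
  have h2 := key (-w)
  rw [hQ, ha', hb'] at h2
  simp only [map_add, map_mul, map_sub, map_pow, aeval_X, aeval_C, neg_sq, hm, sub_self, zero_mul,
      zero_add, map_zero] at h2
  have hz' : algebraMap M K a + algebraMap M K b * (-w) ∈ algebraicClosure L K :=
    mem_algebraicClosure_iff.2 ⟨f, hf0, h2.symm⟩
  have hz : algebraMap M K a + algebraMap M K b * w ∈ algebraicClosure L K :=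
    mem_algebraicClosure_iff.2 ⟨f, hf0, hf⟩
  have h3 : algebraMap M K a ∈ algebraicClosure L K := by
    have e1 : algebraMap M K a = ((algebraMap M K a + algebraMap M K b * w) +
        (algebraMap M K a + algebraMap M K b * (-w))) / 2 := by ring
    rw [e1]
    exact (algebraicClosure L K).div_mem ((algebraicClosure L K).add_mem hz hz')
      (ofNat_mem _ 2)
  exact mem_algebraicClosure_iff.1 h3

theorem algClosed_pq_h6 (d : EllData K) :
    Transcendental (IntermediateField.adjoin ℂ {d.A * d.B / d.x, d.A / d.B}) d.A := by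
  intro halg
  set p := d.A * d.B / d.x with hp
  set q := d.A / d.B with hq
  set L := IntermediateField.adjoin ℂ {p, q} with hL
  have hA0 : d.A ≠ 0 := d.indep.ne_zero 1
  have hB0 : d.B ≠ 0 := d.indep.ne_zero 2
  have hx0 : d.x ≠ 0 := by
    intro h0
    have := d.rel
    rw [h0] at this
    simp at this
  have hpL : p ∈ L := IntermediateField.subset_adjoin ℂ _ (by simp)
  have hqL : q ∈ L := IntermediateField.subset_adjoin ℂ _ (by simp)
  set N := algebraicClosure L K with hN
  have hpN : p ∈ N := N.algebraMap_mem ⟨p, hpL⟩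
  have hqN : q ∈ N := N.algebraMap_mem ⟨q, hqL⟩
  have hAN : d.A ∈ N := mem_algebraicClosure_iff.2 halg
  have hBN : d.B ∈ N := by
    have e1 : d.B = d.A / q := by rw [hq]; field_simp
    rw [e1]; exact N.div_mem hAN hqN
  have hxN : d.x ∈ N := by
    have e1 : d.x = d.A ^ 2 / (p * q) := by rw [hp, hq]; field_simp
    rw [e1]; exact N.div_mem (_root_.pow_mem hAN 2) (N.mul_mem hpN hqN)
  have hwN : d.w ∈ N := by
    have e1 : d.w ^ 2 = d.x - 1 / d.x := by
      have := d.rel
      field_simp
      linear_combination -this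
    have e2 : d.w ^ 2 ∈ N := by
      rw [e1]; exact N.sub_mem hxN (N.div_mem N.one_mem hxN)
    exact mem_algebraicClosure_iff.2 ((mem_algebraicClosure_iff.1 e2).of_pow two_pos)
  have htop : ∀ z : K, z ∈ N := by
    intro z
    have h1 : IntermediateField.adjoin ℂ {d.w, d.x, d.A, d.B} ≤ N.restrictScalars ℂ := by
      rw [IntermediateField.adjoin_le_iff]
      rintro y hy
      simp only [Set.mem_insert_iff, Set.mem_singleton_iff] at hy
      rcases hy with rfl | rfl | rfl | rfl
      · exact hwN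
      · exact hxN
      · exact hAN
      · exact hBN
    rw [d.gen] at h1
    exact h1 (IntermediateField.mem_top)
  have halg2 : Algebra.IsAlgebraic L K := ⟨fun z => mem_algebraicClosure_iff.1 (htop z)⟩
  have halg3 : Algebra.IsAlgebraic (Algebra.adjoin ℂ ({p, q} : Set K)) K :=
    IntermediateField.isAlgebraic_adjoin_iff_top.1 halg2
  have h1 := Algebra.IsAlgebraic.trdeg_le_cardinalMk ℂ ({p, q} : Set K)
  have h2 := d.indep.cardinalMk_le_trdeg
  have h3 := h2.trans h1
  have h4 : Cardinal.mk ({p, q} : Set K) ≤ 2 := by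
    have := Cardinal.mk_insert_le (s := ({q} : Set K)) (a := p)
    rw [Cardinal.mk_singleton] at this
    refine this.trans ?_
    norm_num
  have h5 := h3.trans h4
  rw [Cardinal.mk_fin] at h5
  have h6 : (3 : ℕ) ≤ (2 : ℕ) := by exact_mod_cast h5
  omega

/-- the field `ℂ(p, q)`, `p = AB/x`, `q = A/B`, is algebraically closed in `K` -/
theorem algClosed_pq (d : EllData K) (z : K)
    (hz : IsAlgebraic (IntermediateField.adjoin ℂ {d.A * d.B / d.x, d.A / d.B}) z) :
    z ∈ IntermediateField.adjoin ℂ {d.A * d.B / d.x, d.A / d.B} := by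
  
  have hAtr := algClosed_pq_h6 d
  set p := d.A * d.B / d.x with hp
  set q := d.A / d.B with hq
  set L := IntermediateField.adjoin ℂ {p, q} with hL
  have hA0 : d.A ≠ 0 := d.indep.ne_zero 1
  have hB0 : d.B ≠ 0 := d.indep.ne_zero 2
  have hw0 : d.w ≠ 0 := d.indep.ne_zero 0
  have hx0 : d.x ≠ 0 := by
    intro h0
    have := d.rel
    rw [h0] at this
    simp at this
  have hq0 : q ≠ 0 := by rw [hq]; exact div_ne_zero hA0 hB0
  have hp0 : p ≠ 0 := by rw [hp]; exact div_ne_zero (mul_ne_zero hA0 hB0) hx0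
  have hpL : p ∈ L := IntermediateField.subset_adjoin ℂ _ (by simp)
  have hqL : q ∈ L := IntermediateField.subset_adjoin ℂ _ (by simp)
  haveI : CharZero K := charZero_of_injective_algebraMap (algebraMap ℂ K).injective
  haveI : CharZero L := charZero_of_injective_algebraMap (algebraMap ℂ L).injective
  let c : L := ⟨p, hpL⟩ * ⟨q, hqL⟩
  have hc : algebraMap L K c = p * q := rfl
  have hc0 : c ≠ 0 := by
    intro h0
    have := congrArg (algebraMap L K) h0
    rw [hc, map_zero] at this
    exact mul_ne_zero hp0 hq0 this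
  let M := IntermediateField.adjoin L {d.A}
  have hpM : p ∈ M := M.algebraMap_mem ⟨p, hpL⟩
  have hqM : q ∈ M := M.algebraMap_mem ⟨q, hqL⟩
  have hAM : d.A ∈ M := IntermediateField.subset_adjoin L _ (by simp)
  have hBM : d.B ∈ M := by
    have e1 : d.B = d.A / q := by rw [hq]; field_simp
    rw [e1]; exact M.div_mem hAM hqM
  have ex : d.x = d.A ^ 2 / (p * q) := by rw [hp, hq]; field_simp
  have hxM : d.x ∈ M := by
    rw [ex]; exact M.div_mem (_root_.pow_mem hAM 2) (M.mul_mem hpM hqM)
  have ew : d.w ^ 2 = d.x - 1 / d.x := by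
    have := d.rel
    field_simp
    linear_combination -this
  have hwM : d.w ^ 2 ∈ M := by
    rw [ew]; exact M.sub_mem hxM (M.div_mem M.one_mem hxM)
  let m : M := ⟨d.w ^ 2, hwM⟩
  have hm : d.w ^ 2 = algebraMap M K m := rfl
  have hzN : z ∈ IntermediateField.adjoin M {d.w} := by
    have h1 : IntermediateField.adjoin ℂ {d.w, d.x, d.A, d.B} ≤
        ((IntermediateField.adjoin M {d.w}).restrictScalars L).restrictScalars ℂ := by
      rw [IntermediateField.adjoin_le_iff]
      rintro y hy
      simp only [Set.mem_insert_iff, Set.mem_singleton_iff] at hy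
      rcases hy with rfl | rfl | rfl | rfl
      · exact IntermediateField.subset_adjoin M _ (by simp)
      · exact (IntermediateField.adjoin M {d.w}).algebraMap_mem ⟨_, hxM⟩
      · exact (IntermediateField.adjoin M {d.w}).algebraMap_mem ⟨_, hAM⟩
      · exact (IntermediateField.adjoin M {d.w}).algebraMap_mem ⟨_, hBM⟩
    rw [d.gen] at h1
    exact h1 (IntermediateField.mem_top)
  obtain ⟨a, b, hab⟩ := algClosed_pq_h4 d.w m hm z hzN
  -- reduction to elements of `M`
  have hML : ∀ y : K, y ∈ M → IsAlgebraic L y → y ∈ L := by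
    intro y hy hyalg
    obtain ⟨c', hc'⟩ := algClosed_pq_h1 hAtr hy hyalg
    rw [← hc']
    exact c'.2
  by_cases hwm : ∃ a : M, algebraMap M K a = d.w
  · obtain ⟨a', ha'⟩ := hwm
    apply hML z _ hz
    rw [hab, ← ha']
    exact (a + b * a').2
  push Not at hwm
  by_cases hb0 : b = 0
  · apply hML z _ hz
    rw [hab, hb0, map_zero, zero_mul, add_zero]
    exact a.2
  exfalso
  have halgA : IsAlgebraic L (algebraMap M K a) := by
    refine algClosed_pq_h5 (L := L) d.w m hm hwm a b ?_
    rw [← hab]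
    exact hz
  have hbw : algebraMap M K b * d.w ∈ algebraicClosure L K := by
    have e1 : algebraMap M K b * d.w = z - algebraMap M K a := by rw [hab]; ring
    rw [e1]
    exact (algebraicClosure L K).sub_mem (mem_algebraicClosure_iff.2 hz)
      (mem_algebraicClosure_iff.2 halgA)
  have he : ∃ e : L, algebraMap L K e = (algebraMap M K b * d.w) ^ 2 := by
    apply algClosed_pq_h1 hAtr
    · rw [mul_pow, hm]
      exact (b ^ 2 * m).2
    · exact mem_algebraicClosure_iff.1 (_root_.pow_mem hbw 2)
  obtain ⟨e, he⟩ := he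
  have hbK : algebraMap M K b ≠ 0 := by simpa using hb0
  have he0 : e ≠ 0 := by
    intro h0
    rw [h0, map_zero] at he
    exact pow_ne_zero 2 (mul_ne_zero hbK hw0) he.symm
  obtain ⟨g, h, hgh⟩ := (IntermediateField.mem_adjoin_simple_iff L (b : K)).1 b.2
  have hbgh : algebraMap M K b = Polynomial.aeval d.A g / Polynomial.aeval d.A h := hgh
  have hh0 : Polynomial.aeval d.A h ≠ 0 := by
    intro h0
    rw [hbgh, h0, div_zero] at hbK
    exact hbK rfl
  have hh : h ≠ 0 := by
    rintro rfl
    exact hh0 (map_zero _)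
  have hcK : p * q ≠ 0 := mul_ne_zero hp0 hq0
  refine algClosed_pq_h2 c (e * c) hc0 (mul_ne_zero he0 hc0) (Polynomial.X * h) g
    (mul_ne_zero Polynomial.X_ne_zero hh) ?_
  have hinj : Function.Injective (Polynomial.aeval d.A : Polynomial L →ₐ[L] K) :=
    transcendental_iff_injective.1 hAtr
  apply hinj
  simp only [map_mul, map_pow, map_sub, Polynomial.aeval_X, Polynomial.aeval_C, he, hc]
  rw [hbgh, mul_pow, ew, ex]
  field_simp


end Pool.Agent.H709Reg.J27399
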