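import Pool.Agent.H709Reg.Setup

open Pool.Agent.Helper449.ZM Pool.Agent.H709Reg

open MvPolynomial

namespace Pool.Agent.H709Reg.J27044


variable {K : Type} [Field K] [Algebra ℂ K]

private theorem q_C [Algebra (MvPolynomial (Fin 2) ℂ) K]
    [IsScalarTower ℂ (MvPolynomial (Fin 2) ℂ) K] (a : ℂ) :
    algebraMap (MvPolynomial (Fin 2) ℂ) K (C a) = algebraMap ℂ K a := by
  rw [IsScalarTower.algebraMap_apply ℂ (MvPolynomial (Fin 2) ℂ) K, MvPolynomial.algebraMap_eq]

private theorem q_mon (d : Fin 2 →₀ ℕ) (c : ℂ) :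
    (monomial d c : MvPolynomial (Fin 2) ℂ) = C c * X 0 ^ d 0 * X 1 ^ d 1 := by
  rw [MvPolynomial.monomial_eq, Finsupp.prod_fintype _ _ (fun k => pow_zero _),
    Fin.prod_univ_two]
  ring

/-- generator of a chart -/
def qgen (e : Bool) (z : K) : K := if e then z⁻¹ else z

/-- degree condition in a chart -/
def qcond (e : Bool) (i : Fin 2) (r : MvPolynomial (Fin 2) ℂ) (m : ℕ) : Prop :=
  (e = true → degreeOf i r ≤ m) ∧ (e = false → m = 0)

private theorem q_pow (e : Bool) (z : K) (hz : z ≠ 0) (d m : ℕ) (h1 : e = true → d ≤ m)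
    (h2 : e = false → m = 0) : z ^ d / z ^ m = (qgen e z) ^ (if e then m - d else d) := by
  cases e with
  | true =>
    obtain ⟨k, rfl⟩ := Nat.exists_eq_add_of_le (h1 rfl)
    simp only [qgen, if_true, Nat.add_sub_cancel_left]
    rw [pow_add, inv_pow]
    have := pow_ne_zero d hz
    have := pow_ne_zero k hz
    field_simp
  | false =>
    have := h2 rfl
    subst this
    simp [qgen]

private theorem q_mem [Algebra (MvPolynomial (Fin 2) ℂ) K]
    [IsScalarTower ℂ (MvPolynomial (Fin 2) ℂ) K] (x y : K)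
    (hx : x = algebraMap _ K (X 0 : MvPolynomial (Fin 2) ℂ))
    (hy : y = algebraMap _ K (X 1 : MvPolynomial (Fin 2) ℂ)) (hx0 : x ≠ 0) (hy0 : y ≠ 0)
    (e0 e1 : Bool) (r : MvPolynomial (Fin 2) ℂ) (m n : ℕ) (h0 : qcond e0 0 r m)
    (h1 : qcond e1 1 r n) :
    algebraMap _ K r / (x ^ m * y ^ n) ∈ Algebra.adjoin ℂ {qgen e0 x, qgen e1 y} := by
  have hsum : algebraMap _ K r / (x ^ m * y ^ n) =
      ∑ d ∈ r.support, algebraMap _ K (monomial d (coeff d r) : MvPolynomial (Fin 2) ℂ) /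
        (x ^ m * y ^ n) := by
    conv_lhs => rw [r.as_sum]
    rw [map_sum, Finset.sum_div]
  rw [hsum]
  refine sum_mem fun d hd => ?_
  have hd0 := monomial_le_degreeOf 0 hd
  have hd1 := monomial_le_degreeOf 1 hd
  have hterm : algebraMap _ K (monomial d (coeff d r) : MvPolynomial (Fin 2) ℂ) /
      (x ^ m * y ^ n) =
      algebraMap ℂ K (coeff d r) * (x ^ d 0 / x ^ m) * (y ^ d 1 / y ^ n) := by
    rw [q_mon, map_mul, map_mul, map_pow, map_pow, q_C, ← hx, ← hy]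
    have := pow_ne_zero m hx0
    have := pow_ne_zero n hy0
    field_simp
  rw [hterm, q_pow e0 x hx0 _ _ (fun h => hd0.trans (h0.1 h)) h0.2,
    q_pow e1 y hy0 _ _ (fun h => hd1.trans (h1.1 h)) h1.2]
  refine mul_mem (mul_mem (Subalgebra.algebraMap_mem _ _) (pow_mem ?_ _)) (pow_mem ?_ _)
  · exact Algebra.subset_adjoin (Set.mem_insert _ _)
  · exact Algebra.subset_adjoin (Set.mem_insert_of_mem _ rfl)

private theorem q_deg (r : MvPolynomial (Fin 2) ℂ) (a b : ℕ) :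
    degreeOf 0 (r * X 0 ^ a * X 1 ^ b) ≤ degreeOf 0 r + a ∧
      degreeOf 1 (r * X 0 ^ a * X 1 ^ b) ≤ degreeOf 1 r + b := by
  have hX : ∀ (i j : Fin 2) (k : ℕ), degreeOf i ((X j : MvPolynomial (Fin 2) ℂ) ^ k) ≤
      k * (if i = j then 1 else 0) := by
    intro i j k
    refine (degreeOf_pow_le _ _ _).trans ?_
    rw [degreeOf_X]
  constructor
  · refine (degreeOf_mul_le _ _ _).trans ?_
    have h1 := degreeOf_mul_le 0 r ((X 0 : MvPolynomial (Fin 2) ℂ) ^ a)
    have h2 := hX 0 0 a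
    have h3 := hX 0 1 b
    simp only [if_true, mul_one, (by decide : ¬ ((0 : Fin 2) = 1)), if_false, mul_zero] at h2 h3
    omega
  · refine (degreeOf_mul_le _ _ _).trans ?_
    have h1 := degreeOf_mul_le 1 r ((X 0 : MvPolynomial (Fin 2) ℂ) ^ a)
    have h2 := hX 1 0 a
    have h3 := hX 1 1 b
    simp only [if_true, mul_one, (by decide : ¬ ((1 : Fin 2) = 0)), if_false, mul_zero] at h2 h3
    omega

private theorem q_ex [Algebra (MvPolynomial (Fin 2) ℂ) K]
    [IsScalarTower ℂ (MvPolynomial (Fin 2) ℂ) K] (x y : K)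
    (hx : x = algebraMap _ K (X 0 : MvPolynomial (Fin 2) ℂ))
    (hy : y = algebraMap _ K (X 1 : MvPolynomial (Fin 2) ℂ)) (hx0 : x ≠ 0) (hy0 : y ≠ 0)
    (e0 e1 : Bool) (f : K) (hf : f ∈ Algebra.adjoin ℂ {qgen e0 x, qgen e1 y}) :
    ∃ (m n : ℕ) (r : MvPolynomial (Fin 2) ℂ), qcond e0 0 r m ∧ qcond e1 1 r n ∧
      f * x ^ m * y ^ n = algebraMap _ K r := by
  induction hf using Algebra.adjoin_induction with
  | mem z hz =>
    rcases hz with rfl | rfl
    · cases e0 with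
      | true =>
        refine ⟨1, 0, 1, ⟨fun _ => ?_, fun h => absurd h (by decide)⟩, ⟨fun _ => ?_, fun _ => rfl⟩, ?_⟩
        · rw [← C_1, degreeOf_C]; exact Nat.zero_le _
        · rw [← C_1, degreeOf_C]
        · simp [qgen, hx0]
      | false =>
        refine ⟨0, 0, X 0, ⟨fun h => absurd h (by decide), fun _ => rfl⟩, ⟨fun _ => ?_, fun _ => rfl⟩, ?_⟩
        · rw [degreeOf_X]; simp
        · simp [qgen, hx]
    · cases e1 with
      | true =>
        refine ⟨0, 1, 1, ⟨fun _ => ?_, fun _ => rfl⟩, ⟨fun _ => ?_, fun h => absurd h (by decide)⟩, ?_⟩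
        · rw [← C_1, degreeOf_C]
        · rw [← C_1, degreeOf_C]; exact Nat.zero_le _
        · simp [qgen, hy0]
      | false =>
        refine ⟨0, 0, X 1, ⟨fun _ => ?_, fun _ => rfl⟩, ⟨fun h => absurd h (by decide), fun _ => rfl⟩, ?_⟩
        · rw [degreeOf_X]; simp
        · simp [qgen, hy]
  | algebraMap r =>
    refine ⟨0, 0, C r, ⟨fun _ => ?_, fun _ => rfl⟩, ⟨fun _ => ?_, fun _ => rfl⟩, ?_⟩
    · rw [degreeOf_C]
    · rw [degreeOf_C]
    · rw [pow_zero, pow_zero, mul_one, mul_one, q_C]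
  | add a b _ _ ha hb =>
    obtain ⟨m1, n1, r1, h1, h1', e1⟩ := ha
    obtain ⟨m2, n2, r2, h2, h2', e2⟩ := hb
    have d1 := q_deg r1 m2 n2
    have d2 := q_deg r2 m1 n1
    refine ⟨m1 + m2, n1 + n2, r1 * X 0 ^ m2 * X 1 ^ n2 + r2 * X 0 ^ m1 * X 1 ^ n1,
      ⟨fun h => ?_, fun h => ?_⟩, ⟨fun h => ?_, fun h => ?_⟩, ?_⟩
    · refine (degreeOf_add_le _ _ _).trans (max_le ?_ ?_)
      · have := h1.1 h; omega
      · have := h2.1 h; omega
    · have := h1.2 h; have := h2.2 h; omega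
    · refine (degreeOf_add_le _ _ _).trans (max_le ?_ ?_)
      · have := h1'.1 h; omega
      · have := h2'.1 h; omega
    · have := h1'.2 h; have := h2'.2 h; omega
    · simp only [map_add, map_mul, map_pow]
      rw [← e1, ← e2, ← hx, ← hy]; ring
  | mul a b _ _ ha hb =>
    obtain ⟨m1, n1, r1, h1, h1', e1⟩ := ha
    obtain ⟨m2, n2, r2, h2, h2', e2⟩ := hb
    refine ⟨m1 + m2, n1 + n2, r1 * r2,
      ⟨fun h => ?_, fun h => ?_⟩, ⟨fun h => ?_, fun h => ?_⟩, ?_⟩
    · exact (degreeOf_mul_le _ _ _).trans (add_le_add (h1.1 h) (h2.1 h))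
    · have := h1.2 h; have := h2.2 h; omega
    · exact (degreeOf_mul_le _ _ _).trans (add_le_add (h1'.1 h) (h2'.1 h))
    · have := h1'.2 h; have := h2'.2 h; omega
    · rw [map_mul, ← e1, ← e2]; ring

private theorem q_bound (i : Fin 2) (N D c : MvPolynomial (Fin 2) ℂ) (hD : D ≠ 0) (hc : c ≠ 0)
    (M : ℕ) (h1 : degreeOf i (D * c) ≤ M) (h2 : degreeOf i (N * c) ≤ M) :
    degreeOf i c + max (degreeOf i N) (degreeOf i D) ≤ M := by
  rw [degreeOf_mul_eq hD hc] at h1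
  by_cases hN : N = 0
  · rw [hN, degreeOf_zero, max_eq_right (Nat.zero_le _)]
    omega
  · rw [degreeOf_mul_eq hN hc] at h2
    rcases max_choice (degreeOf i N) (degreeOf i D) with h | h <;> rw [h] <;> omega

private theorem q_chart [Algebra (MvPolynomial (Fin 2) ℂ) K]
    [IsScalarTower ℂ (MvPolynomial (Fin 2) ℂ) K]
    [IsFractionRing (MvPolynomial (Fin 2) ℂ) K] (x y : K)
    (hx : x = algebraMap _ K (X 0 : MvPolynomial (Fin 2) ℂ))
    (hy : y = algebraMap _ K (X 1 : MvPolynomial (Fin 2) ℂ)) (N D : MvPolynomial (Fin 2) ℂ)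
    (hD : D ≠ 0) (hrel : IsRelPrime N D) (e0 e1 : Bool) (R : Subalgebra ℂ K)
    (hR : IsLocOf (Algebra.adjoin ℂ {qgen e0 x, qgen e1 y}) R)
    (hg : algebraMap _ K N / algebraMap _ K D ∈ R) :
    (algebraMap _ K D)⁻¹ ∈ R ∧
        (1 ≤ max (degreeOf 0 N) (degreeOf 0 D) → x / algebraMap _ K D ∈ R) ∧
        (1 ≤ max (degreeOf 1 N) (degreeOf 1 D) → y / algebraMap _ K D ∈ R) := by
  have hinj : Function.Injective (algebraMap (MvPolynomial (Fin 2) ℂ) K) :=
    IsFractionRing.injective _ _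
  have hne : ∀ p : MvPolynomial (Fin 2) ℂ, p ≠ 0 → algebraMap _ K p ≠ 0 := fun p hp h =>
    hp (hinj (h.trans (map_zero _).symm))
  have hx0 : x ≠ 0 := hx ▸ hne _ (X_ne_zero 0)
  have hy0 : y ≠ 0 := hy ▸ hne _ (X_ne_zero 1)
  obtain ⟨hBR, hR2⟩ := hR
  obtain ⟨a, ha, s, hs, hs0, hsR, hgs⟩ := hR2 _ hg
  obtain ⟨m1, n1, r0, hr1, hr1', er1⟩ := q_ex x y hx hy hx0 hy0 e0 e1 a ha
  obtain ⟨m2, n2, s0, hr2, hr2', er2⟩ := q_ex x y hx hy hx0 hy0 e0 e1 s hs
  have hDK := hne D hD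
  have hs0' : s0 ≠ 0 := by
    intro h
    rw [h, map_zero] at er2
    exact (mul_ne_zero (mul_ne_zero hs0 (pow_ne_zero _ hx0)) (pow_ne_zero _ hy0)) er2
  have heq : N * (s0 * X 0 ^ m1 * X 1 ^ n1) = (r0 * X 0 ^ m2 * X 1 ^ n2) * D := by
    apply hinj
    simp only [map_mul, map_pow]
    rw [← er1, ← er2, ← hx, ← hy]
    rw [div_eq_div_iff hDK hs0] at hgs
    linear_combination x ^ m2 * x ^ m1 * y ^ n1 * y ^ n2 * hgs
  have hdvd : D ∣ s0 * X 0 ^ m1 * X 1 ^ n1 := by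
    have h1 : D ∣ N * (s0 * X 0 ^ m1 * X 1 ^ n1) := ⟨r0 * X 0 ^ m2 * X 1 ^ n2, by rw [heq, mul_comm]⟩
    exact hrel.symm.dvd_of_dvd_mul_left h1
  obtain ⟨c, hc⟩ := hdvd
  have hc0 : c ≠ 0 := by
    intro h
    rw [h, mul_zero] at hc
    exact (mul_ne_zero (mul_ne_zero hs0' (pow_ne_zero _ (X_ne_zero 0)))
      (pow_ne_zero _ (X_ne_zero 1))) hc
  have hNc : r0 * X 0 ^ m2 * X 1 ^ n2 = N * c := by
    have h1 : (r0 * X 0 ^ m2 * X 1 ^ n2) * D = (N * c) * D := by rw [← heq, hc]; ring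
    exact mul_right_cancel₀ hD h1
  have ds := q_deg s0 m1 n1
  have dr := q_deg r0 m2 n2
  rw [hc] at ds
  rw [hNc] at dr
  obtain ⟨A0, hA0⟩ : ∃ n, n = max (degreeOf 0 N) (degreeOf 0 D) := ⟨_, rfl⟩
  obtain ⟨A1, hA1⟩ : ∃ n, n = max (degreeOf 1 N) (degreeOf 1 D) := ⟨_, rfl⟩
  have hb0 : e0 = true → degreeOf 0 c + A0 ≤ m1 + m2 := by
    intro h
    rw [hA0]
    have t1 := hr1.1 h
    have t2 := hr2.1 h
    exact q_bound 0 N D c hD hc0 _ (by omega) (by omega)
  have hb1 : e1 = true → degreeOf 1 c + A1 ≤ n1 + n2 := by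
    intro h
    rw [hA1]
    have t1 := hr1'.1 h
    have t2 := hr2'.1 h
    exact q_bound 1 N D c hD hc0 _ (by omega) (by omega)
  rw [← hA0, ← hA1]
  obtain ⟨p, hp⟩ : ∃ p, p = (if e0 then A0 else 0) := ⟨_, rfl⟩
  obtain ⟨q, hq⟩ : ∃ q, q = (if e1 then A1 else 0) := ⟨_, rfl⟩
  have hpM : ∃ k, m1 + m2 = p + k ∧ qcond e0 0 c k := by
    cases e0 with
    | true =>
      rw [if_pos rfl] at hp
      have := hb0 rfl
      exact ⟨m1 + m2 - p, by omega, fun _ => by omega, fun h => absurd h (by decide)⟩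
    | false =>
      rw [if_neg (by decide)] at hp
      have t1 := hr1.2 rfl
      have t2 := hr2.2 rfl
      exact ⟨0, by omega, fun h => absurd h (by decide), fun _ => rfl⟩
  have hqM : ∃ k, n1 + n2 = q + k ∧ qcond e1 1 c k := by
    cases e1 with
    | true =>
      rw [if_pos rfl] at hq
      have := hb1 rfl
      exact ⟨n1 + n2 - q, by omega, fun _ => by omega, fun h => absurd h (by decide)⟩
    | false =>
      rw [if_neg (by decide)] at hq
      have t1 := hr1'.2 rfl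
      have t2 := hr2'.2 rfl
      exact ⟨0, by omega, fun h => absurd h (by decide), fun _ => rfl⟩
  obtain ⟨k0, hk0, hc0'⟩ := hpM
  obtain ⟨k1, hk1, hc1'⟩ := hqM
  have hcR : algebraMap _ K c / (x ^ k0 * y ^ k1) ∈ R :=
    hBR (q_mem x y hx hy hx0 hy0 e0 e1 c k0 k1 hc0' hc1')
  have hDc : algebraMap _ K D * algebraMap _ K c = s * x ^ (m1 + m2) * y ^ (n1 + n2) := by
    rw [← map_mul, ← hc]
    simp only [map_mul, map_pow]
    rw [← er2, ← hx, ← hy]; ring
  have hkey : x ^ p * y ^ q / algebraMap _ K D ∈ R := by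
    have h1 : x ^ p * y ^ q / algebraMap _ K D = s⁻¹ * (algebraMap _ K c / (x ^ k0 * y ^ k1)) := by
      rw [div_eq_iff hDK]
      rw [hk0, hk1, pow_add, pow_add] at hDc
      have hxq := pow_ne_zero k0 hx0
      have hyq := pow_ne_zero k1 hy0
      calc x ^ p * y ^ q
          = s⁻¹ * (s * (x ^ p * x ^ k0) * (y ^ q * y ^ k1)) / (x ^ k0 * y ^ k1) := by
            field_simp
        _ = s⁻¹ * (algebraMap _ K D * algebraMap _ K c) / (x ^ k0 * y ^ k1) := by rw [hDc]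
        _ = _ := by ring
    rw [h1]
    exact mul_mem hsR hcR
  have hxp : ∀ k, k ≤ p → (x⁻¹) ^ k ∈ R := by
    intro k hk
    cases e0 with
    | true => exact pow_mem (hBR (Algebra.subset_adjoin (Set.mem_insert _ _))) _
    | false =>
      rw [if_neg (by decide)] at hp
      have : k = 0 := by omega
      rw [this, pow_zero]
      exact one_mem _
  have hyq : ∀ k, k ≤ q → (y⁻¹) ^ k ∈ R := by
    intro k hk
    cases e1 with
    | true => exact pow_mem (hBR (Algebra.subset_adjoin (Set.mem_insert_of_mem _ rfl))) _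
    | false =>
      rw [if_neg (by decide)] at hq
      have : k = 0 := by omega
      rw [this, pow_zero]
      exact one_mem _
  have hxp0 := pow_ne_zero p hx0
  have hyq0 := pow_ne_zero q hy0
  have hDinv : (algebraMap _ K D)⁻¹ ∈ R := by
    have h1 : (algebraMap _ K D)⁻¹ = (x⁻¹) ^ p * (y⁻¹) ^ q * (x ^ p * y ^ q / algebraMap _ K D) := by
      rw [inv_pow, inv_pow]
      field_simp
    rw [h1]
    exact mul_mem (mul_mem (hxp _ le_rfl) (hyq _ le_rfl)) hkey
  refine ⟨hDinv, fun h => ?_, fun h => ?_⟩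
  · cases e0 with
    | true =>
      rw [if_pos rfl] at hp
      obtain ⟨k, rfl⟩ : ∃ k, p = k + 1 := ⟨p - 1, by omega⟩
      have h1 : x / algebraMap _ K D = (x⁻¹) ^ k * (y⁻¹) ^ q * (x ^ (k + 1) * y ^ q / algebraMap _ K D) := by
        rw [inv_pow, inv_pow, pow_succ]
        have := pow_ne_zero k hx0
        field_simp
      rw [h1]
      exact mul_mem (mul_mem (hxp _ (by omega)) (hyq _ le_rfl)) hkey
    | false =>
      rw [div_eq_mul_inv]
      exact mul_mem (hBR (Algebra.subset_adjoin (Set.mem_insert _ _))) hDinv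
  · cases e1 with
    | true =>
      rw [if_pos rfl] at hq
      obtain ⟨k, rfl⟩ : ∃ k, q = k + 1 := ⟨q - 1, by omega⟩
      have h1 : y / algebraMap _ K D = (x⁻¹) ^ p * (y⁻¹) ^ k * (x ^ p * y ^ (k + 1) / algebraMap _ K D) := by
        rw [inv_pow, inv_pow, pow_succ]
        have := pow_ne_zero k hy0
        field_simp
      rw [h1]
      exact mul_mem (mul_mem (hxp _ le_rfl) (hyq _ (by omega))) hkey
    | false =>
      rw [div_eq_mul_inv]
      exact mul_mem (hBR (Algebra.subset_adjoin (Set.mem_insert_of_mem _ rfl))) hDinv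

private theorem q_field0 [Algebra (MvPolynomial (Fin 2) ℂ) K]
    [IsScalarTower ℂ (MvPolynomial (Fin 2) ℂ) K] (y : K)
    (hy : y = algebraMap _ K (X 1 : MvPolynomial (Fin 2) ℂ)) (r : MvPolynomial (Fin 2) ℂ)
    (h : degreeOf 0 r = 0) : algebraMap _ K r ∈ IntermediateField.adjoin ℂ {y} := by
  have hsum : algebraMap _ K r =
      ∑ d ∈ r.support, algebraMap _ K (monomial d (coeff d r) : MvPolynomial (Fin 2) ℂ) := by
    conv_lhs => rw [r.as_sum]
    rw [map_sum]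
  rw [hsum]
  refine sum_mem fun d hd => ?_
  have hd0 : d 0 = 0 := by have := monomial_le_degreeOf 0 hd; omega
  have hterm : algebraMap _ K (monomial d (coeff d r) : MvPolynomial (Fin 2) ℂ) =
      algebraMap ℂ K (coeff d r) * y ^ d 1 := by
    rw [q_mon, hd0, pow_zero, mul_one, map_mul, map_pow, q_C, ← hy]
  rw [hterm]
  have hmy : y ∈ IntermediateField.adjoin ℂ {y} := IntermediateField.mem_adjoin_simple_self ℂ y
  exact mul_mem (IntermediateField.algebraMap_mem _ _) (pow_mem hmy _)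

private theorem q_field1 [Algebra (MvPolynomial (Fin 2) ℂ) K]
    [IsScalarTower ℂ (MvPolynomial (Fin 2) ℂ) K] (y : K)
    (hy : y = algebraMap _ K (X 0 : MvPolynomial (Fin 2) ℂ)) (r : MvPolynomial (Fin 2) ℂ)
    (h : degreeOf 1 r = 0) : algebraMap _ K r ∈ IntermediateField.adjoin ℂ {y} := by
  have hsum : algebraMap _ K r =
      ∑ d ∈ r.support, algebraMap _ K (monomial d (coeff d r) : MvPolynomial (Fin 2) ℂ) := by
    conv_lhs => rw [r.as_sum]
    rw [map_sum]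
  rw [hsum]
  refine sum_mem fun d hd => ?_
  have hd0 : d 1 = 0 := by have := monomial_le_degreeOf 1 hd; omega
  have hterm : algebraMap _ K (monomial d (coeff d r) : MvPolynomial (Fin 2) ℂ) =
      algebraMap ℂ K (coeff d r) * y ^ d 0 := by
    rw [q_mon, hd0, pow_zero, mul_one, map_mul, map_pow, q_C, ← hy]
  rw [hterm]
  have hmy : y ∈ IntermediateField.adjoin ℂ {y} := IntermediateField.mem_adjoin_simple_self ℂ y
  exact mul_mem (IntermediateField.algebraMap_mem _ _) (pow_mem hmy _)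

/-- A rational function `g` on `P¹ × P¹` has a denominator `D` such that
`1/D` is regular wherever `g` is, and `x/D` (resp. `y/D`) too if `g` depends on `x` (resp. `y`). -/
theorem lemma_quadric [Algebra (MvPolynomial (Fin 2) ℂ) K] [IsScalarTower ℂ (MvPolynomial (Fin 2) ℂ) K]
    [IsFractionRing (MvPolynomial (Fin 2) ℂ) K] (x y : K)
    (hx : x = algebraMap _ K (X 0 : MvPolynomial (Fin 2) ℂ))
    (hy : y = algebraMap _ K (X 1 : MvPolynomial (Fin 2) ℂ)) (g : K) :
    ∃ D : MvPolynomial (Fin 2) ℂ, D ≠ 0 ∧ ∀ R : Subalgebra ℂ K,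
      (IsLocOf (Algebra.adjoin ℂ {x, y}) R ∨ IsLocOf (Algebra.adjoin ℂ {x⁻¹, y}) R ∨
        IsLocOf (Algebra.adjoin ℂ {x, y⁻¹}) R ∨ IsLocOf (Algebra.adjoin ℂ {x⁻¹, y⁻¹}) R) →
      g ∈ R →
        (algebraMap _ K D)⁻¹ ∈ R ∧
        (g ∉ IntermediateField.adjoin ℂ {y} → x / algebraMap _ K D ∈ R) ∧
        (g ∉ IntermediateField.adjoin ℂ {x} → y / algebraMap _ K D ∈ R) := by
  obtain ⟨N, ⟨D, hDm⟩, hrel, hmk⟩ :=
    IsFractionRing.exists_reduced_fraction (A := MvPolynomial (Fin 2) ℂ) (K := K) g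
  have hD : D ≠ 0 := nonZeroDivisors.ne_zero hDm
  have hgf : g = algebraMap _ K N / algebraMap _ K D := by
    rw [← hmk, IsFractionRing.mk'_eq_div]
  have hA0 : g ∉ IntermediateField.adjoin ℂ {y} → 1 ≤ max (degreeOf 0 N) (degreeOf 0 D) := by
    intro h
    by_contra hcon
    apply h
    have h1 : degreeOf 0 N = 0 := by
      have := le_max_left (degreeOf 0 N) (degreeOf 0 D); omega
    have h2 : degreeOf 0 D = 0 := by
      have := le_max_right (degreeOf 0 N) (degreeOf 0 D); omega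
    rw [hgf]
    exact div_mem (q_field0 y hy N h1) (q_field0 y hy D h2)
  have hA1 : g ∉ IntermediateField.adjoin ℂ {x} → 1 ≤ max (degreeOf 1 N) (degreeOf 1 D) := by
    intro h
    by_contra hcon
    apply h
    have h1 : degreeOf 1 N = 0 := by
      have := le_max_left (degreeOf 1 N) (degreeOf 1 D); omega
    have h2 : degreeOf 1 D = 0 := by
      have := le_max_right (degreeOf 1 N) (degreeOf 1 D); omega
    rw [hgf]
    exact div_mem (q_field1 x hx N h1) (q_field1 x hx D h2)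
  refine ⟨D, hD, fun R hR hgR => ?_⟩
  have hex : ∃ e0 e1 : Bool, IsLocOf (Algebra.adjoin ℂ {qgen e0 x, qgen e1 y}) R := by
    rcases hR with hR | hR | hR | hR
    · exact ⟨false, false, hR⟩
    · exact ⟨true, false, hR⟩
    · exact ⟨false, true, hR⟩
    · exact ⟨true, true, hR⟩
  obtain ⟨e0, e1, hR'⟩ := hex
  obtain ⟨h1, h2, h3⟩ := q_chart x y hx hy N D hD hrel e0 e1 R hR' (hgf ▸ hgR)
  exact ⟨h1, fun h => h2 (hA0 h), fun h => h3 (hA1 h)⟩

end Pool.Agent.H709Reg.J27044
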