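import Pool.Agent.H709Reg.Sigma
import Pool.Agent.H709Reg.J27044
import Pool.Agent.Helper449.ZM.J4
import Pool.Agent.Helper449.ZM.NonEx
import Pool.Agent.Helper449.ZM.Fan

open MvPolynomial Pool.Agent.Helper449.ZM
open scoped KaehlerDifferential

namespace Pool.Agent.H709Reg

theorem chiQ_ne {K : Type} [Field K] {x y : K} (hx : x ≠ 0) (hy : y ≠ 0) (k : Fin 2) :
    (![x, y] : Fin 2 → K) k ≠ 0 := by
  fin_cases k
  · exact hx
  · exact hy

section

variable {K : Type} [Field K] [Algebra ℂ K]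

theorem chiQ_gen {x y : K} (h : IntermediateField.adjoin ℂ {x, y} = ⊤) :
    IntermediateField.adjoin ℂ (Set.range (![x, y] : Fin 2 → K)) = ⊤ := by
  refine gen_of_subset ?_ h
  rintro _ (rfl | rfl)
  · exact ⟨0, rfl⟩
  · exact ⟨1, rfl⟩

/-- the quadric `ℙ¹ × ℙ¹` with generic point `((1 : x), (1 : y))` -/
noncomputable def Quad (x y : K) (hx : x ≠ 0) (hy : y ≠ 0)
    (h : IntermediateField.adjoin ℂ {x, y} = ⊤) : ProjVar K :=
  prodVar ![x, y] (chiQ_ne hx hy) (chiQ_gen h)

variable {x y : K} {hx : x ≠ 0} {hy : y ≠ 0} {h : IntermediateField.adjoin ℂ {x, y} = ⊤}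

theorem Quad_isLocOf {R : Subalgebra ℂ K} (hR : (Quad x y hx hy h).IsLocal R) :
    ∃ x' y', (x' = x ∨ x' = x⁻¹) ∧ (y' = y ∨ y' = y⁻¹) ∧
      IsLocOf (Algebra.adjoin ℂ {x', y'}) R := by
  have h0 := prodVar_mem_or hR 0
  have h1 := prodVar_mem_or hR 1
  obtain ⟨x', hx', hxR⟩ : ∃ x', (x' = x ∨ x' = x⁻¹) ∧ x' ∈ R := by
    rcases h0 with h | h
    · exact ⟨_, Or.inl rfl, h⟩
    · exact ⟨_, Or.inr rfl, h⟩
  obtain ⟨y', hy', hyR⟩ : ∃ y', (y' = y ∨ y' = y⁻¹) ∧ y' ∈ R := by
    rcases h1 with h | h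
    · exact ⟨_, Or.inl rfl, h⟩
    · exact ⟨_, Or.inr rfl, h⟩
  refine ⟨x', y', hx', hy', prodVar_isLocOf hR (adj2_le hxR hyR) fun k => ?_⟩
  have mx : x' ∈ Algebra.adjoin ℂ {x', y'} := Algebra.subset_adjoin (by simp)
  have my : y' ∈ Algebra.adjoin ℂ {x', y'} := Algebra.subset_adjoin (by simp)
  fin_cases k
  · rcases hx' with rfl | rfl
    · exact Or.inl mx
    · exact Or.inr mx
  · rcases hy' with rfl | rfl
    · exact Or.inl my
    · exact Or.inr my

theorem Quad_isLocal_of_isLocOf {R : Subalgebra ℂ K} (hloc : LocalSub R)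
    (hR : IsLocOf (Algebra.adjoin ℂ {x, y}) R) : (Quad x y hx hy h).IsLocal R := by
  have mx : x ∈ R := hR.1 (Algebra.subset_adjoin (by simp))
  have my : y ∈ R := hR.1 (Algebra.subset_adjoin (by simp))
  refine isLocal_of _ (i := (∅ : Finset (Fin 2))) (prodVar_x_ne _) (hR.of_le ?_ ?_) hloc
  · refine prodVar_chart_le ?_ ?_
    · intro k _
      fin_cases k
      · exact mx
      · exact my
    · intro k hk
      simp at hk
  · refine (adj2_le ?_ ?_).trans (le_locAt _ _)
    · exact mem_chart_of_notMem (χ := ![x, y]) (h0 := chiQ_ne hx hy) (hgen := chiQ_gen h)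
        (s := ∅) (k := 0) (by simp)
    · exact mem_chart_of_notMem (χ := ![x, y]) (h0 := chiQ_ne hx hy) (hgen := chiQ_gen h)
        (s := ∅) (k := 1) (by simp)

end

section nonex

variable {K : Type} [Field K] [Algebra ℂ K] [Algebra (MvPolynomial (Fin 2) ℂ) K]
  [IsScalarTower ℂ (MvPolynomial (Fin 2) ℂ) K] [IsFractionRing (MvPolynomial (Fin 2) ℂ) K]

/-- the valuation ring of a prime divisor -/
noncomputable def primeVal {q : MvPolynomial (Fin 2) ℂ} (hq : Prime q)
    (hp : (Ideal.span {q}).IsPrime) : ValuationSubring K where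
  carrier := {f | f ∈ atPrime K (Ideal.span {q}) hp}
  mul_mem' := fun h1 h2 => (atPrime K (Ideal.span {q}) hp).mul_mem h1 h2
  one_mem' := (atPrime K (Ideal.span {q}) hp).one_mem
  add_mem' := fun h1 h2 => (atPrime K (Ideal.span {q}) hp).add_mem h1 h2
  zero_mem' := (atPrime K (Ideal.span {q}) hp).zero_mem
  neg_mem' := fun h1 => (atPrime K (Ideal.span {q}) hp).neg_mem h1
  mem_or_inv_mem' := fun f => atPrime_val hq hp f

theorem sigma_fix (σ : K →ₐ[ℂ] K) (y : K) (hy : σ y = y) :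
    ∀ z ∈ IntermediateField.adjoin ℂ {y}, σ z = z := by
  intro z hz
  induction hz using IntermediateField.adjoin_induction with
  | mem z hz => rw [Set.mem_singleton_iff.1 hz]; exact hy
  | algebraMap c => exact σ.commutes c
  | add a b _ _ ha hb => rw [map_add, ha, hb]
  | inv a _ ha => rw [map_inv₀, ha]
  | mul a b _ _ ha hb => rw [map_mul, ha, hb]

theorem xy_notMem (z₁ z₂ : ℂ) (h1 : z₁ ≠ 0) (h2 : z₂ ≠ 0) (h12 : z₁ * z₂ ≠ 1) (y : K)
    (hy : ∀ σ : K →ₐ[ℂ] K, (∀ a : MvPolynomial (Fin 2) ℂ, σ (algebraMap _ K a) =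
      algebraMap (MvPolynomial (Fin 2) ℂ) K
        (MvPolynomial.aeval ![C z₁ * X 0, C z₂ * X 1] a)) → σ y = y) :
    am K (X 0) * am K (X 1) ∉ IntermediateField.adjoin ℂ {y} := by
  obtain ⟨σ, hσ⟩ := exists_sigma K z₁ z₂ h1 h2
  intro hmem
  have h3 := sigma_fix σ y (hy σ hσ) _ hmem
  rw [← am_mul, hσ, map_mul, aeval_X, aeval_X] at h3
  have h4 := am_inj (K := K) h3
  have h5 := congrArg (MvPolynomial.eval (fun _ => (1 : ℂ))) h4
  simp at h5
  exact h12 h5

theorem hno_quad (h : IntermediateField.adjoin ℂ {am K (X 0), am K (X 1)} = ⊤)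
    {L : Type} [Field L] [Algebra ℂ L] (θ : L →ₐ[ℂ] K)
    (e1 : ∃ f, θ f = am K (X 0) * am K (X 1))
    (q : MvPolynomial (Fin 2) ℂ) (hq : Prime q) (hp : (Ideal.span {q}).IsPrime) (T : Set L)
    (hT : IntermediateField.adjoin ℂ T = ⊤)
    (hreg : ∀ g ∈ T, ∀ V : ValuationSubring K, (∀ c : ℂ, algebraMap ℂ K c ∈ V) →
        (∀ f ∈ V, f ∈ atPrime K (Ideal.span {q}) hp) →
        ∀ R, (Quad (am K (X 0)) (am K (X 1)) (am_ne (X_ne_zero 0)) (am_ne (X_ne_zero 1)) h).IsLocal R →
          ValDominates (AlgHom.id ℂ K) V R → θ g ∈ R) : False := by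
  have hx0 : am K (X 0) ≠ 0 := am_ne (X_ne_zero 0)
  have hy0 : am K (X 1) ≠ 0 := am_ne (X_ne_zero 1)
  -- for each valuation ring there is a centre
  have hcen : ∀ V : ValuationSubring K, (∀ c : ℂ, algebraMap ℂ K c ∈ V) →
      ∃ R, (Quad (am K (X 0)) (am K (X 1)) hx0 hy0 h).IsLocal R ∧
        ValDominates (AlgHom.id ℂ K) V R := by
    intro V hV
    obtain ⟨s, hs⟩ := exists_prodVar_chart_le (χ := ![am K (X 0), am K (X 1)])
      (h0 := chiQ_ne hx0 hy0) (hgen := chiQ_gen h) (R := valSub V hV)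
      (fun k => V.mem_or_inv_mem _)
    refine ⟨_, isLocal_locAt (Quad (am K (X 0)) (am K (X 1)) hx0 hy0 h) (prodVar_x_ne s) hs
      (localSub_valSub V hV), ?_, ?_⟩
    · intro f hf
      exact locAt_le hs hf
    · intro f hf hf'
      exact inv_mem_locAt hf hf'
  -- the residue field argument
  have key : ∀ g : K, (∀ V : ValuationSubring K, (∀ c : ℂ, algebraMap ℂ K c ∈ V) →
        (∀ f ∈ V, f ∈ atPrime K (Ideal.span {q}) hp) →
        ∀ R, (Quad (am K (X 0)) (am K (X 1)) hx0 hy0 h).IsLocal R →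
          ValDominates (AlgHom.id ℂ K) V R → g ∈ R) →
      (g ∉ IntermediateField.adjoin ℂ {am K (X 1)} → ∃ c : ℂ, q ∣ X 0 - C c) ∧
      (g ∉ IntermediateField.adjoin ℂ {am K (X 0)} → ∃ c : ℂ, q ∣ X 1 - C c) := by
    intro g hg
    obtain ⟨D, hD, hDR⟩ := J27044.lemma_quadric (am K (X 0)) (am K (X 1)) rfl rfl g
    have hVC : ∀ c : ℂ, algebraMap ℂ K c ∈ primeVal (K := K) hq hp := fun c =>
      (atPrime K (Ideal.span {q}) hp).algebraMap_mem c
    have hall : ∀ V : ValuationSubring K, (∀ c : ℂ, algebraMap ℂ K c ∈ V) →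
        V ≤ primeVal hq hp → (am K D)⁻¹ ∈ V ∧
        (g ∉ IntermediateField.adjoin ℂ {am K (X 1)} → am K (X 0) / am K D ∈ V) ∧
        (g ∉ IntermediateField.adjoin ℂ {am K (X 0)} → am K (X 1) / am K D ∈ V) := by
      intro V hV hle
      obtain ⟨R, hR, hVR⟩ := hcen V hV
      have hgR := hg V hV (fun f hf => hle hf) R hR hVR
      obtain ⟨x', y', hx', hy', hloc⟩ := Quad_isLocOf hR
      have hcases : (IsLocOf (Algebra.adjoin ℂ {am K (X 0), am K (X 1)}) R ∨
          IsLocOf (Algebra.adjoin ℂ {(am K (X 0))⁻¹, am K (X 1)}) R ∨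
          IsLocOf (Algebra.adjoin ℂ {am K (X 0), (am K (X 1))⁻¹}) R ∨
          IsLocOf (Algebra.adjoin ℂ {(am K (X 0))⁻¹, (am K (X 1))⁻¹}) R) := by
        rcases hx' with rfl | rfl <;> rcases hy' with rfl | rfl
        · exact Or.inl hloc
        · exact Or.inr (Or.inr (Or.inl hloc))
        · exact Or.inr (Or.inl hloc)
        · exact Or.inr (Or.inr (Or.inr hloc))
      obtain ⟨r1, r2, r3⟩ := hDR R hcases hgR
      exact ⟨hVR.1 _ r1, fun hh => hVR.1 _ (r2 hh), fun hh => hVR.1 _ (r3 hh)⟩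
    -- constants
    obtain ⟨c0, hc0, hc0'⟩ := J4.exists_const K (primeVal hq hp) hVC ((am K D)⁻¹)
      (fun V hV hle => (hall V hV hle).1)
    have hDq : ¬ q ∣ D := by
      intro hdvd
      have h1 : (am K D)⁻¹ ∈ atPrime K (Ideal.span {q}) hp := (hall _ hVC le_rfl).1
      exact notMem_of_inv_mem hD h1 (Ideal.mem_span_singleton.2 hdvd)
    have hval : ∀ (a : MvPolynomial (Fin 2) ℂ) (c : ℂ),
        (am K a / am K D = algebraMap ℂ K c ∨
          (am K a / am K D - algebraMap ℂ K c)⁻¹ ∉ primeVal (K := K) hq hp) → q ∣ a - C c * D := by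
      intro a c hac
      have hD0 : am K D ≠ 0 := am_ne hD
      by_contra hnd
      have e : am K a / am K D - algebraMap ℂ K c = am K (a - C c * D) / am K D := by
        rw [am_sub, am_mul, am_C]; field_simp
      rcases hac with hac | hac
      · apply hnd
        have : am K (a - C c * D) = am K 0 := by
          have h1 : am K (a - C c * D) / am K D = 0 := by rw [← e, hac, sub_self]
          rcases div_eq_zero_iff.1 h1 with h2 | h2
          · rw [h2]; exact (map_zero _).symm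
          · exact absurd h2 hD0
        rw [am_inj this]; exact dvd_zero q
      · apply hac
        rw [e, inv_div]
        exact ⟨D, a - C c * D, fun hm => hnd (Ideal.mem_span_singleton.1 hm), rfl⟩
    have h1 : q ∣ 1 - C c0 * D := by
      apply hval 1 c0
      have : am K 1 / am K D = (am K D)⁻¹ := by
        rw [am, map_one, one_div]
      rw [this]; exact hc0'
    have hc0ne : c0 ≠ 0 := by
      rintro rfl
      rw [C_0, zero_mul, sub_zero] at h1
      exact hq.not_unit (isUnit_of_dvd_one h1)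
    have final : ∀ (a : MvPolynomial (Fin 2) ℂ) (c : ℂ), q ∣ a - C c * D → ∃ c' : ℂ, q ∣ a - C c' := by
      intro a c hac
      refine ⟨c * c0⁻¹, ?_⟩
      have e : a - C (c * c0⁻¹) = (a - C c * D) - C (c * c0⁻¹) * (1 - C c0 * D) := by
        have h2 : (C (c * c0⁻¹) * C c0 : MvPolynomial (Fin 2) ℂ) = C c := by
          rw [← C_mul]; congr 1; field_simp
        linear_combination (-D) * h2
      rw [e]
      exact dvd_sub hac (Dvd.dvd.mul_left h1 _)
    refine ⟨fun hh => ?_, fun hh => ?_⟩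
    · obtain ⟨c, -, hc'⟩ := J4.exists_const K (primeVal hq hp) hVC (am K (X 0) / am K D)
        (fun V hV hle => (hall V hV hle).2.1 hh)
      exact final _ c (hval _ c hc')
    · obtain ⟨c, -, hc'⟩ := J4.exists_const K (primeVal hq hp) hVC (am K (X 1) / am K D)
        (fun V hV hle => (hall V hV hle).2.2 hh)
      exact final _ c (hval _ c hc')
  -- not all functions depend on one variable only
  have hdep : ∀ (E : IntermediateField ℂ K), am K (X 0) * am K (X 1) ∉ E → ∃ g ∈ T, θ g ∉ E := by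
    intro E hE
    by_contra hcon
    push Not at hcon
    obtain ⟨f, hf⟩ := e1
    apply hE
    rw [← hf]
    have : (⊤ : IntermediateField ℂ L) ≤ E.comap θ := by
      rw [← hT, IntermediateField.adjoin_le_iff]
      intro g hg
      exact hcon g hg
    exact this (show f ∈ (⊤ : IntermediateField ℂ L) from trivial)
  have n1 : am K (X 0) * am K (X 1) ∉ IntermediateField.adjoin ℂ {am K (X 1)} := by
    refine xy_notMem (-1) 1 (by norm_num) one_ne_zero (by norm_num) _ fun σ hσ => ?_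
    rw [am, hσ, aeval_X]
    simp
  have n2 : am K (X 0) * am K (X 1) ∉ IntermediateField.adjoin ℂ {am K (X 0)} := by
    refine xy_notMem 1 (-1) one_ne_zero (by norm_num) (by norm_num) _ fun σ hσ => ?_
    rw [am, hσ, aeval_X]
    simp
  obtain ⟨g1, hg1, hg1'⟩ := hdep _ n1
  obtain ⟨g2, hg2, hg2'⟩ := hdep _ n2
  obtain ⟨a, ha⟩ := (key (θ g1) (hreg g1 hg1)).1 hg1'
  obtain ⟨b, hb⟩ := (key (θ g2) (hreg g2 hg2)).2 hg2'
  exact J8.not_dvd_both q hq a b ha hb

/-- the double cover `ℙ¹ × ℙ¹ ⇢ Y'` of a smooth model of `ℂ(xy, x/y)` is not a morphism -/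
theorem nonex_quad (h : IntermediateField.adjoin ℂ {am K (X 0), am K (X 1)} = ⊤)
    (ι : K →ₐ[ℂ] K) (h0 : ι (am K (X 0)) = am K (X 0) * am K (X 1))
    (h1 : ι (am K (X 1)) = am K (X 0) / am K (X 1))
    (L : Type) [Field L] [Algebra ℂ L] (β : L ≃ₐ[ℂ] K) (Y : ProjVar L) (hY : Y.Smooth)
    (hM : IsMorphism (Quad (am K (X 0)) (am K (X 1)) (am_ne (X_ne_zero 0)) (am_ne (X_ne_zero 1)) h)
      Y (ι.comp (β : L →ₐ[ℂ] K))) : False := by
  have hx0 : am K (X 0) ≠ 0 := am_ne (X_ne_zero 0)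
  have hy0 : am K (X 1) ≠ 0 := am_ne (X_ne_zero 1)
  have hβ : ∀ z, (ι.comp (β : L →ₐ[ℂ] K)) (β.symm z) = ι z := fun z =>
    congrArg ι (β.apply_symm_apply z)
  refine core _ ?_ Y hY (finrank_of_equiv β).le (ι.comp (β : L →ₐ[ℂ] K)) 2 two_ne_zero
    ⟨β.symm (am K (X 0)), (hβ _).trans h0⟩
    ⟨β.symm (am K (X 0) * am K (X 1)), (hβ _).trans ?_⟩
    ⟨β.symm (am K (X 0) / am K (X 1)), (hβ _).trans ?_⟩ ?_ ?_ hM
  · intro p hp
    exact Quad_isLocal_of_isLocOf (localSub_atPrime p hp) (isLocOf_atPrime p hp)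
  · rw [map_mul, h0, h1]; field_simp
  · rw [map_div₀, h0, h1]; field_simp
  · intro f a s hs hf
    obtain ⟨σ, hσ⟩ := exists_sigma K (-1) (-1) (by norm_num) (by norm_num)
    have hcomp : σ.comp ι = ι := by
      apply hom_ext K
      · change σ (ι (am K (X 0))) = ι (am K (X 0))
        rw [h0, map_mul]
        change σ (algebraMap _ K (X 0)) * σ (algebraMap _ K (X 1)) = _
        rw [hσ, hσ, aeval_X, aeval_X]
        simp [am]
      · change σ (ι (am K (X 1))) = ι (am K (X 1))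
        rw [h1, map_div₀]
        change σ (algebraMap _ K (X 0)) / σ (algebraMap _ K (X 1)) = _
        rw [hσ, hσ, aeval_X, aeval_X]
        simp [am]
    have hfix : σ (ι (β f)) = ι (β f) := DFunLike.congr_fun hcomp (β f)
    have hf' : ι (β f) = am K a / am K s := hf
    rw [hf', map_div₀] at hfix
    change σ (algebraMap _ K a) / σ (algebraMap _ K s) = _ at hfix
    rw [hσ, hσ] at hfix
    have hs0 : s ≠ 0 := by rintro rfl; simp at hs
    have hτs : MvPolynomial.aeval ![C (-1) * X 0, C (-1) * X 1] s ≠ (0 : MvPolynomial (Fin 2) ℂ) := by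
      intro h0
      have := (lpz_tau (-1) (-1) s).1
      rw [h0, map_zero] at this
      exact hs this.symm
    refine linear_part_zero (-1) (-1) (by norm_num) (by norm_num) a s ?_
    apply am_inj (K := K)
    have e1 : am K s ≠ 0 := am_ne hs0
    have e2 := am_ne (K := K) hτs
    rw [am_mul, am_mul]
    rw [div_eq_div_iff e2 e1] at hfix
    exact hfix
  · intro q hq hp T hT hreg
    exact hno_quad h (ι.comp (β : L →ₐ[ℂ] K)) ⟨_, (hβ _).trans h0⟩ q hq hp T hT hreg

end nonex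

end Pool.Agent.H709Reg
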