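import Pool.Agent.H709Reg.AH

open MvPolynomial Pool.Agent.Helper449.ZM

namespace Pool.Agent.H709Reg

variable {K M : Type} [Field K] [Algebra ℂ K] [Field M] [Algebra ℂ M]
  [Algebra (MvPolynomial (Fin 2) ℂ) M]
  [IsScalarTower ℂ (MvPolynomial (Fin 2) ℂ) M] [IsFractionRing (MvPolynomial (Fin 2) ℂ) M]

theorem wedge_eq_genForm (d : EllData K) :
    (wedge ![d.x, d.p / (d.x * d.w), d.q] : Form 3 K) = genForm d d.p d.q :=
  funext fun D => wedge3_pq d D

theorem relCan (d : EllData K)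
    (hP : am M (X 0) ≠ 0) (hQ : am M (X 1) ≠ 0)
    (h : IntermediateField.adjoin ℂ {am M (X 0), am M (X 1)} = ⊤)
    (φ : M →ₐ[ℂ] K) (hφ0 : φ (am M (X 0)) = d.p) (hφ1 : φ (am M (X 1)) = d.q) :
    RelativeCanonicalExceptional 3 2 (XVar d) (YVar (am M (X 0)) (am M (X 1)) hP hQ h) φ := by
  have hp0 := p_ne d
  have hq0 := q_ne d
  have h2 := d.two_ne
  have hne : (wedge ![d.x, d.p / (d.x * d.w), d.q] : Form 3 K) ≠ 0 := by
    rw [wedge_eq_genForm]
    obtain ⟨ε, hε, e⟩ := gen3_pq d (Or.inl rfl : d.A = d.A ∨ d.A = d.A⁻¹)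
      (Or.inl rfl : d.B = d.B ∨ d.B = d.B⁻¹)
    obtain ⟨D, hD⟩ := gen3_ne d
    intro h0
    have h1 : gen3 d d.p d.q D = 0 := congrFun h0 D
    rw [e D] at h1
    have hε0 : ε ≠ 0 := by rcases hε with rfl | rfl <;> simp
    exact (mul_ne_zero (mul_ne_zero (mul_ne_zero (neg_ne_zero.2 h2) hε0)
      (div_ne_zero (mul_ne_zero hp0 hq0) (mul_ne_zero d.A_ne d.B_ne))) hD) h1
  have hne2 : (wedge ![am M (X 0), am M (X 1)] : Form 2 M) ≠ 0 := by
    rw [wedge_eq_W]
    exact W_xy_ne_zero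
  refine ⟨_, _, hne, hne2, fun R hR hdvr => ?_⟩
  haveI := hdvr
  have hval : ∀ f : K, f ∈ R ∨ f⁻¹ ∈ R := mem_or_inv_mem_of_dvr (XVar d) hR inferInstance
  set P := am M (X 0) with hPdef
  set Q := am M (X 1) with hQdef
  obtain ⟨s, hs⟩ := exists_prodVar_chart_le (χ := chiY P Q) (h0 := chiY_ne hP hQ)
    (hgen := chiY_gen h) (R := R.comap φ) (fun k => by
      have := hval (φ (chiY P Q k))
      rw [← map_inv₀] at this
      exact this)
  have hlocR := (exists_of_isLocal _ hR).1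
  have hS := isLocal_locAt (YVar P Q hP hQ h) (prodVar_x_ne s) hs (localSub_comap φ hlocR)
  have hdom := dominates_locAt φ hs
  refine ⟨_, hS, hdom, ?_⟩
  obtain ⟨d', hd, α, β, hα, hβ, hloc⟩ := X_nice d hR
  have ep : d'.p = d.p := by rcases hd with rfl | rfl; exacts [rfl, swap_p d]
  have eq : d'.q = d.q := by rcases hd with rfl | rfl; exacts [rfl, swap_q d]
  have mx : d'.x ∈ R := hloc.1 (Algebra.subset_adjoin (by simp))
  have mw : d'.w ∈ R := hloc.1 (Algebra.subset_adjoin (by simp))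
  have mα : α ∈ R := hloc.1 (Algebra.subset_adjoin (by simp))
  have mβ : β ∈ R := hloc.1 (Algebra.subset_adjoin (by simp))
  have ux := isU_x d' mx mw
  have hα0 : α ≠ 0 := by rcases hα with rfl | rfl <;> simp [d'.A_ne]
  have hβ0 : β ≠ 0 := by rcases hβ with rfl | rfl <;> simp [d'.B_ne]
  have hA0 := d'.A_ne
  have hB0 := d'.B_ne
  have hx0 := d'.x_ne
  -- one of the two coordinates is invertible
  have hunit : α⁻¹ ∈ R ∨ β⁻¹ ∈ R := by
    rcases hval (α / β) with h1 | h1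
    · exact not_dvd d' hα hβ hloc h1 (Or.inl (by field_simp))
    · exact not_dvd d' hα hβ hloc h1 (Or.inr (by rw [inv_div]; field_simp))
  -- the key statement: `p^{±1}` and `q^{±1}` are, if regular, equal to `αβ` up to a unit
  have key : ∀ u : K, u ∈ R → (u = d.p ∨ u = d.p⁻¹ ∨ u = d.q ∨ u = d.q⁻¹) →
      IsU R (u / (α * β)) := by
    intro u hu hcase
    rw [← ep, ← eq] at hcase
    rcases hunit with h1 | h1
    · have uα : IsU R α := ⟨hα0, mα, h1⟩
      have uA : IsU R d'.A := (isU_sign hα).1 uα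
      have hform : ∃ c, IsU R c ∧ (u = d'.B * c ∨ u = (d'.B * c)⁻¹) := by
        rcases hcase with rfl | rfl | rfl | rfl
        · exact ⟨d'.A / d'.x, uA.div ux, Or.inl (by rw [EllData.p]; field_simp)⟩
        · exact ⟨d'.A / d'.x, uA.div ux, Or.inr (by rw [EllData.p]; congr 1; field_simp)⟩
        · exact ⟨d'.A⁻¹, uA.inv, Or.inr (by rw [EllData.q]; field_simp)⟩
        · exact ⟨d'.A⁻¹, uA.inv, Or.inl (by rw [EllData.q]; field_simp)⟩
      obtain ⟨c, hc, hform⟩ := hform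
      obtain ⟨c', hc', hform'⟩ := sign_cases hβ hc hform
      have h3 := (isU_div hu mβ hβ0 hc' hform').div uα
      rwa [div_div, mul_comm] at h3
    · have uβ : IsU R β := ⟨hβ0, mβ, h1⟩
      have uB : IsU R d'.B := (isU_sign hβ).1 uβ
      have hform : ∃ c, IsU R c ∧ (u = d'.A * c ∨ u = (d'.A * c)⁻¹) := by
        rcases hcase with rfl | rfl | rfl | rfl
        · exact ⟨d'.B / d'.x, uB.div ux, Or.inl (by rw [EllData.p]; field_simp)⟩
        · exact ⟨d'.B / d'.x, uB.div ux, Or.inr (by rw [EllData.p]; congr 1; field_simp)⟩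
        · exact ⟨d'.B⁻¹, uB.inv, Or.inl (by rw [EllData.q]; field_simp)⟩
        · exact ⟨d'.B⁻¹, uB.inv, Or.inr (by rw [EllData.q]; field_simp)⟩
      obtain ⟨c, hc, hform⟩ := hform
      obtain ⟨c', hc', hform'⟩ := sign_cases hα hc hform
      have h3 := (isU_div hu mα hα0 hc' hform').div uβ
      rwa [div_div] at h3
  -- the generator on `X`
  have hgenX : ∀ g : M, g ≠ 0 → φ g ∈ R → (φ g = d.p ∨ φ g = d.p⁻¹ ∨ φ g = d.q ∨ φ g = d.q⁻¹) →
      Generates R (φ (g / (P * Q)) • (wedge ![d.x, d.p / (d.x * d.w), d.q] : Form 3 K)) := by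
    intro g hg0 hgR hcase
    have hu := key _ hgR hcase
    obtain ⟨ε, hε, e⟩ := gen3_pq d' hα hβ
    have hgf : genForm d d.p d.q = (-2 * ε * (d.p * d.q / (α * β))) • genForm d' α β := by
      have e1 : genForm d d.p d.q = genForm d' d'.p d'.q := by
        rw [ep, eq]
        rcases hd with rfl | rfl
        · rfl
        · rw [genForm_swap]
      rw [e1]
      funext D
      have := e D
      rw [ep, eq] at this
      change gen3 d' d'.p d'.q D = (-2 * ε * (d.p * d.q / (α * β))) * gen3 d' α β D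
      rw [ep, eq]
      exact this
    rw [wedge_eq_genForm, hgf, smul_smul]
    have hε' : IsU R (-2 * ε) := by
      have u2 : IsU R (-2 : K) := ⟨neg_ne_zero.2 h2, R.neg_mem (twoR R), by
        rw [inv_neg]; exact R.neg_mem (halfR R)⟩
      have uε : IsU R ε := by
        rcases hε with rfl | rfl
        · exact ⟨one_ne_zero, R.one_mem, by rw [inv_one]; exact R.one_mem⟩
        · exact ⟨by simp, R.neg_mem R.one_mem, by rw [inv_neg, inv_one]; exact R.neg_mem R.one_mem⟩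
      exact u2.mul uε
    have e5 : φ (g / (P * Q)) * (-2 * ε * (d.p * d.q / (α * β))) =
        -2 * ε * (φ g / (α * β)) := by
      rw [map_div₀, map_mul, hφ0, hφ1]
      field_simp
    rw [e5]
    have hfin := hε'.mul hu
    exact (generates_gen d' hloc).smul hfin.2.1 hfin.2.2 hfin.1
  -- the generator on `Y`
  obtain ⟨p', q', hp', hq', hY⟩ := Y_nice hS
  have hp'0 : p' ≠ 0 := by rcases hp' with rfl | rfl <;> simp [hP]
  have hq'0 : q' ≠ 0 := by rcases hq' with rfl | rfl <;> simp [hQ]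
  have hgY := generates_eta hP hQ hp' hq' (R := locAt ((YVar P Q hP hQ h).chart s) (R.comap φ))
  have hPQ : P * Q ≠ 0 := mul_ne_zero hP hQ
  have hresc : ∀ g : M, (g / (P * Q)) • (wedge ![P, Q] : Form 2 M) = g • eta P Q := by
    intro g
    rw [wedge_pq hP hQ, smul_smul, div_mul_cancel₀ _ hPQ]
  have cp : φ p' = d.p ∨ φ p' = d.p⁻¹ ∨ φ p' = d.q ∨ φ p' = d.q⁻¹ := by
    rcases hp' with rfl | rfl
    · exact Or.inl hφ0
    · exact Or.inr (Or.inl (by rw [map_inv₀, hφ0]))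
  have cq : φ q' = d.p ∨ φ q' = d.p⁻¹ ∨ φ q' = d.q ∨ φ q' = d.q⁻¹ := by
    rcases hq' with rfl | rfl
    · exact Or.inr (Or.inr (Or.inl hφ1))
    · exact Or.inr (Or.inr (Or.inr (by rw [map_inv₀, hφ1])))
  rcases hY with hY | hY
  · have m1 : p' ∈ locAt ((YVar P Q hP hQ h).chart s) (R.comap φ) := by
      have := Subalgebra.mul_mem _ (hY.1 (Algebra.subset_adjoin (by simp) :
        p' / q' ∈ Algebra.adjoin ℂ {p' / q', q'})) (hY.1 (Algebra.subset_adjoin (by simp) :
        q' ∈ Algebra.adjoin ℂ {p' / q', q'}))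
      rwa [div_mul_cancel₀ _ hq'0] at this
    refine ⟨p' / (P * Q), div_ne_zero hp'0 hPQ, ?_, hgenX p' hp'0 (hdom.1 _ m1) cp⟩
    rw [hresc]
    exact hgY.1 hY
  · have m1 : q' ∈ locAt ((YVar P Q hP hQ h).chart s) (R.comap φ) := by
      have := Subalgebra.mul_mem _ (hY.1 (Algebra.subset_adjoin (by simp) :
        q' / p' ∈ Algebra.adjoin ℂ {q' / p', p'})) (hY.1 (Algebra.subset_adjoin (by simp) :
        p' ∈ Algebra.adjoin ℂ {q' / p', p'}))
      rwa [div_mul_cancel₀ _ hp'0] at this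
    refine ⟨q' / (P * Q), div_ne_zero hq'0 hPQ, ?_, hgenX q' hq'0 (hdom.1 _ m1) cq⟩
    rw [hresc]
    exact hgY.2 hY

end Pool.Agent.H709Reg
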