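import Pool.Agent.H709Reg.Setup

open Pool.Agent.Helper449.ZM Pool.Agent.H709Reg

open scoped KaehlerDifferential

namespace Pool.Agent.H709Reg.J27301



variable {K : Type} [Field K] [Algebra ℂ K]

/-- a place of `K` over the point `w = 0` of the elliptic curve -/
theorem exists_place (d : EllData K) (M : Type) [Field M] [Algebra ℂ M]
    [Algebra (MvPolynomial (Fin 2) ℂ) M] [IsScalarTower ℂ (MvPolynomial (Fin 2) ℂ) M]
    [IsFractionRing (MvPolynomial (Fin 2) ℂ) M] (s r : M)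
    (hs : s = algebraMap _ M (MvPolynomial.X 0 : MvPolynomial (Fin 2) ℂ))
    (hr : r = algebraMap _ M (MvPolynomial.X 1 : MvPolynomial (Fin 2) ℂ)) :
    ∃ (κ : Type) (_ : Field κ) (_ : Algebra ℂ κ) (W : ValuationSubring K)
      (hW : ∀ c : ℂ, algebraMap ℂ K c ∈ W) (res : W →+* κ) (j : M →ₐ[ℂ] κ) (ε c : ℂ),
      ε ≠ 0 ∧ c ≠ 0 ∧ c ^ 2 * ε = 1 ∧
      (∀ z : W, (z : K)⁻¹ ∉ W → res z = 0) ∧
      (∀ a : ℂ, res ⟨algebraMap ℂ K a, hW a⟩ = algebraMap ℂ κ a) ∧
      (∃ h : d.x ∈ W, res ⟨d.x, h⟩ = algebraMap ℂ κ ε) ∧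
      (∃ h : d.w ∈ W, res ⟨d.w, h⟩ = 0) ∧
      (∃ h : d.A ∈ W, algebraMap ℂ κ c * res ⟨d.A, h⟩ = j s) ∧
      (∃ h : d.B ∈ W, algebraMap ℂ κ c * res ⟨d.B, h⟩ = j r) := by
  classical
  -- the polynomial ring and the prime (X0)
  let P3 := MvPolynomial (Fin 3) ℂ
  let Q : Ideal P3 := Ideal.span {MvPolynomial.X 0}
  have hQ : Q.IsPrime := by
    rw [Ideal.span_singleton_prime (MvPolynomial.X_ne_zero 0)]
    exact MvPolynomial.X_prime
  have hinj : Function.Injective (MvPolynomial.aeval ![d.w, d.A, d.B] : P3 →ₐ[ℂ] K) := d.indep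
  have hunit : ∀ y : Q.primeCompl, IsUnit (((MvPolynomial.aeval ![d.w, d.A, d.B] : P3 →ₐ[ℂ] K) : P3 →+* K) y) := by
    intro y
    apply IsUnit.mk0
    intro h0
    have h1 : (y : P3) = 0 := hinj (by simpa using h0)
    exact y.2 (by rw [h1]; exact Q.zero_mem)
  obtain ⟨W, hWr, hloc⟩ := IsLocalRing.exists_factor_valuationRing (R := Localization.AtPrime Q) (K := K)
    (IsLocalization.lift hunit)
  let F : Localization.AtPrime Q →+* K := IsLocalization.lift hunit
  have hF : ∀ p : P3, F (algebraMap P3 (Localization.AtPrime Q) p) = MvPolynomial.aeval ![d.w, d.A, d.B] p := by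
    intro p
    exact IsLocalization.lift_eq hunit p
  have hmem : ∀ p : P3, (MvPolynomial.aeval ![d.w, d.A, d.B] p : K) ∈ W := by
    intro p
    rw [← hF]
    exact hWr _
  let G : P3 →+* W := ((MvPolynomial.aeval ![d.w, d.A, d.B] : P3 →ₐ[ℂ] K) : P3 →+* K).codRestrict W.toSubring hmem
  have hG : ∀ p : P3, IsUnit (G p) → p ∉ Q := by
    intro p hp hpQ
    have h1 : (F.codRestrict W.toSubring hWr) (algebraMap P3 (Localization.AtPrime Q) p) = G p := by
      apply Subtype.ext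
      exact hF p
    rw [← h1] at hp
    have h2 := hloc.map_nonunit _ hp
    exact ((IsLocalization.AtPrime.isUnit_to_map_iff (Localization.AtPrime Q) Q p).mp h2) hpQ
  have hG' : ∀ p : P3, p ∉ Q → IsUnit (G p) := by
    intro p hp
    have h2 := (IsLocalization.AtPrime.isUnit_to_map_iff (Localization.AtPrime Q) Q p).mpr hp
    have h1 : (F.codRestrict W.toSubring hWr) (algebraMap P3 (Localization.AtPrime Q) p) = G p := by
      apply Subtype.ext
      exact hF p
    rw [← h1]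
    exact h2.map _
  have hW : ∀ c : ℂ, algebraMap ℂ K c ∈ W := by
    intro c
    have := hmem (MvPolynomial.C c)
    simpa using this
  have hw : d.w ∈ W := by simpa using hmem (MvPolynomial.X 0)
  have hA : d.A ∈ W := by simpa using hmem (MvPolynomial.X 1)
  have hB : d.B ∈ W := by simpa using hmem (MvPolynomial.X 2)
  have hx0 : d.x ≠ 0 := by
    intro h
    have := d.rel
    rw [h] at this
    simp at this
  have hx : d.x ∈ W := by
    rcases W.mem_or_inv_mem d.x with h | h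
    · exact h
    · have h1 : d.x = d.w ^ 2 + d.x⁻¹ := by
        have h2 := d.rel
        field_simp
        linear_combination h2
      rw [h1]
      exact W.add_mem _ _ (pow_mem hw 2) h
  let κ := IsLocalRing.ResidueField W
  let res : W →+* κ := IsLocalRing.residue W
  let cst : ℂ →+* W := (algebraMap ℂ K).codRestrict W.toSubring hW
  let algκ : Algebra ℂ κ := (res.comp cst).toAlgebra
  have hcst : ∀ a : ℂ, res ⟨algebraMap ℂ K a, hW a⟩ = algebraMap ℂ κ a := fun a => rfl
  have hres0 : ∀ z : W, res z = 0 ↔ ¬ IsUnit z := by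
    intro z
    exact (IsLocalRing.residue_eq_zero_iff z).trans (IsLocalRing.mem_maximalIdeal z)
  have hresw : res ⟨d.w, hw⟩ = 0 := by
    rw [hres0]
    intro hu
    have h1 : G (MvPolynomial.X 0) = ⟨d.w, hw⟩ := by
      apply Subtype.ext
      change (MvPolynomial.aeval ![d.w, d.A, d.B] (MvPolynomial.X 0 : P3) : K) = d.w
      simp
    rw [← h1] at hu
    exact hG _ hu (Ideal.subset_span rfl)
  have hxsq : (res ⟨d.x, hx⟩) ^ 2 = 1 := by
    have h1 : (⟨d.x, hx⟩ : W) ^ 2 = ⟨d.w, hw⟩ ^ 2 * ⟨d.x, hx⟩ + 1 := by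
      apply Subtype.ext
      change d.x ^ 2 = d.w ^ 2 * d.x + 1
      linear_combination d.rel
    have h2 := congrArg res h1
    rw [map_pow, map_add, map_mul, map_pow, hresw, map_one] at h2
    rw [h2]; ring
  obtain ⟨ε, c, hε, hc, hcε, hresx⟩ : ∃ ε c : ℂ, ε ≠ 0 ∧ c ≠ 0 ∧ c ^ 2 * ε = 1 ∧
      res ⟨d.x, hx⟩ = algebraMap ℂ κ ε := by
    rcases (eq_or_eq_neg_of_sq_eq_sq (res ⟨d.x, hx⟩) 1 (by rw [hxsq, one_pow])) with h | h
    · exact ⟨1, 1, one_ne_zero, one_ne_zero, by norm_num, by rw [h, map_one]⟩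
    · refine ⟨-1, Complex.I, by norm_num, Complex.I_ne_zero, by rw [Complex.I_sq]; norm_num, ?_⟩
      rw [h, map_neg, map_one]
  -- the residue hom on polynomials
  let a' : κ := algebraMap ℂ κ c * res ⟨d.A, hA⟩
  let b' : κ := algebraMap ℂ κ c * res ⟨d.B, hB⟩
  let gg : MvPolynomial (Fin 2) ℂ →ₐ[ℂ] κ := MvPolynomial.aeval ![a', b']
  let up : MvPolynomial (Fin 2) ℂ →ₐ[ℂ] P3 :=
    MvPolynomial.aeval ![MvPolynomial.C c * MvPolynomial.X 1, MvPolynomial.C c * MvPolynomial.X 2]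
  let dn : P3 →ₐ[ℂ] MvPolynomial (Fin 2) ℂ :=
    MvPolynomial.aeval ![0, MvPolynomial.C c⁻¹ * MvPolynomial.X 0, MvPolynomial.C c⁻¹ * MvPolynomial.X 1]
  have hdnC : ∀ a : ℂ, dn (MvPolynomial.C a) = MvPolynomial.C a := fun a => dn.commutes a
  have hdn0 : dn (MvPolynomial.X 0) = 0 := MvPolynomial.aeval_X _ _
  have hdn1 : dn (MvPolynomial.X 1) = MvPolynomial.C c⁻¹ * MvPolynomial.X 0 := MvPolynomial.aeval_X _ _
  have hdn2 : dn (MvPolynomial.X 2) = MvPolynomial.C c⁻¹ * MvPolynomial.X 1 := MvPolynomial.aeval_X _ _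
  have hup0 : up (MvPolynomial.X 0) = MvPolynomial.C c * MvPolynomial.X 1 := MvPolynomial.aeval_X _ _
  have hup1 : up (MvPolynomial.X 1) = MvPolynomial.C c * MvPolynomial.X 2 := MvPolynomial.aeval_X _ _
  have hdnup : ∀ f, dn (up f) = f := by
    have h1 : (dn.comp up) = AlgHom.id ℂ _ := by
      apply MvPolynomial.algHom_ext
      intro i
      fin_cases i
      · change dn (up (MvPolynomial.X 0)) = MvPolynomial.X 0
        rw [hup0, map_mul, hdnC, hdn1, ← mul_assoc, ← MvPolynomial.C_mul, mul_inv_cancel₀ hc,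
          MvPolynomial.C_1, one_mul]
      · change dn (up (MvPolynomial.X 1)) = MvPolynomial.X 1
        rw [hup1, map_mul, hdnC, hdn2, ← mul_assoc, ← MvPolynomial.C_mul, mul_inv_cancel₀ hc,
          MvPolynomial.C_1, one_mul]
    intro f
    exact DFunLike.congr_fun h1 f
  have hdnQ : ∀ p ∈ Q, dn p = 0 := by
    intro p hp
    obtain ⟨q, rfl⟩ := Ideal.mem_span_singleton'.mp hp
    rw [map_mul]
    rw [hdn0, mul_zero]
  let GG : P3 →ₐ[ℂ] κ := { (res.comp G) with
    commutes' := by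
      intro r
      change res (G (MvPolynomial.C r)) = algebraMap ℂ κ r
      rw [← hcst]
      congr 1
      apply Subtype.ext
      change (MvPolynomial.aeval ![d.w, d.A, d.B] (MvPolynomial.C r : P3) : K) = algebraMap ℂ K r
      simp }
  have hGGX1 : GG (MvPolynomial.X 1) = res ⟨d.A, hA⟩ := by
    change res (G (MvPolynomial.X 1)) = _
    congr 1
    apply Subtype.ext
    change (MvPolynomial.aeval ![d.w, d.A, d.B] (MvPolynomial.X 1 : P3) : K) = d.A
    simp
  have hGGX2 : GG (MvPolynomial.X 2) = res ⟨d.B, hB⟩ := by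
    change res (G (MvPolynomial.X 2)) = _
    congr 1
    apply Subtype.ext
    change (MvPolynomial.aeval ![d.w, d.A, d.B] (MvPolynomial.X 2 : P3) : K) = d.B
    simp
  have hgg : ∀ f, gg f = GG (up f) := by
    have h1 : gg = GG.comp up := by
      apply MvPolynomial.algHom_ext
      intro i
      have hC : GG (MvPolynomial.C c) = algebraMap ℂ κ c := GG.commutes c
      fin_cases i
      · simp only [gg, up, AlgHom.comp_apply, MvPolynomial.aeval_X]
        change a' = GG (MvPolynomial.C c * MvPolynomial.X 1)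
        rw [map_mul, hC, hGGX1]
      · simp only [gg, up, AlgHom.comp_apply, MvPolynomial.aeval_X]
        change b' = GG (MvPolynomial.C c * MvPolynomial.X 2)
        rw [map_mul, hC, hGGX2]
    intro f
    rw [h1]; rfl
  have hggi : Function.Injective gg := by
    rw [injective_iff_map_eq_zero]
    intro f hf
    rw [hgg] at hf
    have h1 : up f ∈ Q := by
      by_contra hn
      have h2 := hG' _ hn
      exact ((hres0 _).mp hf) h2
    rw [← hdnup f]
    exact hdnQ _ h1
  let j : M →ₐ[ℂ] κ := IsFractionRing.liftAlgHom (g := gg) hggi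
  have hj : ∀ f, j (algebraMap (MvPolynomial (Fin 2) ℂ) M f) = gg f := by
    intro f
    exact IsFractionRing.lift_algebraMap hggi f
  refine ⟨κ, inferInstance, inferInstance, W, hW, res, j, ε, c, hε, hc, hcε, ?_, hcst,
    ⟨hx, hresx⟩, ⟨hw, hresw⟩, ⟨hA, ?_⟩, ⟨hB, ?_⟩⟩
  · intro z hz
    rw [hres0]
    intro hu
    apply hz
    obtain ⟨u, hu⟩ := hu
    have h1 : (z : K)⁻¹ = ((↑(u⁻¹) : W) : K) := by
      have h2 : (z : K) * ((↑(u⁻¹) : W) : K) = 1 := by
        rw [← hu]
        have h3 : ((u : W) * (↑(u⁻¹) : W)) = 1 := u.mul_inv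
        exact congrArg (Subtype.val) h3
      exact (eq_inv_of_mul_eq_one_right h2).symm
    rw [h1]
    exact (↑(u⁻¹) : W).2
  · rw [hs, hj]
    simp [gg, a']
  · rw [hr, hj]
    simp [gg, b']

end Pool.Agent.H709Reg.J27301
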