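import Pool.Agent.H709Reg.XVar
import Pool.Agent.H709Reg.J27301
import Pool.Agent.H709Reg.NonEx

open MvPolynomial Pool.Agent.Helper449.ZM
open scoped KaehlerDifferential

namespace Pool.Agent.H709Reg

section

variable {K κ M : Type} [Field K] [Algebra ℂ K] [Field κ] [Algebra ℂ κ] [Field M] [Algebra ℂ M]

/-- the elements of `W` with residue in `j(R')` -/
def liftSub (W : ValuationSubring K) (hW : ∀ c : ℂ, algebraMap ℂ K c ∈ W) (res : W →+* κ)
    (hres : ∀ a : ℂ, res ⟨algebraMap ℂ K a, hW a⟩ = algebraMap ℂ κ a) (j : M →ₐ[ℂ] κ)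
    (R' : Subalgebra ℂ M) : Subalgebra ℂ K where
  carrier := {z | ∃ hz : z ∈ W, ∃ t ∈ R', res ⟨z, hz⟩ = j t}
  mul_mem' := by
    rintro a b ⟨ha, t, ht, e⟩ ⟨hb, t', ht', e'⟩
    refine ⟨W.mul_mem _ _ ha hb, t * t', R'.mul_mem ht ht', ?_⟩
    rw [map_mul, ← e, ← e', ← map_mul]; rfl
  add_mem' := by
    rintro a b ⟨ha, t, ht, e⟩ ⟨hb, t', ht', e'⟩
    refine ⟨W.add_mem _ _ ha hb, t + t', R'.add_mem ht ht', ?_⟩
    rw [map_add, ← e, ← e', ← map_add]; rfl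
  algebraMap_mem' c := ⟨hW c, algebraMap ℂ M c, R'.algebraMap_mem c, by rw [hres, j.commutes]⟩

variable {W : ValuationSubring K} {hW : ∀ c : ℂ, algebraMap ℂ K c ∈ W} {res : W →+* κ}
    {hres : ∀ a : ℂ, res ⟨algebraMap ℂ K a, hW a⟩ = algebraMap ℂ κ a} {j : M →ₐ[ℂ] κ}
    {R' : Subalgebra ℂ M}

theorem inv_res (hnon : ∀ z : W, (z : K)⁻¹ ∉ W → res z = 0) {z : K} (hz : z ∈ W)
    {k : κ} (hk : k ≠ 0) (e : res ⟨z, hz⟩ = k) : ∃ h : z⁻¹ ∈ W, res ⟨z⁻¹, h⟩ = k⁻¹ := by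
  have h : z⁻¹ ∈ W := by
    by_contra hcon
    exact hk (e ▸ hnon ⟨z, hz⟩ hcon)
  refine ⟨h, ?_⟩
  have hz0 : z ≠ 0 := by
    rintro rfl
    apply hk
    rw [← e]
    have : (⟨0, hz⟩ : W) = 0 := rfl
    rw [this, map_zero]
  have h1 : res ⟨z, hz⟩ * res ⟨z⁻¹, h⟩ = 1 := by
    rw [← map_mul]
    have : (⟨z, hz⟩ * ⟨z⁻¹, h⟩ : W) = 1 := Subtype.ext (mul_inv_cancel₀ hz0)
    rw [this, map_one]
  rw [e] at h1
  exact (eq_inv_of_mul_eq_one_right h1)

theorem localSub_liftSub (hnon : ∀ z : W, (z : K)⁻¹ ∉ W → res z = 0) (hR' : LocalSub R') :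
    LocalSub (liftSub W hW res hres j R') := by
  rintro f ⟨hf, t, ht, e⟩ g ⟨hg, u, hu, e'⟩ hfg
  have hsum : t + u = 1 := by
    have h0 : j (t + u) = j 1 := by
      rw [map_add, map_one, ← e, ← e', ← map_add]
      have : (⟨f, hf⟩ + ⟨g, hg⟩ : W) = 1 := Subtype.ext hfg
      rw [this, map_one]
    exact j.toRingHom.injective h0
  have key : ∀ (f : K) (hf : f ∈ W) (t : M), res ⟨f, hf⟩ = j t → t ≠ 0 → t⁻¹ ∈ R' →
      f ≠ 0 ∧ f⁻¹ ∈ liftSub W hW res hres j R' := by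
    intro f hf t e ht0 htR
    have hj : j t ≠ 0 := (map_ne_zero j).2 ht0
    obtain ⟨h1, h2⟩ := inv_res hnon hf hj e
    refine ⟨?_, h1, t⁻¹, htR, by rw [h2, map_inv₀]⟩
    rintro rfl
    apply hj
    rw [← e]
    have : (⟨0, hf⟩ : W) = 0 := rfl
    rw [this, map_zero]
  rcases hR' t ht u hu hsum with h | h
  · exact Or.inl (key f hf t e h.1 h.2)
  · exact Or.inr (key g hg u e' h.1 h.2)

end

section slice

variable {K M : Type} [Field K] [Algebra ℂ K] [Field M] [Algebra ℂ M]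
  [Algebra (MvPolynomial (Fin 2) ℂ) M]
  [IsScalarTower ℂ (MvPolynomial (Fin 2) ℂ) M] [IsFractionRing (MvPolynomial (Fin 2) ℂ) M]

theorem slice (d : EllData K)
    (h : IntermediateField.adjoin ℂ {am M (X 0), am M (X 1)} = ⊤)
    (φ : M →ₐ[ℂ] K) (hφ0 : φ (am M (X 0)) = d.p) (hφ1 : φ (am M (X 1)) = d.q)
    (ι : M →ₐ[ℂ] M) (h0 : ι (am M (X 0)) = am M (X 0) * am M (X 1))
    (h1 : ι (am M (X 1)) = am M (X 0) / am M (X 1))
    (L : Type) [Field L] [Algebra ℂ L] (β : L →ₐ[ℂ] M) (Y : ProjVar L)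
    (hM : IsMorphism (XVar d) Y (φ.comp β)) :
    IsMorphism (Quad (am M (X 0)) (am M (X 1)) (am_ne (X_ne_zero 0)) (am_ne (X_ne_zero 1)) h)
      Y (ι.comp β) := by
  obtain ⟨κ, _, _, W, hW, res, j, ε, c, hε, hc, hcε, hnon, hres, ⟨hxW, ex⟩, ⟨hwW, ew⟩, ⟨hAW, eA⟩,
    ⟨hBW, eB⟩⟩ := J27301.exists_place d M (am M (X 0)) (am M (X 1)) rfl rfl
  have hs0 : am M (X 0) ≠ 0 := am_ne (X_ne_zero 0)
  have hr0 : am M (X 1) ≠ 0 := am_ne (X_ne_zero 1)
  have hck : algebraMap ℂ κ c ≠ 0 := (map_ne_zero _).2 hc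
  have hεk : algebraMap ℂ κ ε ≠ 0 := (map_ne_zero _).2 hε
  have hA0 := d.A_ne
  have hB0 := d.B_ne
  have hx0 := d.x_ne
  -- residues of `A`, `B` and their inverses
  have eA' : res ⟨d.A, hAW⟩ = j (algebraMap ℂ M c⁻¹ * am M (X 0)) := by
    rw [map_mul, j.commutes, ← eA, map_inv₀]; field_simp
  have eB' : res ⟨d.B, hBW⟩ = j (algebraMap ℂ M c⁻¹ * am M (X 1)) := by
    rw [map_mul, j.commutes, ← eB, map_inv₀]; field_simp
  have hcM : algebraMap ℂ M c⁻¹ ≠ 0 := (map_ne_zero _).2 (inv_ne_zero hc)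
  have jA : j (algebraMap ℂ M c⁻¹ * am M (X 0)) ≠ 0 := (map_ne_zero j).2 (mul_ne_zero hcM hs0)
  have jB : j (algebraMap ℂ M c⁻¹ * am M (X 1)) ≠ 0 := (map_ne_zero j).2 (mul_ne_zero hcM hr0)
  obtain ⟨hAW', eAi⟩ := inv_res hnon hAW jA eA'
  obtain ⟨hBW', eBi⟩ := inv_res hnon hBW jB eB'
  obtain ⟨hxW', exi⟩ := inv_res hnon hxW hεk ex
  -- the comparison of `res ∘ φ` and `j ∘ ι`
  have comp' : ∀ f : M, ∃ z : W, (z : K) = φ f ∧ res z = j (ι f) := by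
    let F : IntermediateField ℂ M :=
      { carrier := {f | ∃ z : W, (z : K) = φ f ∧ res z = j (ι f)}
        mul_mem' := by
          rintro a b ⟨za, ha, ea⟩ ⟨zb, hb, eb⟩
          exact ⟨za * zb, by rw [map_mul, ← ha, ← hb]; rfl, by rw [map_mul, ea, eb, map_mul, map_mul]⟩
        add_mem' := by
          rintro a b ⟨za, ha, ea⟩ ⟨zb, hb, eb⟩
          exact ⟨za + zb, by rw [map_add, ← ha, ← hb]; rfl, by rw [map_add, ea, eb, map_add, map_add]⟩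
        algebraMap_mem' := by
          intro a
          exact ⟨⟨_, hW a⟩, (φ.commutes a).symm, by rw [hres, ι.commutes, j.commutes]⟩
        inv_mem' := by
          rintro a ⟨z, ha, ea⟩
          by_cases ha0 : a = 0
          · subst ha0
            exact ⟨0, by simp, by simp⟩
          · have hj : j (ι a) ≠ 0 := (map_ne_zero j).2 ((map_ne_zero ι).2 ha0)
            obtain ⟨m1, m2⟩ := inv_res hnon z.2 hj ea
            exact ⟨⟨_, m1⟩, by rw [map_inv₀, ← ha], by rw [m2, map_inv₀, map_inv₀]⟩ }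
    have hF : F = ⊤ := by
      rw [eq_top_iff, ← h, IntermediateField.adjoin_le_iff]
      rintro _ (rfl | rfl)
      · -- `p = A B / x`
        refine ⟨⟨d.A, hAW⟩ * ⟨d.B, hBW⟩ * ⟨d.x⁻¹, hxW'⟩, ?_, ?_⟩
        · rw [hφ0, EllData.p, div_eq_mul_inv]; rfl
        · have h5 : (algebraMap ℂ κ c) ^ 2 * algebraMap ℂ κ ε = 1 := by
            rw [← map_pow, ← map_mul, hcε, map_one]
          rw [map_mul, map_mul, exi, h0, map_mul, ← eA, ← eB]
          field_simp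
          linear_combination (-(res ⟨d.A, hAW⟩ * res ⟨d.B, hBW⟩)) * h5
      · refine ⟨⟨d.A, hAW⟩ * ⟨d.B⁻¹, hBW'⟩, ?_, ?_⟩
        · rw [hφ1, EllData.q, div_eq_mul_inv]; rfl
        · have h6 : (algebraMap ℂ M c⁻¹ * am M (X 0)) * (algebraMap ℂ M c⁻¹ * am M (X 1))⁻¹ =
              am M (X 0) / am M (X 1) := by
            rw [mul_inv, mul_mul_mul_comm, mul_inv_cancel₀ hcM, one_mul, div_eq_mul_inv]
          rw [map_mul, eA', eBi, h1, ← h6, map_mul j _ (algebraMap ℂ M c⁻¹ * am M (X 1))⁻¹]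
          congr 1
          exact (map_inv₀ j _).symm
    intro f
    have : f ∈ F := by rw [hF]; trivial
    exact this
  have comp : ∀ f : M, ∃ hf : φ f ∈ W, res ⟨φ f, hf⟩ = j (ι f) := by
    intro f
    obtain ⟨z, hz, ez⟩ := comp' f
    have hf : φ f ∈ W := by rw [← hz]; exact z.2
    refine ⟨hf, ?_⟩
    rw [← ez]
    congr 1
    exact Subtype.ext hz.symm
  -- now the morphism
  intro R' hR'
  obtain ⟨hloc', -⟩ := exists_of_isLocal _ hR'
  have hor0 := prodVar_mem_or hR' 0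
  have hor1 := prodVar_mem_or hR' 1
  simp only [Matrix.cons_val] at hor0 hor1
  set R₁ := liftSub W hW res hres j R' with hR₁
  have hloc₁ : LocalSub R₁ := localSub_liftSub hnon hloc'
  have mx : d.x ∈ R₁ := ⟨hxW, algebraMap ℂ M ε, R'.algebraMap_mem ε, by rw [ex, j.commutes]⟩
  have mw : d.w ∈ R₁ := ⟨hwW, 0, R'.zero_mem, by rw [ew, map_zero]⟩
  have mA : am M (X 0) ∈ R' → d.A ∈ R₁ := fun hh =>
    ⟨hAW, _, R'.mul_mem (R'.algebraMap_mem _) hh, eA'⟩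
  have mB : am M (X 1) ∈ R' → d.B ∈ R₁ := fun hh =>
    ⟨hBW, _, R'.mul_mem (R'.algebraMap_mem _) hh, eB'⟩
  have mA' : (am M (X 0))⁻¹ ∈ R' → d.A⁻¹ ∈ R₁ := fun hh =>
    ⟨hAW', (algebraMap ℂ M c⁻¹ * am M (X 0))⁻¹, by
      rw [mul_inv, ← map_inv₀]; exact R'.mul_mem (R'.algebraMap_mem _) hh,
      by rw [eAi]; exact (map_inv₀ j _).symm⟩
  have mB' : (am M (X 1))⁻¹ ∈ R' → d.B⁻¹ ∈ R₁ := fun hh =>
    ⟨hBW', (algebraMap ℂ M c⁻¹ * am M (X 1))⁻¹, by
      rw [mul_inv, ← map_inv₀]; exact R'.mul_mem (R'.algebraMap_mem _) hh,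
      by rw [eBi]; exact (map_inv₀ j _).symm⟩
  have blk : ∀ C : K, C ≠ 0 → (C ∈ R₁ ∨ C⁻¹ ∈ R₁) → ∃ k : Fin 4, ∀ i,
      ![1, d.x, C, C * d.w] i / ![1, d.x, C, C * d.w] k ∈ R₁ := by
    intro C hC hor
    rcases hor with hor | hor
    · refine ⟨0, fun i => ?_⟩
      fin_cases i
      · simp [R₁.one_mem]
      · simpa using mx
      · simpa using hor
      · simpa using R₁.mul_mem hor mw
    · refine ⟨2, fun i => ?_⟩
      fin_cases i
      · simpa using hor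
      · simpa [div_eq_mul_inv] using R₁.mul_mem mx hor
      · simp [hC, R₁.one_mem]
      · have : C * d.w / C = d.w := by field_simp
        simpa [this] using mw
  obtain ⟨k1, hk1⟩ := blk d.A hA0 (hor0.imp mA mA')
  obtain ⟨k2, hk2⟩ := blk d.B hB0 (hor1.imp mB mB')
  have hchart : (XVar d).chart (![0, k1, k2] : Fin 3 → Fin 4) ≤ R₁ := by
    refine blockVar_chart_le fun k i => ?_
    fin_cases k
    · change ![1, d.x, d.w, d.x * d.w] i / ![1, d.x, d.w, d.x * d.w] 0 ∈ R₁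
      fin_cases i
      · simp [R₁.one_mem]
      · simpa using mx
      · simpa using mw
      · simpa using R₁.mul_mem mx mw
    · exact hk1 i
    · exact hk2 i
  have hloc := isLocal_locAt (XVar d) (blockVar_x_ne _) hchart hloc₁
  obtain ⟨S, hS, hdom⟩ := hM _ hloc
  refine ⟨S, hS, fun f hf => ?_, fun f hf hf' => ?_⟩
  · obtain ⟨hz, t, ht, e⟩ := locAt_le hchart (hdom.1 f hf)
    obtain ⟨hz', e'⟩ := comp (β f)
    have h7 : j (ι (β f)) = j t := by rw [← e', ← e]; rfl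
    have h8 : ι (β f) = t := j.toRingHom.injective h7
    change ι (β f) ∈ R'
    rw [h8]; exact ht
  · by_cases hf0 : f = 0
    · subst hf0; simp [S.zero_mem]
    · refine hdom.2 f hf (inv_mem_locAt (hdom.1 f hf) ?_)
      obtain ⟨hz', e'⟩ := comp (β f)
      have hj : j (ι (β f)) ≠ 0 :=
        (map_ne_zero j).2 ((map_ne_zero ι).2 ((map_ne_zero β).2 hf0))
      obtain ⟨m1, m2⟩ := inv_res hnon hz' hj e'
      exact ⟨m1, (ι (β f))⁻¹, hf', m2.trans (map_inv₀ j _).symm⟩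

end slice

end Pool.Agent.H709Reg
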