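import Pool.Agent.H709Reg.AH
import Pool.Agent.H709Reg.RelCan
import Pool.Agent.H709Reg.NonEx
import Pool.Agent.H709Reg.Slice
import Pool.Agent.H709Reg.J27297
import Pool.Agent.H709Reg.J27398
import Pool.Agent.H709Reg.J27399
import Pool.Agent.H709Reg.XProps
import Pool.Agent.Helper449.ZM.NonEx

open MvPolynomial
open Pool.Agent.Helper449.ZM

namespace Pool.Agent.H709Reg

theorem indep_iota (M : Type) [Field M] [Algebra ℂ M]
    [Algebra (MvPolynomial (Fin 2) ℂ) M]
    [IsScalarTower ℂ (MvPolynomial (Fin 2) ℂ) M] [IsFractionRing (MvPolynomial (Fin 2) ℂ) M] :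
    AlgebraicIndependent ℂ ![am M (X 0) * am M (X 1), am M (X 0) / am M (X 1)] := by
  have hA : am M (X 0) ≠ 0 := am_ne (X_ne_zero 0)
  have hB : am M (X 1) ≠ 0 := am_ne (X_ne_zero 1)
  have halg : Algebra.IsAlgebraic (IntermediateField.adjoin ℂ
      (Set.range ![am M (X 0) * am M (X 1), am M (X 0) / am M (X 1)])) M := by
    have hsub := IntermediateField.subset_adjoin ℂ
      (Set.range ![am M (X 0) * am M (X 1), am M (X 0) / am M (X 1)])
    set F := IntermediateField.adjoin ℂ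
      (Set.range ![am M (X 0) * am M (X 1), am M (X 0) / am M (X 1)]) with hF
    have hpF : am M (X 0) * am M (X 1) ∈ F := hsub ⟨0, rfl⟩
    have hqF : am M (X 0) / am M (X 1) ∈ F := hsub ⟨1, rfl⟩
    have hA2 : am M (X 0) ^ 2 = (am M (X 0) * am M (X 1)) * (am M (X 0) / am M (X 1)) := by
      field_simp
    have hA2i : IsIntegral F (am M (X 0) ^ 2) := by
      rw [hA2]
      exact (J27398.trdeg_eq_mem hpF).isIntegral.mul (J27398.trdeg_eq_mem hqF).isIntegral
    have hAi : IsIntegral F (am M (X 0)) := IsIntegral.of_pow (n := 2) (by norm_num) hA2i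
    have hBe : am M (X 1) = am M (X 0) * (am M (X 0) / am M (X 1))⁻¹ := by
      field_simp
    have hBi : IsAlgebraic F (am M (X 1)) := by
      have h1 : IsAlgebraic F (am M (X 0) * (am M (X 0) / am M (X 1))⁻¹) :=
        hAi.isAlgebraic.mul (J27398.trdeg_eq_mem (F.inv_mem hqF))
      rwa [← hBe] at h1
    have hcl : ∀ z : M, z ∈ (algebraicClosure F M) := by
      intro z
      have hz : z ∈ IntermediateField.adjoin ℂ {am M (X 0), am M (X 1)} := by
        rw [gen_am]; trivial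
      have hle : IntermediateField.adjoin ℂ {am M (X 0), am M (X 1)} ≤
          (algebraicClosure F M).restrictScalars ℂ := by
        rw [IntermediateField.adjoin_le_iff]
        rintro y (rfl | rfl)
        · exact mem_algebraicClosure_iff.2 hAi.isAlgebraic
        · exact mem_algebraicClosure_iff.2 hBi
      exact hle hz
    exact ⟨fun z => mem_algebraicClosure_iff.1 (hcl z)⟩
  haveI h2 := IntermediateField.isAlgebraic_adjoin_iff_top.1 halg
  have h3 := Algebra.IsAlgebraic.isTranscendenceBasis_of_lift_le_trdeg_of_finite (R := ℂ)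
    ![am M (X 0) * am M (X 1), am M (X 0) / am M (X 1)] (by
      rw [J6.trdeg_eq M]
      simp)
  exact h3.1

theorem fieldRange_eq {K M : Type} [Field K] [Algebra ℂ K] [Field M] [Algebra ℂ M]
    [Algebra (MvPolynomial (Fin 2) ℂ) M]
    [IsScalarTower ℂ (MvPolynomial (Fin 2) ℂ) M] [IsFractionRing (MvPolynomial (Fin 2) ℂ) M]
    (φ : M →ₐ[ℂ] K) (p q : K) (h0 : φ (am M (X 0)) = p) (h1 : φ (am M (X 1)) = q) :
    φ.fieldRange = IntermediateField.adjoin ℂ {p, q} := by
  have h := IntermediateField.adjoin_map ℂ {am M (X 0), am M (X 1)} φ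
  rw [gen_am, Set.image_pair, h0, h1] at h
  rw [← h]
  exact (AlgHom.fieldRange_eq_map φ)

theorem closed_fieldRange {K M : Type} [Field K] [Algebra ℂ K] [Field M] [Algebra ℂ M]
    [Algebra (MvPolynomial (Fin 2) ℂ) M]
    [IsScalarTower ℂ (MvPolynomial (Fin 2) ℂ) M] [IsFractionRing (MvPolynomial (Fin 2) ℂ) M]
    (d : EllData K) (φ : M →ₐ[ℂ] K) (h0 : φ (am M (X 0)) = d.p) (h1 : φ (am M (X 1)) = d.q)
    (z : K) (hz : IsAlgebraic φ.fieldRange z) : z ∈ φ.fieldRange := by
  rw [fieldRange_eq φ d.p d.q h0 h1] at hz ⊢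
  exact J27399.algClosed_pq d z hz

theorem nonexistence {K M : Type} [Field K] [Algebra ℂ K] [Field M] [Algebra ℂ M]
    [Algebra (MvPolynomial (Fin 2) ℂ) M]
    [IsScalarTower ℂ (MvPolynomial (Fin 2) ℂ) M] [IsFractionRing (MvPolynomial (Fin 2) ℂ) M]
    (d : EllData K) (φ : M →ₐ[ℂ] K) (h0 : φ (am M (X 0)) = d.p) (h1 : φ (am M (X 1)) = d.q)
    (L : Type) [Field L] [Algebra ℂ L] (Y : ProjVar L) (β : L ≃ₐ[ℂ] M) (hY : Y.Smooth) :
    ¬ IsMorphism (XVar d) Y (φ.comp (β : L →ₐ[ℂ] M)) := by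
  intro hM
  obtain ⟨ι, e0, e1⟩ := exists_hom M (am M (X 0) * am M (X 1)) (am M (X 0) / am M (X 1))
    (indep_iota M)
  exact nonex_quad gen_am ι e0 e1 L β Y hY
    (slice d gen_am φ h0 h1 ι e0 e1 L (β : L →ₐ[ℂ] M) Y hM)

end Pool.Agent.H709Reg
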