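import Pool.Agent.H709Reg.Setup

open Pool.Agent.Helper449.ZM
open scoped KaehlerDifferential

namespace Pool.Agent.H709Reg

variable {K : Type} [Field K] [Algebra ℂ K]

/-- The projective variety in `ℙ³ × ℙ³ × ℙ³` (Segre embedded) with generic point
`(χ 0, χ 1, χ 2)`. -/
noncomputable def blockVar (χ : Fin 3 → Fin 4 → K) (h0 : ∀ k j, χ k j ≠ 0)
    (hgen : IntermediateField.adjoin ℂ {f | ∃ k i j, f = χ k j / χ k i} = ⊤) : ProjVar K where
  ι := Fin 3 → Fin 4
  finite_ι := inferInstance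
  x s := ∏ k, χ k (s k)
  exists_ne := ⟨fun _ => 0, Finset.prod_ne_zero_iff.2 fun k _ => h0 k _⟩
  generates := by
    refine gen_of_subset ?_ hgen
    rintro _ ⟨k, i, j, rfl⟩
    refine ⟨Function.update (fun _ => 0) k i, Function.update (fun _ => 0) k j,
      Finset.prod_ne_zero_iff.2 fun k _ => h0 k _, ?_⟩
    rw [← Finset.prod_div_distrib, Finset.prod_eq_single k]
    · simp
    · intro b _ hb
      rw [Function.update_of_ne hb, Function.update_of_ne hb]
      exact div_self (h0 _ _)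
    · simp

variable {χ : Fin 3 → Fin 4 → K} {h0 : ∀ k j, χ k j ≠ 0}
    {hgen : IntermediateField.adjoin ℂ {f | ∃ k i j, f = χ k j / χ k i} = ⊤}

theorem blockVar_x_ne (s : Fin 3 → Fin 4) : (blockVar χ h0 hgen).x s ≠ 0 := by
  change ∏ k, χ k (s k) ≠ 0
  exact Finset.prod_ne_zero_iff.2 fun k _ => h0 k _

theorem ratio_mem_chart (s : Fin 3 → Fin 4) (k : Fin 3) (j : Fin 4) :
    χ k j / χ k (s k) ∈ (blockVar χ h0 hgen).chart s := by
  refine Algebra.subset_adjoin ⟨Function.update s k j, ?_⟩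
  change (∏ i, χ i (Function.update s k j i)) / (∏ i, χ i (s i)) = _
  rw [← Finset.prod_div_distrib, Finset.prod_eq_single k]
  · simp
  · intro b _ hb
    rw [Function.update_of_ne hb]
    exact div_self (h0 _ _)
  · simp

theorem blockVar_chart_le {R : Subalgebra ℂ K} {s : Fin 3 → Fin 4}
    (h : ∀ k j, χ k j / χ k (s k) ∈ R) : (blockVar χ h0 hgen).chart s ≤ R := by
  refine Algebra.adjoin_le ?_
  rintro _ ⟨(t : Fin 3 → Fin 4), rfl⟩
  change (∏ i, χ i (t i)) / (∏ i, χ i (s i)) ∈ R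
  rw [← Finset.prod_div_distrib]
  exact R.prod_mem fun k _ => h k _

theorem exists_ratio_mem {R : Subalgebra ℂ K} (hR : (blockVar χ h0 hgen).IsLocal R) :
    ∃ s : Fin 3 → Fin 4, (∀ k j, χ k j / χ k (s k) ∈ R) ∧
      IsLocOf ((blockVar χ h0 hgen).chart s) R := by
  obtain ⟨-, (s : Fin 3 → Fin 4), -, hs⟩ := exists_of_isLocal _ hR
  exact ⟨s, fun k j => hs.1 (ratio_mem_chart s k j), hs⟩

/-- If each block, suitably scaled, consists of elements of `B` generating the unit ideal, then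
`R ⊇ B` is a localisation of `B`. -/
theorem blockVar_isLocOf {R B : Subalgebra ℂ K} (hR : (blockVar χ h0 hgen).IsLocal R)
    (hB : B ≤ R) (h : ∀ k, ∃ l : K, l ≠ 0 ∧ (∀ j, l * χ k j ∈ B) ∧
      ∃ c : Fin 4 → K, (∀ j, c j ∈ B) ∧ ∑ j, c j * (l * χ k j) = 1) : IsLocOf B R := by
  obtain ⟨s, hs, hloc⟩ := exists_ratio_mem hR
  refine hloc.of_le hB (blockVar_chart_le fun k j => ?_)
  obtain ⟨l, hl, hlB, c, hc, hsum⟩ := h k
  refine ⟨l * χ k j, hlB j, l * χ k (s k), hlB _, mul_ne_zero hl (h0 _ _), ?_, ?_⟩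
  · have e : (l * χ k (s k))⁻¹ = ∑ j, c j * (χ k j / χ k (s k)) := by
      have h1 := h0 k (s k)
      apply inv_eq_of_mul_eq_one_left
      rw [Finset.sum_mul, ← hsum]
      refine Finset.sum_congr rfl fun j _ => ?_
      field_simp
    rw [e]
    exact R.sum_mem fun j _ => R.mul_mem (hB (hc j)) (hs k j)
  · have h1 := h0 k (s k)
    field_simp

end Pool.Agent.H709Reg
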