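import Pool.Agent.H709Reg.XVar
import Pool.Agent.H709Reg.YVar
import Pool.Agent.H709Reg.J27298
import Pool.Agent.H709Reg.J27299
import Pool.Agent.H709Reg.J27398

set_option maxHeartbeats 400000

open MvPolynomial Pool.Agent.Helper449.ZM

namespace Pool.Agent.H709Reg

section general

variable {K : Type} [Field K] [Algebra ℂ K]

/-- The closure of the graph of the rational map `f : X ⇢ ℙ¹`. -/
noncomputable def addFactor (X : ProjVar K) (f : K) : ProjVar K where
  ι := X.ι × Bool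
  finite_ι := haveI := X.finite_ι; inferInstance
  x i := X.x i.1 * (if i.2 then f else 1)
  exists_ne := by
    obtain ⟨i, hi⟩ := X.exists_ne
    exact ⟨(i, false), by simpa using hi⟩
  generates := gen_of_subset (by
    rintro _ ⟨i, j, hi, rfl⟩
    exact ⟨(i, false), (j, false), by simpa using hi, by simp⟩) X.generates

variable {X : ProjVar K} {f : K}

theorem addFactor_x_ne (hf : f ≠ 0) {i : X.ι} (hi : X.x i ≠ 0) (b : Bool) :
    (addFactor X f).x (i, b) ≠ 0 := by
  change X.x i * (if b then f else 1) ≠ 0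
  cases b <;> simp [hi, hf]

theorem chart_le_add (hf : f ≠ 0) (i : X.ι) (b : Bool) :
    X.chart i ≤ (addFactor X f).chart (i, b) := by
  refine Algebra.adjoin_le ?_
  rintro _ ⟨j, rfl⟩
  refine Algebra.subset_adjoin ⟨(j, b), ?_⟩
  change (X.x j * (if b then f else 1)) / (X.x i * (if b then f else 1)) = X.x j / X.x i
  cases b <;> simp [mul_div_mul_right _ _ hf]

/-- the coordinate on the second factor which is regular on the chart `(i, b)` -/
noncomputable def sgn (f : K) (b : Bool) : K := if b then f⁻¹ else f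

theorem sgn_mem_chart {i : X.ι} (hi : X.x i ≠ 0) (b : Bool) :
    sgn f b ∈ (addFactor X f).chart (i, b) := by
  refine Algebra.subset_adjoin ⟨(i, !b), ?_⟩
  change (X.x i * (if (!b) then f else 1)) / (X.x i * (if b then f else 1)) = sgn f b
  cases b <;> simp [sgn, hi]
  field_simp

theorem add_chart_le (hf : f ≠ 0) {i : X.ι} {b : Bool} {C : Subalgebra ℂ K}
    (h : X.chart i ≤ C) (hb : sgn f b ∈ C) : (addFactor X f).chart (i, b) ≤ C := by
  refine Algebra.adjoin_le ?_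
  rintro _ ⟨⟨j, b'⟩, rfl⟩
  change (X.x j * (if b' then f else 1)) / (X.x i * (if b then f else 1)) ∈ C
  have h1 : X.x j / X.x i ∈ C := h (Algebra.subset_adjoin ⟨j, rfl⟩)
  rw [mul_div_mul_comm]
  refine C.mul_mem h1 ?_
  cases b <;> cases b' <;> simp_all [sgn, C.one_mem]

theorem sgn_mem_locAt {B R : Subalgebra ℂ K} (hf : f ≠ 0) (b : Bool)
    (hB : f ∈ B ∨ f⁻¹ ∈ B) (hR : sgn f b ∈ R) : sgn f b ∈ locAt B R := by
  cases b
  · simp only [sgn, Bool.false_eq_true, if_false] at *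
    rcases hB with h | h
    · exact le_locAt _ _ h
    · exact ⟨1, B.one_mem, _, h, inv_ne_zero hf, by rwa [inv_inv], by simp⟩
  · simp only [sgn, if_true] at *
    rcases hB with h | h
    · exact ⟨1, B.one_mem, _, h, hf, hR, by simp⟩
    · exact le_locAt _ _ h

theorem sgn_or {R : Subalgebra ℂ K} {b : Bool} (h : sgn f b ∈ R) : f ∈ R ∨ f⁻¹ ∈ R := by
  cases b
  · left; simpa [sgn] using h
  · right; simpa [sgn] using h

theorem addadd_exists {X : ProjVar K} {f g : K} (hf : f ≠ 0) (hg : g ≠ 0) {R : Subalgebra ℂ K}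
    (hR : (addFactor (addFactor X f) g).IsLocal R) :
    LocalSub R ∧ (f ∈ R ∨ f⁻¹ ∈ R) ∧ (g ∈ R ∨ g⁻¹ ∈ R) ∧ ∃ i, X.x i ≠ 0 ∧ X.chart i ≤ R ∧
      ∀ B : Subalgebra ℂ K, B ≤ R → X.chart i ≤ locAt B R → (f ∈ B ∨ f⁻¹ ∈ B) →
        (g ∈ B ∨ g⁻¹ ∈ B) → IsLocOf B R := by
  obtain ⟨hlR, j, hne, hloc⟩ := exists_of_isLocal _ hR
  obtain ⟨i, b, b', hj⟩ : ∃ (i : X.ι) (b b' : Bool), j = ((i, b), b') := ⟨_, _, _, rfl⟩
  have hne' : (addFactor (addFactor X f) g).x (((i, b), b') : (X.ι × Bool) × Bool) ≠ 0 := by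
    rw [← hj]; exact hne
  have hi : X.x i ≠ 0 := by
    have h1 : (X.x i * (if b then f else 1)) * (if b' then g else 1) ≠ 0 := hne'
    exact left_ne_zero_of_mul (left_ne_zero_of_mul h1)
  have hloc' : IsLocOf ((addFactor (addFactor X f) g).chart
      (((i, b), b') : (X.ι × Bool) × Bool)) R := by rw [← hj]; exact hloc
  have h1 := chart_le_add (X := X) hf i b
  have h2 := chart_le_add (X := addFactor X f) hg (i, b) b'
  have hch : X.chart i ≤ R := (h1.trans h2).trans hloc'.1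
  have hp : sgn f b ∈ R := hloc'.1 (h2 (sgn_mem_chart hi b))
  have hq : sgn g b' ∈ R :=
    hloc'.1 (sgn_mem_chart (X := addFactor X f) (addFactor_x_ne hf hi b) b')
  refine ⟨hlR, sgn_or hp, sgn_or hq, i, hi, hch, fun B hB h1 h2 h3 => ?_⟩
  have k1 := sgn_mem_locAt hf b h2 hp
  have k2 := sgn_mem_locAt hg b' h3 hq
  have k3 := add_chart_le hf h1 k1
  have k4 := add_chart_le (X := addFactor X f) hg k3 k2
  exact hloc'.of_le hB k4

end general

variable {K : Type} [Field K] [Algebra ℂ K]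

/-- the resolution `Γ` of `X ⇢ Y` -/
noncomputable def GammaVar (d : EllData K) : ProjVar K := addFactor (addFactor (XVar d) d.p) d.q

theorem p_ne' (d : EllData K) : d.p ≠ 0 := by
  rw [EllData.p]; exact div_ne_zero (mul_ne_zero d.A_ne d.B_ne) d.x_ne

theorem q_ne' (d : EllData K) : d.q ≠ 0 := by
  rw [EllData.q]; exact div_ne_zero d.A_ne d.B_ne

theorem x_inv_mem (d : EllData K) {R : Subalgebra ℂ K} (hx : d.x ∈ R) (hw : d.w ∈ R) :
    d.x⁻¹ ∈ R := by
  rw [d.x_inv]; exact R.sub_mem hx (R.pow_mem hw 2)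

/-- `p`, `q` in terms of `α`, `β` -/
theorem pq_mem (d : EllData K) {α β : K} (hα : α = d.A ∨ α = d.A⁻¹)
    (hβ : β = d.B ∨ β = d.B⁻¹) {C : Subalgebra ℂ K} (hx : d.x ∈ C) (hw : d.w ∈ C)
    (mα : α ∈ C) (mβ : β ∈ C) (m : α / β ∈ C ∨ β / α ∈ C) :
    (d.p ∈ C ∨ d.p⁻¹ ∈ C) ∧ (d.q ∈ C ∨ d.q⁻¹ ∈ C) := by
  have hA := d.A_ne
  have hB := d.B_ne
  have hx0 := d.x_ne
  have hxi := x_inv_mem d hx hw
  have m4 := C.mul_mem mα mβ
  rcases hα with rfl | rfl <;> rcases hβ with rfl | rfl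
  · refine ⟨Or.inl ?_, ?_⟩
    · rw [EllData.p, div_eq_mul_inv]; exact C.mul_mem m4 hxi
    · rw [EllData.q, inv_div]; exact m
  · refine ⟨?_, Or.inl ?_⟩
    · rcases m with m | m
      · left
        have e : d.p = d.A / d.B⁻¹ * d.x⁻¹ := by rw [EllData.p]; field_simp
        rw [e]; exact C.mul_mem m hxi
      · right
        have e : d.p⁻¹ = d.B⁻¹ / d.A * d.x := by rw [EllData.p]; field_simp
        rw [e]; exact C.mul_mem m hx
    · rw [EllData.q, div_eq_mul_inv]; exact m4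
  · refine ⟨?_, Or.inr ?_⟩
    · rcases m with m | m
      · right
        have e : d.p⁻¹ = d.A⁻¹ / d.B * d.x := by rw [EllData.p]; field_simp
        rw [e]; exact C.mul_mem m hx
      · left
        have e : d.p = d.B / d.A⁻¹ * d.x⁻¹ := by rw [EllData.p]; field_simp
        rw [e]; exact C.mul_mem m hxi
    · have e : d.q⁻¹ = d.A⁻¹ * d.B := by rw [EllData.q]; field_simp
      rw [e]; exact m4
  · refine ⟨Or.inr ?_, ?_⟩
    · have e : d.p⁻¹ = d.A⁻¹ * d.B⁻¹ * d.x := by rw [EllData.p]; field_simp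
      rw [e]; exact C.mul_mem m4 hx
    · rcases m with m | m
      · right
        have e : d.q⁻¹ = d.A⁻¹ / d.B⁻¹ := by rw [EllData.q]; field_simp
        rw [e]; exact m
      · left
        have e : d.q = d.B⁻¹ / d.A⁻¹ := by rw [EllData.q]; field_simp
        rw [e]; exact m

theorem ratio_mem (d : EllData K) {α β : K} (hα : α = d.A ∨ α = d.A⁻¹)
    (hβ : β = d.B ∨ β = d.B⁻¹) {C : Subalgebra ℂ K} (hx : d.x ∈ C) (hw : d.w ∈ C)
    (mp : d.p ∈ C ∨ d.p⁻¹ ∈ C) (mq : d.q ∈ C ∨ d.q⁻¹ ∈ C) : α / β ∈ C ∨ β / α ∈ C := by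
  have hA := d.A_ne
  have hB := d.B_ne
  have hx0 := d.x_ne
  have hxi := x_inv_mem d hx hw
  rcases hα with rfl | rfl <;> rcases hβ with rfl | rfl
  · rcases mq with m | m
    · left; exact m
    · right
      rw [EllData.q, inv_div] at m; exact m
  · rcases mp with m | m
    · left
      have e : d.A / d.B⁻¹ = d.p * d.x := by rw [EllData.p]; field_simp
      rw [e]; exact C.mul_mem m hx
    · right
      have e : d.B⁻¹ / d.A = d.p⁻¹ * d.x⁻¹ := by rw [EllData.p]; field_simp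
      rw [e]; exact C.mul_mem m hxi
  · rcases mp with m | m
    · right
      have e : d.B / d.A⁻¹ = d.p * d.x := by rw [EllData.p]; field_simp
      rw [e]; exact C.mul_mem m hx
    · left
      have e : d.A⁻¹ / d.B = d.p⁻¹ * d.x⁻¹ := by rw [EllData.p]; field_simp
      rw [e]; exact C.mul_mem m hxi
  · rcases mq with m | m
    · right
      have e : d.B⁻¹ / d.A⁻¹ = d.q := by rw [EllData.q]; field_simp
      rw [e]; exact m
    · left
      have e : d.A⁻¹ / d.B⁻¹ = d.q⁻¹ := by rw [EllData.q]; field_simp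
      rw [e]; exact m

/-- the local rings of `Γ` -/
theorem Gamma_nice (d : EllData K) {R : Subalgebra ℂ K} (hR : (GammaVar d).IsLocal R) :
    (∃ i, (XVar d).x i ≠ 0 ∧ (XVar d).chart i ≤ R) ∧
    ∃ d' : EllData K, (d' = d ∨ d' = d.swap) ∧ ∃ α β, (α = d'.A ∨ α = d'.A⁻¹) ∧
      (β = d'.B ∨ β = d'.B⁻¹) ∧
      (IsLocOf (Algebra.adjoin ℂ {d'.x, d'.w, α / β, β}) R ∨
        IsLocOf (Algebra.adjoin ℂ {d'.x, d'.w, β / α, α}) R) := by
  obtain ⟨hlR, hp, hq, i, hi, hch, hB'⟩ := addadd_exists (p_ne' d) (q_ne' d) hR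
  have hRX := isLocal_locAt (XVar d) hi hch hlR
  refine ⟨⟨i, hi, hch⟩, ?_⟩
  obtain ⟨d', hd', α, β, hα, hβ, hX⟩ := X_nice d hRX
  have hpd : d'.p = d.p := by
    rcases hd' with rfl | rfl
    · rfl
    · exact swap_p d
  have hqd : d'.q = d.q := by
    rcases hd' with rfl | rfl
    · rfl
    · exact swap_q d
  have hle : locAt ((XVar d).chart i) R ≤ R := locAt_le hch
  have mx : d'.x ∈ R := hle (hX.1 (Algebra.subset_adjoin (by simp)))
  have mw : d'.w ∈ R := hle (hX.1 (Algebra.subset_adjoin (by simp)))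
  have mα : α ∈ R := hle (hX.1 (Algebra.subset_adjoin (by simp)))
  have mβ : β ∈ R := hle (hX.1 (Algebra.subset_adjoin (by simp)))
  have hα0 : α ≠ 0 := by
    have := d'.A_ne
    rcases hα with rfl | rfl <;> simp [this]
  have hβ0 : β ≠ 0 := by
    have := d'.B_ne
    rcases hβ with rfl | rfl <;> simp [this]
  -- the main step
  have main : ∀ γ δ : K, γ ∈ R → δ ∈ R → (α ∈ Algebra.adjoin ℂ {d'.x, d'.w, γ, δ}) →
      (β ∈ Algebra.adjoin ℂ {d'.x, d'.w, γ, δ}) →
      (α / β ∈ Algebra.adjoin ℂ {d'.x, d'.w, γ, δ} ∨ β / α ∈ Algebra.adjoin ℂ {d'.x, d'.w, γ, δ}) →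
      IsLocOf (Algebra.adjoin ℂ {d'.x, d'.w, γ, δ}) R := by
    intro γ δ hγ hδ nα nβ nr
    have nx : d'.x ∈ Algebra.adjoin ℂ {d'.x, d'.w, γ, δ} := Algebra.subset_adjoin (by simp)
    have nw : d'.w ∈ Algebra.adjoin ℂ {d'.x, d'.w, γ, δ} := Algebra.subset_adjoin (by simp)
    obtain ⟨np, nq⟩ := pq_mem d' hα hβ nx nw nα nβ nr
    rw [hpd] at np
    rw [hqd] at nq
    have hB : Algebra.adjoin ℂ {d'.x, d'.w, γ, δ} ≤ R := adj4_le mx mw hγ hδ
    refine hB' _ hB ?_ np nq
    intro f hf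
    obtain ⟨a, ha, s, hs, hs0, hsR, rfl⟩ := hX.2 f (le_locAt _ _ hf)
    have hle2 : Algebra.adjoin ℂ {d'.x, d'.w, α, β} ≤ Algebra.adjoin ℂ {d'.x, d'.w, γ, δ} :=
      adj4_le nx nw nα nβ
    exact ⟨a, hle2 ha, s, hle2 hs, hs0, hle hsR, rfl⟩
  have hr := ratio_mem d' hα hβ mx mw (by rw [hpd]; exact hp) (by rw [hqd]; exact hq)
  refine ⟨d', hd', α, β, hα, hβ, ?_⟩
  rcases hr with hr | hr
  · left
    have n1 : α / β ∈ Algebra.adjoin ℂ {d'.x, d'.w, α / β, β} := Algebra.subset_adjoin (by simp)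
    have n2 : β ∈ Algebra.adjoin ℂ {d'.x, d'.w, α / β, β} := Algebra.subset_adjoin (by simp)
    refine main _ _ hr mβ ?_ n2 (Or.inl n1)
    have := mul_mem n1 n2
    rwa [div_mul_cancel₀ _ hβ0] at this
  · right
    have n1 : β / α ∈ Algebra.adjoin ℂ {d'.x, d'.w, β / α, α} := Algebra.subset_adjoin (by simp)
    have n2 : α ∈ Algebra.adjoin ℂ {d'.x, d'.w, β / α, α} := Algebra.subset_adjoin (by simp)
    refine main _ _ hr mα n2 ?_ (Or.inr n1)
    have := mul_mem n1 n2
    rwa [div_mul_cancel₀ _ hα0] at this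

/-- replacing `A`, `B` by other coordinates -/
theorem exists_data (d : EllData K) (γ δ : K)
    (h : IntermediateField.adjoin ℂ {d.w, d.x, γ, δ} = ⊤) :
    ∃ d' : EllData K, d'.w = d.w ∧ d'.x = d.x ∧ d'.A = γ ∧ d'.B = δ := by
  have hind : AlgebraicIndependent ℂ ![d.w, γ, δ] := by
    have halg : Algebra.IsAlgebraic (IntermediateField.adjoin ℂ
        (Set.range ![d.w, γ, δ])) K := by
      have hsub := IntermediateField.subset_adjoin ℂ (Set.range ![d.w, γ, δ])
      set F := IntermediateField.adjoin ℂ (Set.range ![d.w, γ, δ]) with hF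
      have hwF : d.w ∈ F := hsub ⟨0, rfl⟩
      have hγF : γ ∈ F := hsub ⟨1, rfl⟩
      have hδF : δ ∈ F := hsub ⟨2, rfl⟩
      have hxi : IsIntegral F d.x := by
        refine ⟨Polynomial.X ^ 2 - Polynomial.C ((⟨d.w, hwF⟩ : F) ^ 2) * Polynomial.X -
          Polynomial.C 1, ?_, ?_⟩
        · monicity!
        · have h2 := d.rel
          simp only [Polynomial.eval₂_sub, Polynomial.eval₂_mul, Polynomial.eval₂_pow,
            Polynomial.eval₂_X, Polynomial.eval₂_C, map_pow, map_one, Polynomial.eval₂_one]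
          exact h2
      have htop : (algebraicClosure F K).restrictScalars ℂ = ⊤ := by
        rw [eq_top_iff, ← h, IntermediateField.adjoin_le_iff]
        intro y hy
        simp only [Set.mem_insert_iff, Set.mem_singleton_iff] at hy
        show y ∈ (algebraicClosure F K)
        rcases hy with rfl | rfl | rfl | rfl
        · exact mem_algebraicClosure_iff.2 (J27398.trdeg_eq_mem hwF)
        · exact mem_algebraicClosure_iff.2 hxi.isAlgebraic
        · exact mem_algebraicClosure_iff.2 (J27398.trdeg_eq_mem hγF)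
        · exact mem_algebraicClosure_iff.2 (J27398.trdeg_eq_mem hδF)
      constructor
      intro y
      have h3 : y ∈ (algebraicClosure F K).restrictScalars ℂ := by
        rw [htop]; exact IntermediateField.mem_top
      have h4 : y ∈ algebraicClosure F K := h3
      exact mem_algebraicClosure_iff.1 h4
    haveI h2 := IntermediateField.isAlgebraic_adjoin_iff_top.1 halg
    refine (Algebra.IsAlgebraic.isTranscendenceBasis_of_lift_le_trdeg_of_finite ℂ _ ?_).1
    rw [J27398.trdeg_eq d]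
    simp
  exact ⟨⟨d.w, d.x, γ, δ, d.rel, hind, h⟩, rfl, rfl, rfl, rfl⟩

theorem smooth_of_gen (d : EllData K) (γ δ : K)
    (h : IntermediateField.adjoin ℂ {d.w, d.x, γ, δ} = ⊤) (R : Subalgebra ℂ K)
    (hR : IsLocOf (Algebra.adjoin ℂ {d.x, d.w, γ, δ}) R) : Algebra.FormallySmooth ℂ R := by
  obtain ⟨d', h1, h2, h3, h4⟩ := exists_data d γ δ h
  rw [← h1, ← h2, ← h3, ← h4] at hR
  exact J27299.formallySmooth_nice d' (J27298.formallySmooth_ell d') _ _ (Or.inl rfl)
    (Or.inl rfl) R hR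

theorem Gamma_smooth (d : EllData K) : (GammaVar d).Smooth := by
  intro R hR
  obtain ⟨-, d', -, α, β, hα, hβ, hloc⟩ := Gamma_nice d hR
  have hα0 : α ≠ 0 := by
    have := d'.A_ne
    rcases hα with rfl | rfl <;> simp [this]
  have hβ0 : β ≠ 0 := by
    have := d'.B_ne
    rcases hβ with rfl | rfl <;> simp [this]
  have key : ∀ γ δ : K, α ∈ IntermediateField.adjoin ℂ {d'.w, d'.x, γ, δ} →
      β ∈ IntermediateField.adjoin ℂ {d'.w, d'.x, γ, δ} →
      IntermediateField.adjoin ℂ {d'.w, d'.x, γ, δ} = ⊤ := by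
    intro γ δ m1 m2
    rw [eq_top_iff, ← d'.gen]
    refine IntermediateField.adjoin_le_iff.2 ?_
    rintro _ (rfl | rfl | rfl | rfl)
    · exact IntermediateField.subset_adjoin _ _ (by simp)
    · exact IntermediateField.subset_adjoin _ _ (by simp)
    · rcases hα with rfl | rfl
      · exact m1
      · have := inv_mem m1
        rwa [inv_inv] at this
    · rcases hβ with rfl | rfl
      · exact m2
      · have := inv_mem m2
        rwa [inv_inv] at this
  rcases hloc with hloc | hloc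
  · refine smooth_of_gen d' _ _ (key _ _ ?_ ?_) R hloc
    · have n1 : α / β ∈ IntermediateField.adjoin ℂ {d'.w, d'.x, α / β, β} :=
        IntermediateField.subset_adjoin _ _ (by simp)
      have n2 : β ∈ IntermediateField.adjoin ℂ {d'.w, d'.x, α / β, β} :=
        IntermediateField.subset_adjoin _ _ (by simp)
      have := mul_mem n1 n2
      rwa [div_mul_cancel₀ _ hβ0] at this
    · exact IntermediateField.subset_adjoin _ _ (by simp)
  · refine smooth_of_gen d' _ _ (key _ _ ?_ ?_) R hloc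
    · exact IntermediateField.subset_adjoin _ _ (by simp)
    · have n1 : β / α ∈ IntermediateField.adjoin ℂ {d'.w, d'.x, β / α, α} :=
        IntermediateField.subset_adjoin _ _ (by simp)
      have n2 : α ∈ IntermediateField.adjoin ℂ {d'.w, d'.x, β / α, α} :=
        IntermediateField.subset_adjoin _ _ (by simp)
      have := mul_mem n1 n2
      rwa [div_mul_cancel₀ _ hα0] at this

/-- `Γ → X` is a morphism -/
theorem Gamma_X (d : EllData K) : IsMorphism (GammaVar d) (XVar d) (AlgHom.id ℂ K) := by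
  refine isMorphism_of _ _ _ fun R hR => ?_
  obtain ⟨i, hi, hch⟩ := (Gamma_nice d hR).1
  exact ⟨i, hi, fun f hf => hch hf⟩

/-- `Γ → Y` is a morphism -/
theorem Gamma_Y (d : EllData K) {L : Type} [Field L] [Algebra ℂ L] {p q : L} {hp : p ≠ 0}
    {hq : q ≠ 0} {h : IntermediateField.adjoin ℂ {p, q} = ⊤} (φ : L →ₐ[ℂ] K) (e1 : φ p = d.p)
    (e2 : φ q = d.q) : IsMorphism (GammaVar d) (YVar p q hp hq h) φ := by
  refine isMorphism_of _ _ _ fun R hR => ?_
  obtain ⟨-, d', hd', α, β, hα, hβ, hloc⟩ := Gamma_nice d hR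
  have hpd : d'.p = d.p := by
    rcases hd' with rfl | rfl
    · rfl
    · exact swap_p d
  have hqd : d'.q = d.q := by
    rcases hd' with rfl | rfl
    · rfl
    · exact swap_q d
  have hA := d'.A_ne
  have hB := d'.B_ne
  have hx := d'.x_ne
  have hα0 : α ≠ 0 := by rcases hα with rfl | rfl <;> simp [hA]
  have hβ0 : β ≠ 0 := by rcases hβ with rfl | rfl <;> simp [hB]
  obtain ⟨mx, mw, mα, mβ, mr⟩ : d'.x ∈ R ∧ d'.w ∈ R ∧ α ∈ R ∧ β ∈ R ∧ (α / β ∈ R ∨ β / α ∈ R) := by
    rcases hloc with hloc | hloc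
    · have n1 : α / β ∈ R := hloc.1 (Algebra.subset_adjoin (by simp))
      have n2 : β ∈ R := hloc.1 (Algebra.subset_adjoin (by simp))
      refine ⟨hloc.1 (Algebra.subset_adjoin (by simp)), hloc.1 (Algebra.subset_adjoin (by simp)),
        ?_, n2, Or.inl n1⟩
      have := R.mul_mem n1 n2
      rwa [div_mul_cancel₀ _ hβ0] at this
    · have n1 : β / α ∈ R := hloc.1 (Algebra.subset_adjoin (by simp))
      have n2 : α ∈ R := hloc.1 (Algebra.subset_adjoin (by simp))
      refine ⟨hloc.1 (Algebra.subset_adjoin (by simp)), hloc.1 (Algebra.subset_adjoin (by simp)),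
        n2, ?_, Or.inr n1⟩
      have := R.mul_mem n1 n2
      rwa [div_mul_cancel₀ _ hα0] at this
  obtain ⟨mp, mq⟩ := pq_mem d' hα hβ mx mw mα mβ mr
  have mxi := x_inv_mem d' mx mw
  have mpq : d'.p * d'.q ∈ R ∨ (d'.p * d'.q)⁻¹ ∈ R := by
    rcases hα with rfl | rfl
    · left
      have e : d'.p * d'.q = d'.A ^ 2 * d'.x⁻¹ := by rw [EllData.p, EllData.q]; field_simp
      rw [e]; exact R.mul_mem (R.pow_mem mα 2) mxi
    · right
      have e : (d'.p * d'.q)⁻¹ = (d'.A⁻¹) ^ 2 * d'.x := by rw [EllData.p, EllData.q]; field_simp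
      rw [e]; exact R.mul_mem (R.pow_mem mα 2) mx
  have mpq' : d'.p / d'.q ∈ R ∨ (d'.p / d'.q)⁻¹ ∈ R := by
    rcases hβ with rfl | rfl
    · left
      have e : d'.p / d'.q = d'.B ^ 2 * d'.x⁻¹ := by rw [EllData.p, EllData.q]; field_simp
      rw [e]; exact R.mul_mem (R.pow_mem mβ 2) mxi
    · right
      have e : (d'.p / d'.q)⁻¹ = (d'.B⁻¹) ^ 2 * d'.x := by rw [EllData.p, EllData.q]; field_simp
      rw [e]; exact R.mul_mem (R.pow_mem mβ 2) mx
  rw [hpd] at mp mpq mpq'
  rw [hqd] at mq mpq mpq'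
  obtain ⟨s, hs⟩ := exists_prodVar_chart_le (R := R.comap φ) (h0 := chiY_ne hp hq)
    (hgen := chiY_gen h) (fun k => by
      change φ _ ∈ R ∨ φ _ ∈ R
      rw [map_inv₀]
      fin_cases k
      · change φ p ∈ R ∨ (φ p)⁻¹ ∈ R
        rw [e1]; exact mp
      · change φ q ∈ R ∨ (φ q)⁻¹ ∈ R
        rw [e2]; exact mq
      · change φ (p * q) ∈ R ∨ (φ (p * q))⁻¹ ∈ R
        rw [map_mul, e1, e2]; exact mpq
      · change φ (p / q) ∈ R ∨ (φ (p / q))⁻¹ ∈ R
        rw [map_div₀, e1, e2]; exact mpq')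
  exact ⟨s, prodVar_x_ne s, hs⟩

end Pool.Agent.H709Reg
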