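import Pool.Agent.H709Reg.Setup

open Pool.Agent.Helper449.ZM Pool.Agent.H709Reg

open scoped KaehlerDifferential

namespace Pool.Agent.H709Reg.J27397



variable {K : Type} [Field K] [Algebra ℂ K]

lemma d_w (d : EllData K) : d.w ≠ 0 := by
  have := d.indep.ne_zero 0
  simpa using this

lemma d_x (d : EllData K) : d.x ≠ 0 := by
  intro h
  have := d.rel
  rw [h] at this
  simp at this

lemma d_x1 (d : EllData K) : d.x - 1 ≠ 0 := by
  intro h
  have h1 : d.x = 1 := by linear_combination h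
  have h2 := d.rel
  rw [h1] at h2
  have h3 : d.w ^ 2 = 0 := by linear_combination -h2
  exact d_w d (pow_eq_zero_iff (two_ne_zero)|>.1 h3)

lemma d_x2 (d : EllData K) : d.x + 1 ≠ 0 := by
  intro h
  have h1 : d.x = -1 := by linear_combination h
  have h2 := d.rel
  rw [h1] at h2
  have h3 : d.w ^ 2 = 0 := by linear_combination h2
  exact d_w d (pow_eq_zero_iff (two_ne_zero)|>.1 h3)

lemma char0 (K : Type) [Field K] [Algebra ℂ K] : CharZero K :=
  charZero_of_injective_algebraMap (algebraMap ℂ K).injective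

theorem swap_rel (d : EllData K) : ((d.x + 1) / (d.x - 1)) ^ 2 -
    (-2 / d.w) ^ 2 * ((d.x + 1) / (d.x - 1)) - 1 = 0 := by
  have h1 := d_w d
  have h2 := d_x1 d
  have h3 := d.rel
  field_simp
  linear_combination (-4) * h3

lemma gen_aux (d : EllData K) : IntermediateField.adjoin ℂ {-2 / d.w, (d.x + 1) / (d.x - 1),
    -d.A * (d.x + 1) / (d.w * d.x), -d.B * (d.x + 1) / (d.w * d.x)} = ⊤ := by
  haveI := char0 K
  have h1 := d_w d
  have h2 := d_x1 d
  have h3 := d_x2 d
  have h4 := d_x d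
  obtain ⟨F, hF⟩ : ∃ F, F = IntermediateField.adjoin ℂ {-2 / d.w, (d.x + 1) / (d.x - 1),
    -d.A * (d.x + 1) / (d.w * d.x), -d.B * (d.x + 1) / (d.w * d.x)} := ⟨_, rfl⟩
  have m1 : -2 / d.w ∈ F := by rw [hF]; exact IntermediateField.subset_adjoin _ _ (by simp)
  have m2 : (d.x + 1) / (d.x - 1) ∈ F := by rw [hF]; exact IntermediateField.subset_adjoin _ _ (by simp)
  have m3 : -d.A * (d.x + 1) / (d.w * d.x) ∈ F := by
    rw [hF]; exact IntermediateField.subset_adjoin _ _ (by simp)
  have m4 : -d.B * (d.x + 1) / (d.w * d.x) ∈ F := by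
    rw [hF]; exact IntermediateField.subset_adjoin _ _ (by simp)
  have two : (2 : K) ∈ F := ofNat_mem F 2
  have n1 : d.w ∈ F := by
    have e : d.w = -2 / (-2 / d.w) := by
      have : (2 : K) ≠ 0 := two_ne_zero
      field_simp
    rw [e]
    exact F.div_mem (F.neg_mem two) m1
  have n2 : d.x ∈ F := by
    have e : d.x = ((d.x + 1) / (d.x - 1) + 1) / ((d.x + 1) / (d.x - 1) - 1) := by
      have : (2 : K) ≠ 0 := two_ne_zero
      have e1 : (d.x + 1) / (d.x - 1) + 1 = 2 * d.x / (d.x - 1) := by field_simp; ring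
      have e2 : (d.x + 1) / (d.x - 1) - 1 = 2 / (d.x - 1) := by field_simp; ring
      rw [e1, e2]
      field_simp
    rw [e]
    exact F.div_mem (F.add_mem m2 F.one_mem) (F.sub_mem m2 F.one_mem)
  have n3 : d.A ∈ F := by
    have e : d.A = -(-d.A * (d.x + 1) / (d.w * d.x)) * (d.w * d.x) / (d.x + 1) := by
      field_simp
    rw [e]
    exact F.div_mem (F.mul_mem (F.neg_mem m3) (F.mul_mem n1 n2)) (F.add_mem n2 F.one_mem)
  have n4 : d.B ∈ F := by
    have e : d.B = -(-d.B * (d.x + 1) / (d.w * d.x)) * (d.w * d.x) / (d.x + 1) := by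
      field_simp
    rw [e]
    exact F.div_mem (F.mul_mem (F.neg_mem m4) (F.mul_mem n1 n2)) (F.add_mem n2 F.one_mem)
  rw [← hF, eq_top_iff, ← d.gen, IntermediateField.adjoin_le_iff]
  intro y hy
  simp only [Set.mem_insert_iff, Set.mem_singleton_iff] at hy
  rcases hy with rfl | rfl | rfl | rfl
  · exact n1
  · exact n2
  · exact n3
  · exact n4

lemma indep_of (d : EllData K) (w x A B : K) (rel : x ^ 2 - w ^ 2 * x - 1 = 0)
    (gen : IntermediateField.adjoin ℂ {w, x, A, B} = ⊤) : AlgebraicIndependent ℂ ![w, A, B] := by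
  have mw : w ∈ Algebra.adjoin ℂ (Set.range ![w, A, B]) := Algebra.subset_adjoin ⟨0, rfl⟩
  have mA : A ∈ Algebra.adjoin ℂ (Set.range ![w, A, B]) := Algebra.subset_adjoin ⟨1, rfl⟩
  have mB : B ∈ Algebra.adjoin ℂ (Set.range ![w, A, B]) := Algebra.subset_adjoin ⟨2, rfl⟩
  have hmem : ∀ y ∈ Algebra.adjoin ℂ (Set.range ![w, A, B]),
      IsAlgebraic (Algebra.adjoin ℂ (Set.range ![w, A, B])) y := fun y hy =>
    isAlgebraic_algebraMap (⟨y, hy⟩ : Algebra.adjoin ℂ (Set.range ![w, A, B]))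
  have hx : IsAlgebraic (Algebra.adjoin ℂ (Set.range ![w, A, B])) x := by
    apply IsIntegral.isAlgebraic
    refine ⟨Polynomial.X ^ 2 - Polynomial.C ((⟨w, mw⟩ : Algebra.adjoin ℂ (Set.range ![w, A, B])) ^ 2) *
      Polynomial.X - 1, ?_, ?_⟩
    · monicity!
    · simp only [Polynomial.eval₂_sub, Polynomial.eval₂_pow, Polynomial.eval₂_X,
        Polynomial.eval₂_mul, Polynomial.eval₂_C, Polynomial.eval₂_one, map_pow]
      exact rel
  haveI alg : Algebra.IsAlgebraic (Algebra.adjoin ℂ (Set.range ![w, A, B])) K := by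
    refine ⟨fun y => ?_⟩
    have hy : y ∈ IntermediateField.adjoin ℂ {w, x, A, B} := by rw [gen]; trivial
    induction hy using IntermediateField.adjoin_induction with
    | mem y hy =>
      simp only [Set.mem_insert_iff, Set.mem_singleton_iff] at hy
      rcases hy with rfl | rfl | rfl | rfl
      · exact hmem _ mw
      · exact hx
      · exact hmem _ mA
      · exact hmem _ mB
    | algebraMap c => exact hmem _ (Subalgebra.algebraMap_mem _ c)
    | add y z _ _ hy hz => exact hy.add hz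
    | inv y _ hy => exact hy.inv
    | mul y z _ _ hy hz => exact hy.mul hz
  exact (Algebra.IsAlgebraic.isTranscendenceBasis_of_lift_le_trdeg_of_finite ℂ ![w, A, B]
    d.indep.lift_cardinalMk_le_trdeg).1

theorem swap_indep (d : EllData K) : AlgebraicIndependent ℂ
    ![-2 / d.w, -d.A * (d.x + 1) / (d.w * d.x), -d.B * (d.x + 1) / (d.w * d.x)] :=
  indep_of d _ _ _ _ (swap_rel d) (gen_aux d)

theorem swap_gen (d : EllData K) : IntermediateField.adjoin ℂ {-2 / d.w, (d.x + 1) / (d.x - 1),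
    -d.A * (d.x + 1) / (d.w * d.x), -d.B * (d.x + 1) / (d.w * d.x)} = ⊤ := gen_aux d

end Pool.Agent.H709Reg.J27397
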