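import Pool.Agent.H709Reg.Setup

open Pool.Agent.Helper449.ZM Pool.Agent.H709Reg

open scoped KaehlerDifferential

namespace Pool.Agent.H709Reg.J28441



variable {K : Type} [Field K] [Algebra ℂ K]

/-- the rational 3-form `dx ∧ dA ∧ dB / (x w A B)` -/
noncomputable def omega4 (w x A B : K) : ⋀[K]^3 Ω[K⁄ℂ] :=
  (x * w * A * B)⁻¹ • exteriorPower.ιMulti K 3
    ![KaehlerDifferential.D ℂ K x, KaehlerDifferential.D ℂ K A, KaehlerDifferential.D ℂ K B]

theorem sw_smul3 {M N : Type} [AddCommGroup M] [Module K M] [AddCommGroup N] [Module K N]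
    (g : M [⋀^Fin 3]→ₗ[K] N) (a b c : K) (u v w : M) :
    g ![a • u, b • v, c • w] = (a * b * c) • g ![u, v, w] := by
  have h : (![a • u, b • v, c • w] : Fin 3 → M) = fun i => ![a, b, c] i • ![u, v, w] i := by
    funext i
    fin_cases i <;> rfl
  rw [h]
  have h2 := g.map_smul_univ ![a, b, c] ![u, v, w]
  rw [h2, Fin.prod_univ_three]
  rfl

theorem sw_add1 {M N : Type} [AddCommGroup M] [Module K M] [AddCommGroup N] [Module K N]
    (g : M [⋀^Fin 3]→ₗ[K] N) (u p q w : M) :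
    g ![u, p + q, w] = g ![u, p, w] + g ![u, q, w] := by
  have h : ∀ z : M, (![u, z, w] : Fin 3 → M) = Function.update ![u, 0, w] 1 z := by
    intro z
    funext i
    fin_cases i <;> simp
  rw [h, h p, h q]
  exact g.map_update_add _ _ _ _

theorem sw_add2 {M N : Type} [AddCommGroup M] [Module K M] [AddCommGroup N] [Module K N]
    (g : M [⋀^Fin 3]→ₗ[K] N) (u v p q : M) :
    g ![u, v, p + q] = g ![u, v, p] + g ![u, v, q] := by
  have h : ∀ z : M, (![u, v, z] : Fin 3 → M) = Function.update ![u, v, 0] 2 z := by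
    intro z
    funext i
    fin_cases i <;> simp
  rw [h, h p, h q]
  exact g.map_update_add _ _ _ _

theorem sw_tri {M N : Type} [AddCommGroup M] [Module K M] [AddCommGroup N] [Module K N]
    (g : M [⋀^Fin 3]→ₗ[K] N) (a b c e f : K) (X U V : M) :
    g ![a • X, e • X + b • U, f • X + c • V] = (a * b * c) • g ![X, U, V] := by
  have z1 : ∀ W : M, g ![X, X, W] = 0 := fun W =>
    g.map_eq_zero_of_eq _ (show (![X, X, W] : Fin 3 → M) 0 = ![X, X, W] 1 from rfl) (by decide)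
  have z2 : ∀ W : M, g ![X, W, X] = 0 := fun W =>
    g.map_eq_zero_of_eq _ (show (![X, W, X] : Fin 3 → M) 0 = ![X, W, X] 2 from rfl) (by decide)
  have h1 : g ![a • X, e • X, f • X + c • V] = 0 := by
    have := sw_smul3 g a e 1 X X (f • X + c • V)
    rw [one_smul, z1, smul_zero] at this
    exact this
  have h2 : g ![a • X, b • U, f • X] = 0 := by
    have := sw_smul3 g a b f X U X
    rw [z2, smul_zero] at this
    exact this
  rw [sw_add1, h1, zero_add, sw_add2, h2, zero_add, sw_smul3]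

theorem omega_swap (d : EllData K) (hw : d.w ≠ 0) (hx : d.x ≠ 0) (hA : d.A ≠ 0) (hB : d.B ≠ 0)
    (hx1 : d.x - 1 ≠ 0) (hx2 : d.x + 1 ≠ 0) :
    omega4 (-2 / d.w) ((d.x + 1) / (d.x - 1)) (-d.A * (d.x + 1) / (d.w * d.x))
      (-d.B * (d.x + 1) / (d.w * d.x)) = omega4 d.w d.x d.A d.B := by
  have hcz : CharZero K := charZero_of_injective_algebraMap (algebraMap ℂ K).injective
  have h2 : (2 : K) ≠ 0 := two_ne_zero
  have hDw : ∃ c : K, KaehlerDifferential.D ℂ K d.w = c • KaehlerDifferential.D ℂ K d.x := by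
    have h : KaehlerDifferential.D ℂ K (d.x * d.x - (d.w * d.w) * d.x - 1) = 0 := by
      have : d.x * d.x - (d.w * d.w) * d.x - 1 = 0 := by
        have := d.rel
        linear_combination this
      rw [this, map_zero]
    rw [map_sub, map_sub, Derivation.leibniz, Derivation.leibniz, Derivation.leibniz,
      Derivation.map_one_eq_zero, sub_zero] at h
    have h2 : (d.x + (d.x - d.w ^ 2)) • KaehlerDifferential.D ℂ K d.x -
        (2 * (d.x * d.w)) • KaehlerDifferential.D ℂ K d.w = 0 := by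
      rw [← h]
      module
    have h3 := sub_eq_zero.1 h2
    have h0 : (2 * (d.x * d.w)) ≠ 0 := mul_ne_zero two_ne_zero (mul_ne_zero hx hw)
    refine ⟨(2 * (d.x * d.w))⁻¹ * (d.x + (d.x - d.w ^ 2)), ?_⟩
    rw [mul_smul, h3, smul_smul, inv_mul_cancel₀ h0, one_smul]
  obtain ⟨cw, hcw⟩ := hDw
  have hDx' : KaehlerDifferential.D ℂ K ((d.x + 1) / (d.x - 1)) =
      (-2 * ((d.x - 1)⁻¹) ^ 2) • KaehlerDifferential.D ℂ K d.x := by
    rw [Derivation.leibniz_div, map_add, map_sub, Derivation.map_one_eq_zero]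
    module
  have hDG : ∃ c : K, KaehlerDifferential.D ℂ K (-(d.x + 1) / (d.w * d.x)) =
      c • KaehlerDifferential.D ℂ K d.x := by
    refine ⟨((d.w * d.x)⁻¹) ^ 2 * ((d.w * d.x) * (-1) + (d.x + 1) * (d.w + d.x * cw)), ?_⟩
    rw [Derivation.leibniz_div, map_neg, map_add, Derivation.map_one_eq_zero, Derivation.leibniz,
      hcw]
    module
  obtain ⟨cG, hcG⟩ := hDG
  set G := -(d.x + 1) / (d.w * d.x) with hG
  have eA : -d.A * (d.x + 1) / (d.w * d.x) = d.A * G := by rw [hG]; ring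
  have eB : -d.B * (d.x + 1) / (d.w * d.x) = d.B * G := by rw [hG]; ring
  have hDA : KaehlerDifferential.D ℂ K (d.A * G) = (d.A * cG) • KaehlerDifferential.D ℂ K d.x +
      G • KaehlerDifferential.D ℂ K d.A := by
    rw [Derivation.leibniz, hcG, smul_smul]
  have hDB : KaehlerDifferential.D ℂ K (d.B * G) = (d.B * cG) • KaehlerDifferential.D ℂ K d.x +
      G • KaehlerDifferential.D ℂ K d.B := by
    rw [Derivation.leibniz, hcG, smul_smul]
  unfold omega4
  rw [eA, eB, hDx', hDA, hDB, sw_tri, smul_smul]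
  congr 1
  have hr : d.x ^ 2 - 1 = d.w ^ 2 * d.x := by linear_combination d.rel
  have hG0 : G ≠ 0 := by
    rw [hG]
    exact div_ne_zero (neg_ne_zero.mpr hx2) (mul_ne_zero hw hx)
  clear_value G
  have e1 : (((d.x + 1) / (d.x - 1)) * (-2 / d.w))⁻¹ * (-2 * ((d.x - 1)⁻¹) ^ 2) = (d.x * d.w)⁻¹ := by
    field_simp
    linear_combination -hr
  have e2 : ((d.x + 1) / (d.x - 1) * (-2 / d.w) * (d.A * G) * (d.B * G))⁻¹ *
      (-2 * (d.x - 1)⁻¹ ^ 2 * G * G) =
      ((((d.x + 1) / (d.x - 1)) * (-2 / d.w))⁻¹ * (-2 * ((d.x - 1)⁻¹) ^ 2)) * (d.A * d.B)⁻¹ *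
        ((G * G)⁻¹ * (G * G)) := by
    rw [show (d.x + 1) / (d.x - 1) * (-2 / d.w) * (d.A * G) * (d.B * G) =
      ((d.x + 1) / (d.x - 1) * (-2 / d.w)) * (d.A * d.B) * (G * G) by ring, mul_inv, mul_inv]
    ring
  rw [e2, e1, inv_mul_cancel₀ (mul_ne_zero hG0 hG0), mul_one, ← mul_inv]
  congr 1
  ring

end Pool.Agent.H709Reg.J28441
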