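import Pool.Agent.Helper449.ZM.Fan

open Pool.Agent.Helper449.ZM
open scoped KaehlerDifferential

namespace Pool.Agent.H709Reg

/-- The function field of `X = (E × P¹ × P¹)/±`. -/
structure EllData (K : Type) [Field K] [Algebra ℂ K] where
  w : K
  x : K
  A : K
  B : K
  rel : x ^ 2 - w ^ 2 * x - 1 = 0
  indep : AlgebraicIndependent ℂ ![w, A, B]
  gen : IntermediateField.adjoin ℂ {w, x, A, B} = ⊤

variable {K : Type} [Field K] [Algebra ℂ K]

namespace EllData

variable (d : EllData K)

theorem w_ne : d.w ≠ 0 := by
  have := d.indep.ne_zero 0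
  simpa using this

theorem A_ne : d.A ≠ 0 := by
  have := d.indep.ne_zero 1
  simpa using this

theorem B_ne : d.B ≠ 0 := by
  have := d.indep.ne_zero 2
  simpa using this

theorem x_ne : d.x ≠ 0 := by
  intro h
  have := d.rel
  rw [h] at this
  norm_num at this

theorem x_inv : d.x⁻¹ = d.x - d.w ^ 2 := by
  have h := d.rel
  have hx := d.x_ne
  field_simp
  linear_combination -h

theorem x_sub_ne : d.x - 1 ≠ 0 := by
  intro h
  have h1 : d.x = 1 := by linear_combination h
  have h2 := d.rel
  rw [h1] at h2
  exact d.w_ne (by simpa using h2)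

theorem x_add_ne : d.x + 1 ≠ 0 := by
  intro h
  have h1 : d.x = -1 := by linear_combination h
  have h2 := d.rel
  rw [h1] at h2
  exact d.w_ne (by simpa using h2)

/-- `p` and `q`, functions on the base -/
def p : K := d.A * d.B / d.x
def q : K := d.A / d.B

end EllData

end Pool.Agent.H709Reg
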