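import Pool.Agent.Helper449.ZM.Core2

open MvPolynomial

namespace Pool.Agent.H709Reg

theorem lpz_tau (z₁ z₂ : ℂ) (p : MvPolynomial (Fin 2) ℂ) :
    MvPolynomial.eval (0 : Fin 2 → ℂ)
      (MvPolynomial.aeval ![C z₁ * X 0, C z₂ * X 1] p : MvPolynomial (Fin 2) ℂ)
        = MvPolynomial.eval (0 : Fin 2 → ℂ) p ∧
    MvPolynomial.eval (0 : Fin 2 → ℂ)
      (pderiv 0 (MvPolynomial.aeval ![C z₁ * X 0, C z₂ * X 1] p : MvPolynomial (Fin 2) ℂ))
        = z₁ * MvPolynomial.eval (0 : Fin 2 → ℂ) (pderiv 0 p) ∧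
    MvPolynomial.eval (0 : Fin 2 → ℂ)
      (pderiv 1 (MvPolynomial.aeval ![C z₁ * X 0, C z₂ * X 1] p : MvPolynomial (Fin 2) ℂ))
        = z₂ * MvPolynomial.eval (0 : Fin 2 → ℂ) (pderiv 1 p) := by
  induction p using MvPolynomial.induction_on with
  | C c =>
    rw [MvPolynomial.aeval_C]
    simp
  | add p q hp hq =>
    obtain ⟨p1, p2, p3⟩ := hp
    obtain ⟨q1, q2, q3⟩ := hq
    refine ⟨?_, ?_, ?_⟩
    · rw [map_add, map_add, map_add, p1, q1]
    · rw [map_add, map_add, map_add, map_add, map_add, p2, q2]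
      ring
    · rw [map_add, map_add, map_add, map_add, map_add, p3, q3]
      ring
  | mul_X p i hp =>
    obtain ⟨p1, p2, p3⟩ := hp
    have hX : (MvPolynomial.aeval ![C z₁ * X 0, C z₂ * X 1] (X i : MvPolynomial (Fin 2) ℂ)
        : MvPolynomial (Fin 2) ℂ) = (![C z₁ * X 0, C z₂ * X 1] : Fin 2 → _) i :=
      MvPolynomial.aeval_X _ i
    rw [map_mul, hX]
    generalize (MvPolynomial.aeval ![C z₁ * X 0, C z₂ * X 1] p : MvPolynomial (Fin 2) ℂ) = T
      at p1 p2 p3 ⊢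
    have hd01 : pderiv (0 : Fin 2) (X 1 : MvPolynomial (Fin 2) ℂ) = 0 :=
      pderiv_X_of_ne (by decide)
    have hd10 : pderiv (1 : Fin 2) (X 0 : MvPolynomial (Fin 2) ℂ) = 0 :=
      pderiv_X_of_ne (by decide)
    fin_cases i
    · simp only [Fin.zero_eta, Matrix.cons_val_zero, Derivation.leibniz, smul_eq_mul, map_add,
        map_mul, p1, p2, p3, eval_C, eval_X, pderiv_X_self, pderiv_C, hd10, Pi.zero_apply,
        mul_zero, zero_mul, add_zero, zero_add, mul_one, map_zero, map_one, Fin.isValue]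
      exact ⟨trivial, by ring, trivial⟩
    · simp only [Fin.mk_one, Matrix.cons_val_one, Matrix.cons_val_fin_one, Derivation.leibniz,
        smul_eq_mul, map_add,
        map_mul, p1, p2, p3, eval_C, eval_X, pderiv_X_self, pderiv_C, hd01, Pi.zero_apply,
        mul_zero, zero_mul, add_zero, zero_add, mul_one, map_zero, map_one, Fin.isValue]
      exact ⟨trivial, trivial, by ring⟩

/-- invariance under `x ↦ z₁ x, y ↦ z₂ y` of the fraction `a/s` kills its linear part -/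
theorem linear_part_zero (z₁ z₂ : ℂ) (hζ1 : z₁ ≠ 1) (hζ2 : z₂ ≠ 1) (a s : MvPolynomial (Fin 2) ℂ)
    (h : MvPolynomial.aeval ![C z₁ * X 0, C z₂ * X 1] a * s =
      a * MvPolynomial.aeval ![C z₁ * X 0, C z₂ * X 1] s) :
    MvPolynomial.eval (0 : Fin 2 → ℂ) (s * pderiv 0 a - a * pderiv 0 s) = 0 ∧
    MvPolynomial.eval (0 : Fin 2 → ℂ) (s * pderiv 1 a - a * pderiv 1 s) = 0 := by
  obtain ⟨a1, a2, a3⟩ := lpz_tau z₁ z₂ a
  obtain ⟨s1, s2, s3⟩ := lpz_tau z₁ z₂ s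
  have h0 := congrArg (fun p => MvPolynomial.eval (0 : Fin 2 → ℂ) (pderiv 0 p)) h
  have h1 := congrArg (fun p => MvPolynomial.eval (0 : Fin 2 → ℂ) (pderiv 1 p)) h
  simp only [Derivation.leibniz, smul_eq_mul, map_add, map_mul, a1, a2, a3, s1, s2, s3] at h0 h1
  constructor
  · rw [map_sub, map_mul, map_mul]
    have : (z₁ - 1) * (MvPolynomial.eval (0 : Fin 2 → ℂ) s * MvPolynomial.eval (0 : Fin 2 → ℂ) (pderiv 0 a)
        - MvPolynomial.eval (0 : Fin 2 → ℂ) a * MvPolynomial.eval (0 : Fin 2 → ℂ) (pderiv 0 s)) = 0 := by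
      linear_combination h0
    exact (mul_eq_zero.mp this).resolve_left (sub_ne_zero.mpr hζ1)
  · rw [map_sub, map_mul, map_mul]
    have : (z₂ - 1) * (MvPolynomial.eval (0 : Fin 2 → ℂ) s * MvPolynomial.eval (0 : Fin 2 → ℂ) (pderiv 1 a)
        - MvPolynomial.eval (0 : Fin 2 → ℂ) a * MvPolynomial.eval (0 : Fin 2 → ℂ) (pderiv 1 s)) = 0 := by
      linear_combination h1
    exact (mul_eq_zero.mp this).resolve_left (sub_ne_zero.mpr hζ2)

variable (K : Type) [Field K] [Algebra ℂ K] [Algebra (MvPolynomial (Fin 2) ℂ) K]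
  [IsScalarTower ℂ (MvPolynomial (Fin 2) ℂ) K] [IsFractionRing (MvPolynomial (Fin 2) ℂ) K]

theorem exists_sigma (z₁ z₂ : ℂ) (hz₁ : z₁ ≠ 0) (hz₂ : z₂ ≠ 0) : ∃ σ : K →ₐ[ℂ] K,
    ∀ a : MvPolynomial (Fin 2) ℂ, σ (algebraMap _ K a) =
      algebraMap (MvPolynomial (Fin 2) ℂ) K
        (MvPolynomial.aeval ![C z₁ * X 0, C z₂ * X 1] a) := by
  have hinj : Function.Injective (algebraMap (MvPolynomial (Fin 2) ℂ) K) :=
    IsFractionRing.injective _ _
  have h1 : Function.Injective (MvPolynomial.aeval (R := ℂ)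
      (![C z₁ * X 0, C z₂ * X 1] : Fin 2 → MvPolynomial (Fin 2) ℂ)) := by
    apply Function.LeftInverse.injective
      (g := MvPolynomial.aeval (R := ℂ)
        (![C z₁⁻¹ * X 0, C z₂⁻¹ * X 1] : Fin 2 → MvPolynomial (Fin 2) ℂ))
    intro a
    have h2 : (MvPolynomial.aeval (R := ℂ)
        (![C z₁⁻¹ * X 0, C z₂⁻¹ * X 1] : Fin 2 → MvPolynomial (Fin 2) ℂ)).comp
        (MvPolynomial.aeval (R := ℂ)
      (![C z₁ * X 0, C z₂ * X 1] : Fin 2 → MvPolynomial (Fin 2) ℂ)) = AlgHom.id ℂ _ := by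
      apply MvPolynomial.algHom_ext
      intro i
      have h3 : (C z₁ * C z₁⁻¹ : MvPolynomial (Fin 2) ℂ) = 1 := by
        rw [← C_mul, mul_inv_cancel₀ hz₁, C_1]
      have h4 : (C z₂ * C z₂⁻¹ : MvPolynomial (Fin 2) ℂ) = 1 := by
        rw [← C_mul, mul_inv_cancel₀ hz₂, C_1]
      fin_cases i
      · simp only [AlgHom.comp_apply, AlgHom.id_apply, aeval_X, Fin.zero_eta,
          Matrix.cons_val_zero, map_mul, algHom_C, algebraMap_eq]
        rw [← mul_assoc, h3, one_mul]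
      · simp only [AlgHom.comp_apply, AlgHom.id_apply, aeval_X, Fin.mk_one,
          Matrix.cons_val_one, Matrix.cons_val_fin_one, map_mul, algHom_C, algebraMap_eq]
        rw [← mul_assoc, h4, one_mul]
    exact DFunLike.congr_fun h2 a
  set g : MvPolynomial (Fin 2) ℂ →ₐ[ℂ] K :=
    (IsScalarTower.toAlgHom ℂ (MvPolynomial (Fin 2) ℂ) K).comp
      (MvPolynomial.aeval (R := ℂ)
      (![C z₁ * X 0, C z₂ * X 1] : Fin 2 → MvPolynomial (Fin 2) ℂ)) with hg
  have hgi : Function.Injective g := hinj.comp h1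
  refine ⟨IsFractionRing.liftAlgHom hgi, fun a => ?_⟩
  rw [IsFractionRing.liftAlgHom_apply, IsFractionRing.lift_algebraMap]
  rfl

/-- a homomorphism out of `ℂ(X₀, X₁)` with given algebraically independent values -/
theorem exists_hom {F : Type} [Field F] [Algebra ℂ F] (a b : F)
    (h : AlgebraicIndependent ℂ ![a, b]) : ∃ φ : K →ₐ[ℂ] F,
      φ (algebraMap _ K (X 0 : MvPolynomial (Fin 2) ℂ)) = a ∧
      φ (algebraMap _ K (X 1 : MvPolynomial (Fin 2) ℂ)) = b := by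
  have hi : Function.Injective (aeval (R := ℂ) ![a, b]) := h
  refine ⟨IsFractionRing.liftAlgHom hi, ?_, ?_⟩
  · rw [IsFractionRing.liftAlgHom_apply, IsFractionRing.lift_algebraMap]
    simp
  · rw [IsFractionRing.liftAlgHom_apply, IsFractionRing.lift_algebraMap]
    simp

/-- two homomorphisms out of `ℂ(X₀, X₁)` which agree on `X₀` and `X₁` are equal -/
theorem hom_ext {F : Type} [Field F] [Algebra ℂ F] (φ ψ : K →ₐ[ℂ] F)
    (h0 : φ (algebraMap _ K (X 0 : MvPolynomial (Fin 2) ℂ)) =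
      ψ (algebraMap _ K (X 0 : MvPolynomial (Fin 2) ℂ)))
    (h1 : φ (algebraMap _ K (X 1 : MvPolynomial (Fin 2) ℂ)) =
      ψ (algebraMap _ K (X 1 : MvPolynomial (Fin 2) ℂ))) : φ = ψ := by
  have h2 : φ.comp (IsScalarTower.toAlgHom ℂ (MvPolynomial (Fin 2) ℂ) K) =
      ψ.comp (IsScalarTower.toAlgHom ℂ (MvPolynomial (Fin 2) ℂ) K) := by
    apply MvPolynomial.algHom_ext
    intro i
    fin_cases i
    · exact h0
    · exact h1
  ext z
  obtain ⟨a, s, hs, rfl⟩ := IsFractionRing.div_surjective (A := MvPolynomial (Fin 2) ℂ) z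
  rw [map_div₀, map_div₀]
  have e : ∀ a : MvPolynomial (Fin 2) ℂ, φ (algebraMap _ K a) = ψ (algebraMap _ K a) :=
    fun a => DFunLike.congr_fun h2 a
  rw [e, e]

end Pool.Agent.H709Reg
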