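import Pool.Agent.H709Reg.J27397

namespace Pool.Agent.H709Reg

variable {K : Type} [Field K] [Algebra ℂ K]

/-- the other chart of the elliptic curve -/
noncomputable def EllData.swap (d : EllData K) : EllData K where
  w := -2 / d.w
  x := (d.x + 1) / (d.x - 1)
  A := -d.A * (d.x + 1) / (d.w * d.x)
  B := -d.B * (d.x + 1) / (d.w * d.x)
  rel := J27397.swap_rel d
  indep := J27397.swap_indep d
  gen := J27397.swap_gen d

theorem EllData.two_ne (_ : EllData K) : (2 : K) ≠ 0 := by
  haveI : CharZero K := charZero_of_injective_algebraMap (algebraMap ℂ K).injective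
  exact two_ne_zero

theorem swap_p (d : EllData K) : d.swap.p = d.p := by
  have h1 := d.w_ne
  have h2 := d.x_ne
  have h3 := d.x_sub_ne
  have h4 := d.x_add_ne
  have h := d.rel
  simp only [EllData.p, EllData.swap]
  field_simp
  linear_combination (d.A * d.B * 1) * h

theorem swap_q (d : EllData K) : d.swap.q = d.q := by
  have h1 := d.w_ne
  have h2 := d.x_ne
  have h3 := d.x_sub_ne
  have h4 := d.x_add_ne
  have h5 := d.B_ne
  simp only [EllData.q, EllData.swap]
  field_simp

end Pool.Agent.H709Reg
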