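import Pool.Agent.H709Reg.Block
import Pool.Agent.H709Reg.Swap

open Pool.Agent.Helper449.ZM
open scoped KaehlerDifferential

namespace Pool.Agent.H709Reg

variable {K : Type} [Field K] [Algebra ℂ K]

/-- the three blocks of homogeneous coordinates of `X` -/
def chiX (d : EllData K) : Fin 3 → Fin 4 → K :=
  ![![1, d.x, d.w, d.x * d.w], ![1, d.x, d.A, d.A * d.w], ![1, d.x, d.B, d.B * d.w]]

theorem chiX_ne (d : EllData K) : ∀ k j, chiX d k j ≠ 0 := by
  have := d.x_ne
  have := d.w_ne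
  have := d.A_ne
  have := d.B_ne
  intro k j
  fin_cases k <;> fin_cases j <;> simp_all [chiX]

theorem chiX_gen (d : EllData K) :
    IntermediateField.adjoin ℂ {f | ∃ k i j, f = chiX d k j / chiX d k i} = ⊤ := by
  refine gen_of_subset ?_ d.gen
  rintro _ (rfl | rfl | rfl | rfl)
  · exact ⟨0, 0, 2, by simp [chiX]⟩
  · exact ⟨0, 0, 1, by simp [chiX]⟩
  · exact ⟨1, 0, 2, by simp [chiX]⟩
  · exact ⟨2, 0, 2, by simp [chiX]⟩

/-- `X = (E × P¹ × P¹)/±` -/
noncomputable def XVar (d : EllData K) : ProjVar K := blockVar (chiX d) (chiX_ne d) (chiX_gen d)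

theorem adj4_le {a b c e : K} {R : Subalgebra ℂ K} (ha : a ∈ R) (hb : b ∈ R) (hc : c ∈ R)
    (he : e ∈ R) : Algebra.adjoin ℂ {a, b, c, e} ≤ R := by
  refine Algebra.adjoin_le ?_
  rintro _ (rfl | rfl | rfl | rfl)
  · exact ha
  · exact hb
  · exact hc
  · exact he

theorem cmem (R : Subalgebra ℂ K) (n : ℂ) : algebraMap ℂ K n ∈ R := R.algebraMap_mem n

/-- chart I, the two twisted blocks -/
theorem blockI {d : EllData K} {R : Subalgebra ℂ K} (hx : d.x ∈ R) (hw : d.w ∈ R) (C : K)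
    (hC : C ≠ 0) (s : Fin 4) (hs : ∀ j, ![1, d.x, C, C * d.w] j / ![1, d.x, C, C * d.w] s ∈ R) :
    C ∈ R ∨ C⁻¹ ∈ R := by
  have hx0 := d.x_ne
  have hw0 := d.w_ne
  fin_cases s
  · left; simpa using hs 2
  · left
    have := R.mul_mem (hs 2) hx
    simp at this
    rwa [div_mul_cancel₀ _ hx0] at this
  · right; simpa using hs 0
  · right
    have := R.mul_mem (hs 0) hw
    simp at this
    convert this using 1
    field_simp

theorem scaleI {d : EllData K} {B : Subalgebra ℂ K} (hx : d.x ∈ B) (hw : d.w ∈ B) (C α : K)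
    (hC : C ≠ 0) (hα : α = C ∨ α = C⁻¹) (hαB : α ∈ B) :
    ∃ l : K, l ≠ 0 ∧ (∀ j, l * ![1, d.x, C, C * d.w] j ∈ B) ∧
      ∃ c : Fin 4 → K, (∀ j, c j ∈ B) ∧ ∑ j, c j * (l * ![1, d.x, C, C * d.w] j) = 1 := by
  rcases hα with rfl | rfl
  · refine ⟨1, one_ne_zero, ?_, ![1, 0, 0, 0], ?_, ?_⟩
    · intro j
      fin_cases j
      · simp [B.one_mem]
      · simpa using hx
      · simpa using hαB
      · simpa using B.mul_mem hαB hw
    · intro j
      fin_cases j <;> simp [B.one_mem, B.zero_mem]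
    · simp [Fin.sum_univ_four]
  · refine ⟨C⁻¹, inv_ne_zero hC, ?_, ![0, 0, 1, 0], ?_, ?_⟩
    · intro j
      fin_cases j
      · simpa using hαB
      · simpa using B.mul_mem hαB hx
      · simp [hC, B.one_mem]
      · simpa [hC] using hw
    · intro j
      fin_cases j <;> simp [B.one_mem, B.zero_mem]
    · simp [Fin.sum_univ_four, hC]

theorem swap_x (d : EllData K) : d.swap.x = (d.x + 1) / (d.x - 1) := rfl
theorem swap_w (d : EllData K) : d.swap.w = -2 / d.w := rfl

theorem x_eq_swap (d : EllData K) : d.x = (d.swap.x + 1) / (d.swap.x - 1) := by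
  have h3 := d.x_sub_ne
  have h2 := d.two_ne
  have e1 : d.swap.x + 1 = 2 * d.x / (d.x - 1) := by rw [swap_x]; field_simp; ring
  have e2 : d.swap.x - 1 = 2 / (d.x - 1) := by rw [swap_x]; field_simp; ring
  rw [e1, e2]; field_simp

theorem w_eq_swap (d : EllData K) : d.w = -2 / d.swap.w := by
  have h2 := d.two_ne
  have h3 := d.w_ne
  rw [swap_w]; field_simp

/-- the four coordinates of a twisted block in the second chart, up to the factor `x' - 1` -/
theorem block_eq_swap (d : EllData K) (C : K) (j : Fin 4) :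
    (d.swap.x - 1) * ![1, d.x, C, C * d.w] j =
      ![d.swap.x - 1, d.swap.x + 1, (-C * (d.x + 1) / (d.w * d.x)) * d.swap.w,
        -2 * (-C * (d.x + 1) / (d.w * d.x))] j := by
  have h1 := d.x_sub_ne
  have h2 := d.two_ne
  have h3 := d.w_ne
  have h4 := d.x_ne
  have h5 := d.rel
  fin_cases j
  · simp
  · simp only [swap_x]; simp; field_simp; ring
  · simp only [swap_x, swap_w]; simp; field_simp
    linear_combination (-2 * C) * h5
  · simp only [swap_x, swap_w]; simp; field_simp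
    linear_combination (-2 * C) * h5

theorem block0_eq_swap (d : EllData K) (j : Fin 4) :
    ((d.swap.x - 1) * d.swap.w) * ![1, d.x, d.w, d.x * d.w] j =
      ![(d.swap.x - 1) * d.swap.w, (d.swap.x + 1) * d.swap.w, -2 * (d.swap.x - 1),
        -2 * (d.swap.x + 1)] j := by
  have h1 := d.x_sub_ne
  have h2 := d.two_ne
  have h3 := d.w_ne
  have h4 := d.x_ne
  fin_cases j
  · simp
  · simp only [swap_x, swap_w]; simp; field_simp; ring
  · simp only [swap_x, swap_w]; simp; field_simp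
  · simp only [swap_x, swap_w]; simp; field_simp; ring

theorem twoR (R : Subalgebra ℂ K) : (2 : K) ∈ R := by
  have := R.algebraMap_mem 2
  simpa using this

theorem halfR (R : Subalgebra ℂ K) : (2 : K)⁻¹ ∈ R := by
  have := R.algebraMap_mem 2⁻¹
  rwa [map_inv₀, map_ofNat] at this

theorem quarterR (R : Subalgebra ℂ K) : (4 : K)⁻¹ ∈ R := by
  have := R.algebraMap_mem 4⁻¹
  rwa [map_inv₀, map_ofNat] at this

theorem four_ne (d : EllData K) : (4 : K) ≠ 0 := by
  have h := d.two_ne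
  have : (4 : K) = 2 * 2 := by norm_num
  rw [this]; exact mul_ne_zero h h

/-- in the second chart -/
theorem swap_mem {d : EllData K} {R : Subalgebra ℂ K} (hw : d.w⁻¹ ∈ R)
    (hx : d.x ∈ R ∨ d.x⁻¹ ∈ R) : d.swap.x ∈ R ∧ d.swap.w ∈ R := by
  have h1 := d.x_sub_ne
  have h2 := d.two_ne
  have h3 := d.w_ne
  have h4 := d.x_ne
  have h5 := d.rel
  have hw2 := R.mul_mem hw hw
  refine ⟨?_, ?_⟩
  · rcases hx with hx | hx
    · have e : (d.x - 1)⁻¹ = d.w⁻¹ * d.w⁻¹ * (d.x + 1) - 1 := by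
        field_simp
        linear_combination (-1 : K) * h5
      have m : (d.x - 1)⁻¹ ∈ R := by
        rw [e]
        exact R.sub_mem (R.mul_mem hw2 (R.add_mem hx R.one_mem)) R.one_mem
      rw [swap_x, div_eq_mul_inv]
      exact R.mul_mem (R.add_mem hx R.one_mem) m
    · have e : d.swap.x = (1 + d.x⁻¹) * (1 + d.w⁻¹ * d.w⁻¹ * (1 + d.x⁻¹)) := by
        rw [swap_x]
        field_simp
        linear_combination (-(d.x + 1)) * h5
      rw [e]
      have m1 := R.add_mem R.one_mem hx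
      exact R.mul_mem m1 (R.add_mem R.one_mem (R.mul_mem hw2 m1))
  · rw [swap_w, div_eq_mul_inv]
    exact R.mul_mem (R.neg_mem (twoR R)) hw

theorem blockII {d : EllData K} {R : Subalgebra ℂ K} (hx : d.swap.x ∈ R)
    (hwn : d.w ∉ R) (C : K)
    (hC : C ≠ 0) (s : Fin 4) (hs : ∀ j, ![1, d.x, C, C * d.w] j / ![1, d.x, C, C * d.w] s ∈ R) :
    (-C * (d.x + 1) / (d.w * d.x)) ∈ R ∨ (-C * (d.x + 1) / (d.w * d.x))⁻¹ ∈ R := by
  have h1 := d.x_sub_ne
  have h1' := d.x_add_ne
  have h2 := d.two_ne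
  have h3 := d.w_ne
  have h4 := d.x_ne
  have h5 := d.rel
  have hx1 : d.swap.x - 1 ≠ 0 := d.swap.x_sub_ne
  have hx2 : d.swap.x + 1 ≠ 0 := d.swap.x_add_ne
  have key : ∀ j, ![d.swap.x - 1, d.swap.x + 1, (-C * (d.x + 1) / (d.w * d.x)) * d.swap.w,
        -2 * (-C * (d.x + 1) / (d.w * d.x))] j / ![d.swap.x - 1, d.swap.x + 1,
        (-C * (d.x + 1) / (d.w * d.x)) * d.swap.w, -2 * (-C * (d.x + 1) / (d.w * d.x))] s ∈ R := by
    intro j
    rw [← block_eq_swap, ← block_eq_swap, mul_div_mul_left _ _ hx1]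
    exact hs j
  set C' := -C * (d.x + 1) / (d.w * d.x) with hC'
  have hC0 : C' ≠ 0 := by
    rw [hC']
    exact div_ne_zero (mul_ne_zero (neg_ne_zero.2 hC) h1') (mul_ne_zero h3 h4)
  fin_cases s
  · left
    have m := R.mul_mem (R.mul_mem (key 3) (R.sub_mem hx R.one_mem)) (R.neg_mem (halfR R))
    convert m using 1
    simp
    field_simp
  · left
    have m := R.mul_mem (R.mul_mem (key 3) (R.add_mem hx R.one_mem)) (R.neg_mem (halfR R))
    convert m using 1
    simp
    field_simp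
  · exfalso
    apply hwn
    have m := key 3
    convert m using 1
    rw [w_eq_swap]
    have := d.swap.w_ne
    simp
    field_simp
  · right
    have m := R.sub_mem (key 0) (key 1)
    convert m using 1
    simp
    field_simp
    ring

theorem scaleII {d : EllData K} {B : Subalgebra ℂ K} (hx : d.swap.x ∈ B) (hw : d.swap.w ∈ B)
    (C α : K) (hC : C ≠ 0) (hα : α = (-C * (d.x + 1) / (d.w * d.x)) ∨
      α = (-C * (d.x + 1) / (d.w * d.x))⁻¹) (hαB : α ∈ B) :
    ∃ l : K, l ≠ 0 ∧ (∀ j, l * ![1, d.x, C, C * d.w] j ∈ B) ∧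
      ∃ c : Fin 4 → K, (∀ j, c j ∈ B) ∧ ∑ j, c j * (l * ![1, d.x, C, C * d.w] j) = 1 := by
  have h1' := d.x_add_ne
  have h2 := d.two_ne
  have h3 := d.w_ne
  have h4 := d.x_ne
  have hx1 : d.swap.x - 1 ≠ 0 := d.swap.x_sub_ne
  have key := block_eq_swap d C
  set C' := -C * (d.x + 1) / (d.w * d.x) with hC'
  have hC0 : C' ≠ 0 := by
    rw [hC']
    exact div_ne_zero (mul_ne_zero (neg_ne_zero.2 hC) h1') (mul_ne_zero h3 h4)
  have m1 := B.sub_mem hx B.one_mem
  have m2 := B.add_mem hx B.one_mem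
  rcases hα with rfl | rfl
  · refine ⟨d.swap.x - 1, hx1, ?_, ![-2⁻¹, 2⁻¹, 0, 0], ?_, ?_⟩
    · intro j
      rw [key]
      fin_cases j
      · exact m1
      · exact m2
      · exact B.mul_mem hαB hw
      · exact B.mul_mem (B.neg_mem (twoR B)) hαB
    · intro j
      fin_cases j
      · exact B.neg_mem (halfR B)
      · exact halfR B
      · exact B.zero_mem
      · exact B.zero_mem
    · simp only [key]
      simp [Fin.sum_univ_four]
      field_simp
      ring
  · refine ⟨(d.swap.x - 1) * C'⁻¹, mul_ne_zero hx1 (inv_ne_zero hC0), ?_, ![0, 0, 0, -2⁻¹], ?_, ?_⟩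
    · intro j
      rw [mul_right_comm, key]
      fin_cases j
      · exact B.mul_mem m1 hαB
      · exact B.mul_mem m2 hαB
      · simpa [mul_comm C', mul_assoc, hC0] using hw
      · simpa [mul_assoc, hC0] using twoR B
    · intro j
      fin_cases j
      · exact B.zero_mem
      · exact B.zero_mem
      · exact B.zero_mem
      · exact B.neg_mem (halfR B)
    · simp only [mul_right_comm _ C'⁻¹, key]
      simp [Fin.sum_univ_four]
      field_simp

theorem niceI {d : EllData K} {R : Subalgebra ℂ K} (hR : (XVar d).IsLocal R) (hx : d.x ∈ R)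
    (hw : d.w ∈ R) : ∃ α β, (α = d.A ∨ α = d.A⁻¹) ∧ (β = d.B ∨ β = d.B⁻¹) ∧
      IsLocOf (Algebra.adjoin ℂ {d.x, d.w, α, β}) R := by
  obtain ⟨s, hs, -⟩ := exists_ratio_mem hR
  have hA := blockI hx hw d.A d.A_ne (s 1) (hs 1)
  have hB := blockI hx hw d.B d.B_ne (s 2) (hs 2)
  obtain ⟨α, hα, hαR⟩ : ∃ α, (α = d.A ∨ α = d.A⁻¹) ∧ α ∈ R := by
    rcases hA with h | h
    · exact ⟨_, Or.inl rfl, h⟩
    · exact ⟨_, Or.inr rfl, h⟩
  obtain ⟨β, hβ, hβR⟩ : ∃ β, (β = d.B ∨ β = d.B⁻¹) ∧ β ∈ R := by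
    rcases hB with h | h
    · exact ⟨_, Or.inl rfl, h⟩
    · exact ⟨_, Or.inr rfl, h⟩
  refine ⟨α, β, hα, hβ, blockVar_isLocOf hR (adj4_le hx hw hαR hβR) ?_⟩
  have mx : d.x ∈ Algebra.adjoin ℂ {d.x, d.w, α, β} := Algebra.subset_adjoin (by simp)
  have mw : d.w ∈ Algebra.adjoin ℂ {d.x, d.w, α, β} := Algebra.subset_adjoin (by simp)
  have mα : α ∈ Algebra.adjoin ℂ {d.x, d.w, α, β} := Algebra.subset_adjoin (by simp)
  have mβ : β ∈ Algebra.adjoin ℂ {d.x, d.w, α, β} := Algebra.subset_adjoin (by simp)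
  intro k
  fin_cases k
  · refine ⟨1, one_ne_zero, ?_, ![1, 0, 0, 0], ?_, ?_⟩
    · intro j
      fin_cases j
      · simp [chiX]
      · simpa [chiX] using mx
      · simpa [chiX] using mw
      · simpa [chiX] using mul_mem mx mw
    · intro j
      fin_cases j <;> simp
    · simp [Fin.sum_univ_four, chiX]
  · exact scaleI mx mw d.A α d.A_ne hα mα
  · exact scaleI mx mw d.B β d.B_ne hβ mβ

theorem niceII {d : EllData K} {R : Subalgebra ℂ K} (hR : (XVar d).IsLocal R) (hx : d.swap.x ∈ R)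
    (hw : d.swap.w ∈ R) (hwn : d.w ∉ R) : ∃ α β, (α = d.swap.A ∨ α = d.swap.A⁻¹) ∧
      (β = d.swap.B ∨ β = d.swap.B⁻¹) ∧
      IsLocOf (Algebra.adjoin ℂ {d.swap.x, d.swap.w, α, β}) R := by
  obtain ⟨s, hs, -⟩ := exists_ratio_mem hR
  have hA := blockII hx hwn d.A d.A_ne (s 1) (hs 1)
  have hB := blockII hx hwn d.B d.B_ne (s 2) (hs 2)
  obtain ⟨α, hα, hαR⟩ : ∃ α, (α = d.swap.A ∨ α = d.swap.A⁻¹) ∧ α ∈ R := by
    rcases hA with h | h
    · exact ⟨_, Or.inl rfl, h⟩
    · exact ⟨_, Or.inr rfl, h⟩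
  obtain ⟨β, hβ, hβR⟩ : ∃ β, (β = d.swap.B ∨ β = d.swap.B⁻¹) ∧ β ∈ R := by
    rcases hB with h | h
    · exact ⟨_, Or.inl rfl, h⟩
    · exact ⟨_, Or.inr rfl, h⟩
  refine ⟨α, β, hα, hβ, blockVar_isLocOf hR (adj4_le hx hw hαR hβR) ?_⟩
  have mx : d.swap.x ∈ Algebra.adjoin ℂ {d.swap.x, d.swap.w, α, β} :=
    Algebra.subset_adjoin (by simp)
  have mw : d.swap.w ∈ Algebra.adjoin ℂ {d.swap.x, d.swap.w, α, β} :=
    Algebra.subset_adjoin (by simp)
  have mα : α ∈ Algebra.adjoin ℂ {d.swap.x, d.swap.w, α, β} := Algebra.subset_adjoin (by simp)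
  have mβ : β ∈ Algebra.adjoin ℂ {d.swap.x, d.swap.w, α, β} := Algebra.subset_adjoin (by simp)
  intro k
  fin_cases k
  · have m1 := sub_mem mx (one_mem _)
    have m2 := add_mem mx (one_mem _)
    refine ⟨(d.swap.x - 1) * d.swap.w, mul_ne_zero d.swap.x_sub_ne d.swap.w_ne, ?_,
      ![0, 0, 4⁻¹, -4⁻¹], ?_, ?_⟩
    · intro j
      change ((d.swap.x - 1) * d.swap.w) * ![1, d.x, d.w, d.x * d.w] j ∈ _
      rw [block0_eq_swap]
      fin_cases j
      · exact mul_mem m1 mw
      · exact mul_mem m2 mw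
      · exact mul_mem (neg_mem (twoR _)) m1
      · exact mul_mem (neg_mem (twoR _)) m2
    · intro j
      fin_cases j
      · exact zero_mem _
      · exact zero_mem _
      · exact quarterR _
      · exact neg_mem (quarterR _)
    · have h4 := four_ne d
      change ∑ j, _ * (((d.swap.x - 1) * d.swap.w) * ![1, d.x, d.w, d.x * d.w] j) = 1
      simp only [block0_eq_swap]
      simp [Fin.sum_univ_four]
      field_simp
      ring
  · exact scaleII mx mw d.A α d.A_ne hα mα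
  · exact scaleII mx mw d.B β d.B_ne hβ mβ

/-- Every local ring of `X` is a localisation of one of the eight nice charts. -/
theorem X_nice (d : EllData K) {R : Subalgebra ℂ K} (hR : (XVar d).IsLocal R) :
    ∃ d' : EllData K, (d' = d ∨ d' = d.swap) ∧ ∃ α β, (α = d'.A ∨ α = d'.A⁻¹) ∧
      (β = d'.B ∨ β = d'.B⁻¹) ∧ IsLocOf (Algebra.adjoin ℂ {d'.x, d'.w, α, β}) R := by
  obtain ⟨s, hs, -⟩ := exists_ratio_mem hR
  have hx0 := d.x_ne
  have hw0 := d.w_ne
  by_cases hw : d.w ∈ R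
  · -- first chart
    have hxR : d.x ∈ R := by
      have h := hs 0
      rcases hs0 : s 0 with ⟨i, hi⟩
      rw [hs0] at h
      interval_cases i
      · simpa [chiX] using h 1
      · have h1 : d.x⁻¹ ∈ R := by simpa [chiX] using h 0
        have e : d.x = d.x⁻¹ + d.w ^ 2 := by rw [d.x_inv]; ring
        rw [e]
        exact R.add_mem h1 (R.pow_mem hw 2)
      · have h1 := h 3
        simpa [chiX, hw0] using h1
      · have h1 : d.x⁻¹ ∈ R := by
          have h1 := h 2
          have e : d.x⁻¹ = d.w / (d.x * d.w) := by field_simp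
          rw [e]
          simpa [chiX] using h1
        have e : d.x = d.x⁻¹ + d.w ^ 2 := by rw [d.x_inv]; ring
        rw [e]
        exact R.add_mem h1 (R.pow_mem hw 2)
    obtain ⟨α, β, h⟩ := niceI hR hxR hw
    exact ⟨d, Or.inl rfl, α, β, h⟩
  · have hwi : d.w⁻¹ ∈ R ∧ (d.x ∈ R ∨ d.x⁻¹ ∈ R) := by
      have h := hs 0
      rcases hs0 : s 0 with ⟨i, hi⟩
      rw [hs0] at h
      interval_cases i
      · exact absurd (by simpa [chiX] using h 2) hw
      · exact absurd (by simpa [chiX, hx0] using h 3) hw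
      · exact ⟨by simpa [chiX] using h 0, Or.inl (by simpa [chiX, hw0] using h 3)⟩
      · refine ⟨?_, Or.inr ?_⟩
        · have h1 := h 1
          have e : d.w⁻¹ = d.x / (d.x * d.w) := by field_simp
          rw [e]
          simpa [chiX] using h1
        · have h1 := h 2
          have e : d.x⁻¹ = d.w / (d.x * d.w) := by field_simp
          rw [e]
          simpa [chiX] using h1
    obtain ⟨h1, h2⟩ := swap_mem hwi.1 hwi.2
    obtain ⟨α, β, h⟩ := niceII hR h1 h2 hw
    exact ⟨d.swap, Or.inr rfl, α, β, h⟩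

end Pool.Agent.H709Reg
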